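/-
MP_a4f561_co, S10566: the page number of upward planar digraphs is unbounded. Definitions.
A history is a list of states; a state is a list of elements (bottom to top); consecutive states
differ by one inserted or one deleted element. The edges are the pairs that are consecutive in some state.
-/
import Mathlib

set_option autoImplicit false

namespace Pool.Agent.PageUnb

/-- Names of the elements of a gadget: left stack, right stack, new elements. -/
inductive Sym (M : Type) : Type
  | L (i : ℕ) : Sym M
  | R (i : ℕ) : Sym M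
  | new (m : M) : Sym M

/-- The pairs consecutive in some state. -/
def Ed {V : Type} (H : List (List V)) (p q : V) : Prop := ∃ S ∈ H, [p, q] <:+: S

/-- The elements of a history. -/
def Els {V : Type} (H : List (List V)) (v : V) : Prop := ∃ S ∈ H, v ∈ S

/-- One inserted element. -/
def Ins {V : Type} (S S' : List V) : Prop := ∃ X u Y, S = X ++ Y ∧ S' = X ++ u :: Y

/-- One step of a history. -/
def Step {V : Type} (S S' : List V) : Prop := S = S' ∨ Ins S S' ∨ Ins S' S

/-- Valid history from the state `S` to the state `S'`; all states begin with `a` and end with `z`;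
the life time of an element is an interval. -/
structure Hst {V : Type} (a z : V) (S S' : List V) (H : List (List V)) : Prop where
  hd : H.head? = some S
  lt : H.getLast? = some S'
  fst : ∀ X ∈ H, X.head? = some a
  lst : ∀ X ∈ H, X.getLast? = some z
  nodup : ∀ X ∈ H, X.Nodup
  chain : H.IsChain Step
  conv : ∀ (v : V) (i j k : ℕ) (_ : i ≤ j) (_ : j ≤ k) (hk : k < H.length),
    v ∈ H[i] → v ∈ H[k] → v ∈ H[j]

/-- `Tw E ord T`: the edges of `T` form a twist, listed from left to right. -/
def Tw {V : Type} (E : V → V → Prop) (ord : V → ℕ) (T : List (V × V)) : Prop :=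
  T.Pairwise (fun e f => ord e.1 < ord f.1 ∧ ord e.2 < ord f.2) ∧
  (∀ e ∈ T, E e.1 e.2) ∧ (∀ e ∈ T, ∀ f ∈ T, ord e.1 < ord f.2)

/-- Orders of the elements of `H` with all edges going forward and all twists of size `< K`. -/
structure Good {V : Type} (K : ℕ) (H : List (List V)) (ord : V → ℕ) : Prop where
  fwd : ∀ p q, Ed H p q → ord p < ord q
  inj : ∀ p q, Els H p → Els H q → ord p = ord q → p = q
  tw : ∀ T, Tw (Ed H) ord T → T.length < K

/-- The left stack `f w, ..., f 0`. -/
def stkL {V : Type} (f : ℕ → V) (w : ℕ) : List V := (List.range (w + 1)).reverse.map f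

/-- The right stack `f 0, ..., f w`. -/
def stkR {V : Type} (f : ℕ → V) (w : ℕ) : List V := (List.range (w + 1)).map f

/-- The initial state of a gadget: `L w, ..., L 0, R 0, ..., R w`. -/
def stk (M : Type) (w : ℕ) : List (Sym M) := stkL Sym.L w ++ stkR Sym.R w

/-- A gadget of width `w`: it eats the two stacks, down to `[L w, R w]`. -/
structure Gad (w : ℕ) (M : Type) (H : List (List (Sym M))) : Prop where
  pos : 1 ≤ w
  hst : Hst (Sym.L w) (Sym.R w) (stk M w) [Sym.L w, Sym.R w] H
  els : ∀ v, Els H v → v ∈ stk M w ∨ ∃ m, v = Sym.new m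

/-- Every slot of `[L 0, R 0)` is covered by a `k`-twist. -/
def Fstar (K k : ℕ) : Prop :=
  ∃ (w : ℕ) (M : Type) (H : List (List (Sym M))), Gad w M H ∧
    ∀ ord : Sym M → ℕ, Good K H ord → ∀ x, ord (Sym.L 0) ≤ x → x < ord (Sym.R 0) →
      ∃ T, Tw (Ed H) ord T ∧ T.length = k ∧ ∀ e ∈ T, ord e.1 ≤ x ∧ x < ord e.2

/-- There is one `k`-twist spanning the whole interval `[L 0, R 0]`. -/
def Strong (K k : ℕ) : Prop :=
  ∃ (w : ℕ) (M : Type) (H : List (List (Sym M))), Gad w M H ∧
    ∀ ord : Sym M → ℕ, Good K H ord →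
      ∃ T, Tw (Ed H) ord T ∧ T.length = k ∧
        ∀ e ∈ T, ord e.1 < ord (Sym.L 0) ∧ ord (Sym.R 0) < ord e.2

/-- The naming map of round `j`. -/
def phi {M : Type} (w j : ℕ) : Sym M → Sym (ℕ × M)
  | Sym.L i => Sym.L (j * w + i)
  | Sym.R i => Sym.R (j * w + i)
  | Sym.new m => Sym.new (j, m)

/-- `H'` contains `n` consecutive rounds of `H`. -/
structure Rounds (w : ℕ) (M : Type) (H : List (List (Sym M))) (n : ℕ)
    (H' : List (List (Sym (ℕ × M)))) : Prop where
  hst : Hst (Sym.L (n * w)) (Sym.R (n * w)) (stk (ℕ × M) (n * w)) [Sym.L (n * w), Sym.R (n * w)] H'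
  els : ∀ v, Els H' v → v ∈ stk (ℕ × M) (n * w) ∨ ∃ j m, j < n ∧ v = Sym.new (j, m)
  ed : ∀ j < n, ∀ p q, Ed H p q → Ed H' (phi w j p) (phi w j q)
  el : ∀ j < n, ∀ p, Els H p → Els H' (phi w j p)

/-- `us` lists elements in reverse order of insertion; each has two neighbours when it is inserted. -/
inductive Built {V : Type} (E : V → V → Prop) (base : V → Prop) : List V → Prop
  | nil : Built E base []
  | cons (us : List V) (u p q : V) : Built E base us → (base p ∨ p ∈ us) → (base q ∨ q ∈ us) →
      E p u → E u q → Built E base (u :: us)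

end Pool.Agent.PageUnb
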