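/-
MP_a4f561_co, S10566: simple facts on edges, twists, orders and stacks.
-/
import Pool.Agent.PageUnb.Defs

set_option autoImplicit false

namespace Pool.Agent.PageUnb

variable {V V' : Type}

theorem Ed.mono {H H' : List (List V)} (h : ∀ S ∈ H, S ∈ H') {p q : V} (he : Ed H p q) :
    Ed H' p q := by
  obtain ⟨S, hS, h1⟩ := he
  exact ⟨S, h S hS, h1⟩

theorem Els.mono {H H' : List (List V)} (h : ∀ S ∈ H, S ∈ H') {p : V} (he : Els H p) :
    Els H' p := by
  obtain ⟨S, hS, h1⟩ := he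
  exact ⟨S, h S hS, h1⟩

theorem Ed.fst {H : List (List V)} {p q : V} (he : Ed H p q) : Els H p := by
  obtain ⟨S, hS, h1⟩ := he
  exact ⟨S, hS, h1.subset (by simp)⟩

theorem Ed.snd {H : List (List V)} {p q : V} (he : Ed H p q) : Els H q := by
  obtain ⟨S, hS, h1⟩ := he
  exact ⟨S, hS, h1.subset (by simp)⟩

theorem Els_append {H H' : List (List V)} {v : V} : Els (H ++ H') v ↔ Els H v ∨ Els H' v := by
  constructor
  · rintro ⟨S, hS, hv⟩
    rcases List.mem_append.1 hS with h | h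
    · exact Or.inl ⟨S, h, hv⟩
    · exact Or.inr ⟨S, h, hv⟩
  · rintro (⟨S, h, hv⟩ | ⟨S, h, hv⟩)
    · exact ⟨S, List.mem_append.2 (Or.inl h), hv⟩
    · exact ⟨S, List.mem_append.2 (Or.inr h), hv⟩

theorem Els_reverse {H : List (List V)} {v : V} : Els H.reverse v ↔ Els H v := by
  constructor
  · rintro ⟨S, hS, hv⟩
    exact ⟨S, List.mem_reverse.1 hS, hv⟩
  · rintro ⟨S, hS, hv⟩
    exact ⟨S, List.mem_reverse.2 hS, hv⟩

theorem Ed_append {H H' : List (List V)} {p q : V} :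
    Ed (H ++ H') p q ↔ Ed H p q ∨ Ed H' p q := by
  constructor
  · rintro ⟨S, hS, hv⟩
    rcases List.mem_append.1 hS with h | h
    · exact Or.inl ⟨S, h, hv⟩
    · exact Or.inr ⟨S, h, hv⟩
  · rintro (⟨S, h, hv⟩ | ⟨S, h, hv⟩)
    · exact ⟨S, List.mem_append.2 (Or.inl h), hv⟩
    · exact ⟨S, List.mem_append.2 (Or.inr h), hv⟩

theorem Ed_reverse {H : List (List V)} {p q : V} : Ed H.reverse p q ↔ Ed H p q := by
  constructor
  · rintro ⟨S, hS, hv⟩
    exact ⟨S, List.mem_reverse.1 hS, hv⟩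
  · rintro ⟨S, hS, hv⟩
    exact ⟨S, List.mem_reverse.2 hS, hv⟩

theorem Els_frame {H : List (List V)} {f : V → V'} {A B : List V'} {v : V'}
    (h : Els (H.map (fun X => A ++ X.map f ++ B)) v) :
    v ∈ A ∨ v ∈ B ∨ ∃ s, Els H s ∧ v = f s := by
  obtain ⟨S, hS, hv⟩ := h
  obtain ⟨X, hX, rfl⟩ := List.mem_map.1 hS
  rcases List.mem_append.1 hv with h | h
  · rcases List.mem_append.1 h with h | h
    · exact Or.inl h
    · obtain ⟨s, hs, rfl⟩ := List.mem_map.1 h
      exact Or.inr (Or.inr ⟨s, ⟨X, hX, hs⟩, rfl⟩)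
  · exact Or.inr (Or.inl h)

theorem Els_frame_of {H : List (List V)} (f : V → V') (A B : List V') {s : V}
    (h : Els H s) : Els (H.map (fun X => A ++ X.map f ++ B)) (f s) := by
  obtain ⟨X, hX, hs⟩ := h
  exact ⟨_, List.mem_map.2 ⟨X, hX, rfl⟩,
    List.mem_append.2 (Or.inl (List.mem_append.2 (Or.inr (List.mem_map.2 ⟨s, hs, rfl⟩))))⟩

theorem Ed_frame_of {H : List (List V)} (f : V → V') (A B : List V') {p q : V}
    (h : Ed H p q) : Ed (H.map (fun X => A ++ X.map f ++ B)) (f p) (f q) := by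
  obtain ⟨X, hX, s, t, rfl⟩ := h
  refine ⟨_, List.mem_map.2 ⟨_, hX, rfl⟩, A ++ s.map f, t.map f ++ B, ?_⟩
  simp

/-- A twist is mapped to a twist. -/
theorem Tw.map {E : V → V → Prop} {E' : V' → V' → Prop} {ord : V' → ℕ} (f : V → V')
    (hE : ∀ p q, E p q → E' (f p) (f q)) {T : List (V × V)} (h : Tw E (fun v => ord (f v)) T) :
    Tw E' ord (T.map (fun e => (f e.1, f e.2))) := by
  obtain ⟨h1, h2, h3⟩ := h
  refine ⟨?_, ?_, ?_⟩
  · rw [List.pairwise_map]
    exact h1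
  · intro e he
    obtain ⟨e0, h0, rfl⟩ := List.mem_map.1 he
    exact hE _ _ (h2 e0 h0)
  · intro e he e' he'
    obtain ⟨e0, h0, rfl⟩ := List.mem_map.1 he
    obtain ⟨e1, h1', rfl⟩ := List.mem_map.1 he'
    exact h3 e0 h0 e1 h1'

/-- Good orders are pulled back along edge preserving maps. -/
theorem Good.pull {K : ℕ} {H : List (List V)} {H' : List (List V')} {ord : V' → ℕ}
    (hG : Good K H' ord) (f : V → V') (hed : ∀ p q, Ed H p q → Ed H' (f p) (f q))
    (hel : ∀ p, Els H p → Els H' (f p))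
    (hinj : ∀ p q, Els H p → Els H q → f p = f q → p = q) : Good K H (fun v => ord (f v)) := by
  refine ⟨fun p q h => hG.fwd _ _ (hed p q h), fun p q hp hq h =>
    hinj p q hp hq (hG.inj _ _ (hel p hp) (hel q hq) h), fun T hT => ?_⟩
  have := hG.tw _ (Tw.map (ord := ord) f hed hT)
  simpa using this

/-- The states are increasing in every good order. -/
theorem Good.sorted {K : ℕ} {H : List (List V)} {ord : V → ℕ} (hG : Good K H ord)
    {S : List V} (hS : S ∈ H) : S.Pairwise (fun p q => ord p < ord q) := by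
  have : ∀ S : List V, (∀ p q, [p, q] <:+: S → ord p < ord q) →
      S.IsChain (fun p q => ord p < ord q) := by
    intro S
    induction S with
    | nil => intro _; exact List.isChain_nil
    | cons x S ih =>
      intro h
      cases S with
      | nil => exact List.isChain_singleton x
      | cons y S =>
        refine List.IsChain.cons_cons (h x y ⟨[], S, rfl⟩) (ih fun p q hpq => h p q ?_)
        obtain ⟨s, t, hst⟩ := hpq
        exact ⟨x :: s, t, by rw [← hst]; rfl⟩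
  have h1 := this S (fun p q hpq => hG.fwd p q ⟨S, hS, hpq⟩)
  haveI : IsTrans V (fun p q => ord p < ord q) := ⟨fun a b c h1 h2 => lt_trans h1 h2⟩
  exact List.isChain_iff_pairwise.1 h1

/-- Order of two elements of a state. -/
theorem Good.lt_of {K : ℕ} {H : List (List V)} {ord : V → ℕ} (hG : Good K H ord)
    {X Y : List V} (hS : X ++ Y ∈ H) {p q : V} (hp : p ∈ X) (hq : q ∈ Y) : ord p < ord q :=
  (List.pairwise_append.1 (hG.sorted hS)).2.2 p hp q hq

theorem stkL_succ (f : ℕ → V) (w : ℕ) :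
    stkL f w = (List.range w).reverse.map (fun i => f (i + 1)) ++ [f 0] := by
  simp [stkL, List.range_succ_eq_map, Function.comp_def]

theorem stkR_succ (f : ℕ → V) (w : ℕ) :
    stkR f w = f 0 :: (List.range w).map (fun i => f (i + 1)) := by
  simp [stkR, List.range_succ_eq_map, Function.comp_def]

theorem mem_stkL {f : ℕ → V} {w : ℕ} {v : V} : v ∈ stkL f w ↔ ∃ i ≤ w, v = f i := by
  simp only [stkL, List.mem_map, List.mem_reverse, List.mem_range, Nat.lt_succ_iff]
  exact ⟨fun ⟨i, h, e⟩ => ⟨i, h, e.symm⟩, fun ⟨i, h, e⟩ => ⟨i, h, e.symm⟩⟩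

theorem mem_stkR {f : ℕ → V} {w : ℕ} {v : V} : v ∈ stkR f w ↔ ∃ i ≤ w, v = f i := by
  simp only [stkR, List.mem_map, List.mem_range, Nat.lt_succ_iff]
  exact ⟨fun ⟨i, h, e⟩ => ⟨i, h, e.symm⟩, fun ⟨i, h, e⟩ => ⟨i, h, e.symm⟩⟩

theorem mem_stk {M : Type} {w : ℕ} {v : Sym M} :
    v ∈ stk M w ↔ ∃ i ≤ w, v = Sym.L i ∨ v = Sym.R i := by
  simp only [stk, List.mem_append, mem_stkL, mem_stkR]
  constructor
  · rintro (⟨i, h, e⟩ | ⟨i, h, e⟩)
    · exact ⟨i, h, Or.inl e⟩
    · exact ⟨i, h, Or.inr e⟩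
  · rintro ⟨i, h, e | e⟩
    · exact Or.inl ⟨i, h, e⟩
    · exact Or.inr ⟨i, h, e⟩

theorem stkL_nodup {f : ℕ → V} {w : ℕ} (h : ∀ i ≤ w, ∀ j ≤ w, f i = f j → i = j) :
    (stkL f w).Nodup := by
  refine List.Nodup.map_on ?_ (List.nodup_reverse.2 List.nodup_range)
  intro i hi j hj e
  simp only [List.mem_reverse, List.mem_range, Nat.lt_succ_iff] at hi hj
  exact h i hi j hj e

theorem stkR_nodup {f : ℕ → V} {w : ℕ} (h : ∀ i ≤ w, ∀ j ≤ w, f i = f j → i = j) :
    (stkR f w).Nodup := by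
  refine List.Nodup.map_on ?_ List.nodup_range
  intro i hi j hj e
  simp only [List.mem_range, Nat.lt_succ_iff] at hi hj
  exact h i hi j hj e

theorem stk_map {M : Type} {V : Type} (f : Sym M → V) (w : ℕ) :
    (stk M w).map f = stkL (fun i => f (Sym.L i)) w ++ stkR (fun i => f (Sym.R i)) w := by
  simp [stk, stkL, stkR, Function.comp_def]

theorem stk_nodup (M : Type) (w : ℕ) : (stk M w).Nodup := by
  rw [stk, List.nodup_append]
  refine ⟨stkL_nodup (by simp), stkR_nodup (by simp), ?_⟩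
  intro a ha b hb e
  obtain ⟨i, _, rfl⟩ := mem_stkL.1 ha
  obtain ⟨j, _, rfl⟩ := mem_stkR.1 hb
  simp at e

end Pool.Agent.PageUnb
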