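import Pool.Agent.PageUnb.Defs

set_option autoImplicit false

/-!
MP_a4f561_co (S10566): every element of a history is inserted between two neighbours.
-/

namespace Pool.Agent.PageUnb

theorem built66_aux {V : Type} (E : V → V → Prop) (base : V → Prop) (a z : V) :
    ∀ (H : List (List V)) (X : List V) (us : List V), Built E base us →
      (∀ v ∈ X, base v ∨ v ∈ us) → (X :: H).IsChain Step →
      (∀ Y ∈ X :: H, Y.head? = some a) → (∀ Y ∈ X :: H, Y.getLast? = some z) →
      (∀ Y ∈ X :: H, ∀ p q, [p, q] <:+: Y → E p q) →
      ∃ us', Built E base us' ∧ (∀ v ∈ us, v ∈ us') ∧ ∀ Y ∈ X :: H, ∀ v ∈ Y, base v ∨ v ∈ us' := by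
  intro H
  induction H with
  | nil =>
    intro X us hus hX _ _ _ _
    refine ⟨us, hus, fun v hv => hv, ?_⟩
    intro Y hY v hv
    have : Y = X := by simpa using hY
    rw [this] at hv
    exact hX v hv
  | cons Y H ih =>
    intro X us hus hX hch hfst hlst hE
    have hstep : Step X Y := (List.isChain_cons_cons.mp hch).1
    have hch' : (Y :: H).IsChain Step := (List.isChain_cons_cons.mp hch).2
    have hfst' : ∀ Z ∈ Y :: H, Z.head? = some a := fun Z hZ => hfst Z (List.mem_cons_of_mem _ hZ)
    have hlst' : ∀ Z ∈ Y :: H, Z.getLast? = some z := fun Z hZ => hlst Z (List.mem_cons_of_mem _ hZ)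
    have hE' : ∀ Z ∈ Y :: H, ∀ p q, [p, q] <:+: Z → E p q :=
      fun Z hZ => hE Z (List.mem_cons_of_mem _ hZ)
    have key : ∃ us1, Built E base us1 ∧ (∀ v ∈ us, v ∈ us1) ∧ ∀ v ∈ Y, base v ∨ v ∈ us1 := by
      rcases hstep with h | ⟨A, u, B, h1, h2⟩ | ⟨A, u, B, h1, h2⟩
      · exact ⟨us, hus, fun v hv => hv, fun v hv => hX v (by rw [h]; exact hv)⟩
      · by_cases hu : base u ∨ u ∈ us
        · refine ⟨us, hus, fun v hv => hv, ?_⟩
          intro v hv
          rw [h2] at hv
          rcases List.mem_append.mp hv with h3 | h3
          · exact hX v (by rw [h1]; exact List.mem_append.mpr (Or.inl h3))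
          · rcases List.mem_cons.mp h3 with h4 | h4
            · rw [h4]; exact hu
            · exact hX v (by rw [h1]; exact List.mem_append.mpr (Or.inr h4))
        · have hXa : X.head? = some a := hfst X (by simp)
          have hXz : X.getLast? = some z := hlst X (by simp)
          have hYa : Y.head? = some a := hfst Y (by simp)
          have hYz : Y.getLast? = some z := hlst Y (by simp)
          have hA : A ≠ [] := by
            intro hA
            subst hA
            have h3 : u = a := by rw [h2] at hYa; simpa using hYa
            have h4 : a ∈ X := List.mem_of_mem_head? hXa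
            exact hu (by rw [h3]; exact hX a h4)
          have hB : B ≠ [] := by
            intro hB
            subst hB
            have h3 : u = z := by rw [h2] at hYz; simpa using hYz
            have h4 : z ∈ X := List.mem_of_getLast? hXz
            exact hu (by rw [h3]; exact hX z h4)
          obtain ⟨A', p, hA'⟩ : ∃ A' p, A = A' ++ [p] :=
            ⟨A.dropLast, A.getLast hA, (List.dropLast_append_getLast hA).symm⟩
          obtain ⟨q, B', hB'⟩ := List.exists_cons_of_ne_nil hB
          have hp : base p ∨ p ∈ us := hX p (by rw [h1, hA']; simp)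
          have hq : base q ∨ q ∈ us := hX q (by rw [h1, hB']; simp)
          have hpu : E p u := hE Y (by simp) p u ⟨A', B, by rw [h2, hA']; simp⟩
          have huq : E u q := hE Y (by simp) u q ⟨A, B', by rw [h2, hB']; simp⟩
          refine ⟨u :: us, Built.cons us u p q hus hp hq hpu huq,
            fun v hv => List.mem_cons_of_mem _ hv, ?_⟩
          intro v hv
          rw [h2] at hv
          rcases List.mem_append.mp hv with h3 | h3
          · rcases hX v (by rw [h1]; exact List.mem_append.mpr (Or.inl h3)) with h5 | h5
            · exact Or.inl h5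
            · exact Or.inr (List.mem_cons_of_mem _ h5)
          · rcases List.mem_cons.mp h3 with h4 | h4
            · exact Or.inr (by rw [h4]; exact List.mem_cons_self)
            · rcases hX v (by rw [h1]; exact List.mem_append.mpr (Or.inr h4)) with h5 | h5
              · exact Or.inl h5
              · exact Or.inr (List.mem_cons_of_mem _ h5)
      · refine ⟨us, hus, fun v hv => hv, ?_⟩
        intro v hv
        apply hX
        rw [h2]
        rw [h1] at hv
        rcases List.mem_append.mp hv with h3 | h3
        · exact List.mem_append.mpr (Or.inl h3)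
        · exact List.mem_append.mpr (Or.inr (List.mem_cons_of_mem _ h3))
    obtain ⟨us1, hus1, hsub1, hY1⟩ := key
    obtain ⟨us', hus', hsub', hall⟩ := ih Y us1 hus1 hY1 hch' hfst' hlst' hE'
    refine ⟨us', hus', fun v hv => hsub' v (hsub1 v hv), ?_⟩
    intro Z hZ v hv
    rcases List.mem_cons.mp hZ with h | h
    · rw [h] at hv
      rcases hX v hv with h5 | h5
      · exact Or.inl h5
      · exact Or.inr (hsub' v (hsub1 v h5))
    · exact hall Z h v hv

theorem Hst.built66 {V : Type} {a z : V} {S S' : List V} {H : List (List V)}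
    (h : Hst a z S S' H) : ∃ us, Built (Ed H) (fun v => v ∈ S) us ∧
      ∀ v, Els H v → v ∈ S ∨ v ∈ us := by
  obtain ⟨H', hH'⟩ : ∃ H', H = S :: H' := by
    have := h.hd
    cases H with
    | nil => simp at this
    | cons X H' =>
      have hX : X = S := by simpa using this
      exact ⟨H', by rw [hX]⟩
  have hfst := h.fst
  have hlst := h.lst
  have hch := h.chain
  rw [hH'] at hfst hlst hch
  obtain ⟨us', hus', _, hall⟩ := built66_aux (Ed H) (fun v => v ∈ S) a z H' S [] Built.nil
    (fun v hv => Or.inl hv) hch hfst hlst
    (fun Y hY p q hpq => ⟨Y, by rw [hH']; exact hY, hpq⟩)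
  refine ⟨us', hus', ?_⟩
  rintro v ⟨Y, hY, hv⟩
  exact hall Y (by rw [← hH']; exact hY) v hv

end Pool.Agent.PageUnb
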