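/-
MP_a4f561_co, S10566: the drawing of a bar visibility graph.
-/
import Mathlib

set_option autoImplicit false

namespace Pool.Agent.PageUnb

/-- The horizontal coordinate of the edge from height `p` to height `q`, seen at time `τ`. -/
noncomputable def xco (p q bp bq τ y : ℝ) : ℝ :=
  τ - (τ - bp) * max 0 (1 - 3 * (y - p)) - (τ - bq) * max 0 (1 - 3 * (q - y))

theorem xco_cont (p q bp bq τ : ℝ) : Continuous (xco p q bp bq τ) := by
  unfold xco
  fun_prop

theorem xco_loc {p q : ℝ} (bp bq τ y : ℝ) (hpq : p + 1 ≤ q) :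
    (y < p + 1 / 3 ∧ xco p q bp bq τ y = bp + (τ - bp) * (3 * (y - p))) ∨
    (p + 1 / 3 ≤ y ∧ y ≤ q - 1 / 3 ∧ xco p q bp bq τ y = τ) ∨
    (q - 1 / 3 < y ∧ xco p q bp bq τ y = bq + (τ - bq) * (3 * (q - y))) := by
  unfold xco
  rcases lt_or_ge y (p + 1 / 3) with h | h
  · left
    refine ⟨h, ?_⟩
    rw [max_eq_right (by linarith : (0:ℝ) ≤ 1 - 3 * (y - p)),
      max_eq_left (by linarith : 1 - 3 * (q - y) ≤ (0:ℝ))]
    ring
  · right
    rcases le_or_gt y (q - 1 / 3) with h' | h'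
    · left
      refine ⟨h, h', ?_⟩
      rw [max_eq_left (by linarith : 1 - 3 * (y - p) ≤ (0:ℝ)),
        max_eq_left (by linarith : 1 - 3 * (q - y) ≤ (0:ℝ))]
      ring
    · right
      refine ⟨h', ?_⟩
      rw [max_eq_left (by linarith : 1 - 3 * (y - p) ≤ (0:ℝ)),
        max_eq_right (by linarith : (0:ℝ) ≤ 1 - 3 * (q - y))]
      ring

theorem drawing (n : ℕ) (G : Digraph (Fin n)) (A : ℕ → Fin n → Prop) (b : Fin n → ℕ)
    (hb : ∀ v, A (b v) v) (hb2 : ∀ v t, A t v → b v ≤ t)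
    (hconv : ∀ v i t, A t v → b v ≤ i → i ≤ t → A i v)
    (hadj : ∀ p q, G.Adj p q → ∃ t, A t p ∧ A t q ∧ p < q ∧ ∀ w, A t w → ¬ (p < w ∧ w < q)) :
    ∃ f : Fin n → ℝ × ℝ, Function.Injective f ∧
        ∃ γ : Fin n → Fin n → ℝ → ℝ × ℝ,
          (∀ u v, G.Adj u v →
            ContinuousOn (γ u v) (Set.Icc (0:ℝ) 1) ∧
            γ u v 0 = f u ∧ γ u v 1 = f v ∧
            StrictMonoOn (fun t => (γ u v t).2) (Set.Icc (0:ℝ) 1) ∧
            (∀ w, ∀ s ∈ Set.Ioo (0:ℝ) 1, γ u v s ≠ f w)) ∧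
          (∀ u v u' v', G.Adj u v → G.Adj u' v' → (u, v) ≠ (u', v') →
            ∀ s ∈ Set.Ioo (0:ℝ) 1, ∀ t ∈ Set.Icc (0:ℝ) 1,
              γ u v s ≠ γ u' v' t) := by
  classical
  choose! T hT1 hT2 hT3 hT4 using hadj
  -- heights
  have hlt : ∀ {p q : Fin n}, ((p.val : ℕ) : ℝ) < ((q.val : ℕ) : ℝ) → p < q := by
    intro p q h
    exact_mod_cast h
  have hone : ∀ {p q : Fin n}, p < q → ((p.val : ℕ) : ℝ) + 1 ≤ ((q.val : ℕ) : ℝ) := by
    intro p q h
    have : p.val + 1 ≤ q.val := h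
    exact_mod_cast this
  have hlt' : ∀ {p q : Fin n}, ((p.val : ℕ) : ℝ) < ((q.val : ℕ) : ℝ) + 1 → p ≤ q := by
    intro p q h
    have : p.val < q.val + 1 := by exact_mod_cast h
    exact Fin.le_def.2 (by omega)
  have hbT1 : ∀ {p q : Fin n}, G.Adj p q → ((b p : ℕ) : ℝ) ≤ ((T p q : ℕ) : ℝ) := by
    intro p q h
    exact_mod_cast hb2 p _ (hT1 p q h)
  have hbT2 : ∀ {p q : Fin n}, G.Adj p q → ((b q : ℕ) : ℝ) ≤ ((T p q : ℕ) : ℝ) := by
    intro p q h
    exact_mod_cast hb2 q _ (hT2 p q h)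
  -- an element whose bar is met at time `t`
  have halive : ∀ {w : Fin n} {i t : ℕ} , A t w → ((b w : ℕ) : ℝ) ≤ ((i : ℕ) : ℝ) →
      ((i : ℕ) : ℝ) ≤ ((t : ℕ) : ℝ) → A i w := by
    intro w i t h h1 h2
    exact hconv w i t h (by exact_mod_cast h1) (by exact_mod_cast h2)
  -- two edges never meet
  have key : ∀ {u v u' v' : Fin n}, G.Adj u v → G.Adj u' v' → (u, v) ≠ (u', v') →
      ∀ y : ℝ, ((u.val : ℕ) : ℝ) < y → y < ((v.val : ℕ) : ℝ) → ((u'.val : ℕ) : ℝ) ≤ y →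
      y ≤ ((v'.val : ℕ) : ℝ) →
      xco (u.val : ℕ) (v.val : ℕ) (b u : ℕ) (b v : ℕ) (T u v : ℕ) y ≠
        xco (u'.val : ℕ) (v'.val : ℕ) (b u' : ℕ) (b v' : ℕ) (T u' v' : ℕ) y := by
    intro u v u' v' h h' hne y hy1 hy2 hy1' hy2' hx
    have huv := hone (hT3 u v h)
    have huv' := hone (hT3 u' v' h')
    have b1 := hbT1 h
    have b2 := hbT2 h
    have b1' := hbT1 h'
    have b2' := hbT2 h'
    rcases xco_loc (b u : ℕ) (b v : ℕ) (T u v : ℕ) y huv with
      ⟨c1, c2⟩ | ⟨c1, c2, c3⟩ | ⟨c1, c2⟩ <;>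
    rcases xco_loc (b u' : ℕ) (b v' : ℕ) (T u' v' : ℕ) y huv' with
      ⟨d1, d2⟩ | ⟨d1, d2, d3⟩ | ⟨d1, d2⟩
    · -- lower, lower
      have e : u = u' := le_antisymm (hlt' (by linarith)) (hlt' (by linarith))
      subst e
      rw [c2, d2] at hx
      have hpos : (0:ℝ) < 3 * (y - ((u.val : ℕ) : ℝ)) := by linarith
      have ht : ((T u v : ℕ) : ℝ) = ((T u v' : ℕ) : ℝ) := by
        have := mul_right_cancel₀ hpos.ne' (add_left_cancel hx)
        linarith
      have ht' : T u v = T u v' := by exact_mod_cast ht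
      rcases lt_trichotomy v v' with hv | hv | hv
      · exact hT4 u v' h' v (ht' ▸ hT2 u v h) ⟨hT3 u v h, hv⟩
      · exact hne (by rw [hv])
      · exact hT4 u v h v' (ht' ▸ hT2 u v' h') ⟨hT3 u v' h', hv⟩
    · -- lower, middle
      rw [c2, d3] at hx
      have hz0 : (0:ℝ) ≤ 3 * (y - ((u.val : ℕ) : ℝ)) := by linarith
      have hz1 : 3 * (y - ((u.val : ℕ) : ℝ)) ≤ 1 := by linarith
      have k1 : ((b u : ℕ) : ℝ) ≤ ((T u' v' : ℕ) : ℝ) := by
        rw [← hx]; nlinarith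
      have k2 : ((T u' v' : ℕ) : ℝ) ≤ ((T u v : ℕ) : ℝ) := by
        rw [← hx]; nlinarith
      exact hT4 u' v' h' u (halive (hT1 u v h) k1 k2) ⟨hlt (by linarith), hlt (by linarith)⟩
    · -- lower, upper
      have e1 : u < v' := hlt (by linarith)
      have := hone e1
      linarith
    · -- middle, lower
      rw [c3, d2] at hx
      have hz0 : (0:ℝ) ≤ 3 * (y - ((u'.val : ℕ) : ℝ)) := by linarith
      have hz1 : 3 * (y - ((u'.val : ℕ) : ℝ)) ≤ 1 := by linarith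
      have k1 : ((b u' : ℕ) : ℝ) ≤ ((T u v : ℕ) : ℝ) := by
        rw [hx]; nlinarith
      have k2 : ((T u v : ℕ) : ℝ) ≤ ((T u' v' : ℕ) : ℝ) := by
        rw [hx]; nlinarith
      exact hT4 u v h u' (halive (hT1 u' v' h') k1 k2) ⟨hlt (by linarith), hlt (by linarith)⟩
    · -- middle, middle
      rw [c3, d3] at hx
      have ht' : T u v = T u' v' := by exact_mod_cast hx
      have e : u = u' := by
        rcases lt_trichotomy u u' with hv | hv | hv
        · exact absurd ⟨hv, hlt (by linarith)⟩ (hT4 u v h u' (ht' ▸ hT1 u' v' h'))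
        · exact hv
        · exact absurd ⟨hv, hlt (by linarith)⟩ (hT4 u' v' h' u (ht' ▸ hT1 u v h))
      have e' : v = v' := by
        rcases lt_trichotomy v v' with hv | hv | hv
        · exact absurd ⟨hlt (by linarith), hv⟩ (hT4 u' v' h' v (ht' ▸ hT2 u v h))
        · exact hv
        · exact absurd ⟨hlt (by linarith), hv⟩ (hT4 u v h v' (ht' ▸ hT2 u' v' h'))
      exact hne (by rw [e, e'])
    · -- middle, upper
      rw [c3, d2] at hx
      have hz0 : (0:ℝ) ≤ 3 * (((v'.val : ℕ) : ℝ) - y) := by linarith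
      have hz1 : 3 * (((v'.val : ℕ) : ℝ) - y) ≤ 1 := by linarith
      have k1 : ((b v' : ℕ) : ℝ) ≤ ((T u v : ℕ) : ℝ) := by
        rw [hx]; nlinarith
      have k2 : ((T u v : ℕ) : ℝ) ≤ ((T u' v' : ℕ) : ℝ) := by
        rw [hx]; nlinarith
      exact hT4 u v h v' (halive (hT2 u' v' h') k1 k2) ⟨hlt (by linarith), hlt (by linarith)⟩
    · -- upper, lower
      have e1 : u' < v := hlt (by linarith)
      have := hone e1
      linarith
    · -- upper, middle
      rw [c2, d3] at hx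
      have hz0 : (0:ℝ) ≤ 3 * (((v.val : ℕ) : ℝ) - y) := by linarith
      have hz1 : 3 * (((v.val : ℕ) : ℝ) - y) ≤ 1 := by linarith
      have k1 : ((b v : ℕ) : ℝ) ≤ ((T u' v' : ℕ) : ℝ) := by
        rw [← hx]; nlinarith
      have k2 : ((T u' v' : ℕ) : ℝ) ≤ ((T u v : ℕ) : ℝ) := by
        rw [← hx]; nlinarith
      exact hT4 u' v' h' v (halive (hT2 u v h) k1 k2) ⟨hlt (by linarith), hlt (by linarith)⟩
    · -- upper, upper
      have e : v = v' := le_antisymm (hlt' (by linarith)) (hlt' (by linarith))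
      subst e
      rw [c2, d2] at hx
      have hpos : (0:ℝ) < 3 * (((v.val : ℕ) : ℝ) - y) := by linarith
      have ht : ((T u v : ℕ) : ℝ) = ((T u' v : ℕ) : ℝ) := by
        have := mul_right_cancel₀ hpos.ne' (add_left_cancel hx)
        linarith
      have ht' : T u v = T u' v := by exact_mod_cast ht
      rcases lt_trichotomy u u' with hv | hv | hv
      · exact hT4 u v h u' (ht' ▸ hT1 u' v h') ⟨hv, hT3 u' v h'⟩
      · exact hne (by rw [hv])
      · exact hT4 u' v h' u (ht' ▸ hT1 u v h) ⟨hv, hT3 u v h⟩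
  -- an edge meets no vertex
  have key2 : ∀ {u v w : Fin n}, G.Adj u v → ∀ y : ℝ, ((u.val : ℕ) : ℝ) < y →
      y < ((v.val : ℕ) : ℝ) → y = ((w.val : ℕ) : ℝ) →
      xco (u.val : ℕ) (v.val : ℕ) (b u : ℕ) (b v : ℕ) (T u v : ℕ) y ≠ ((b w : ℕ) : ℝ) := by
    intro u v w h y hy1 hy2 hyw hx
    subst hyw
    have huv := hone (hT3 u v h)
    have e1 : u < w := hlt hy1
    have e2 : w < v := hlt hy2
    have f1 := hone e1
    have f2 := hone e2
    rcases xco_loc (b u : ℕ) (b v : ℕ) (T u v : ℕ) ((w.val : ℕ) : ℝ) huv with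
      ⟨c1, c2⟩ | ⟨c1, c2, c3⟩ | ⟨c1, c2⟩
    · linarith
    · rw [c3] at hx
      have ht' : T u v = b w := by exact_mod_cast hx
      exact hT4 u v h w (ht' ▸ hb w) ⟨e1, e2⟩
    · linarith
  refine ⟨fun v => (((b v : ℕ) : ℝ), ((v.val : ℕ) : ℝ)), ?_, fun u v t =>
    (xco (u.val : ℕ) (v.val : ℕ) (b u : ℕ) (b v : ℕ) (T u v : ℕ)
      (((u.val : ℕ) : ℝ) + t * (((v.val : ℕ) : ℝ) - ((u.val : ℕ) : ℝ))),
      ((u.val : ℕ) : ℝ) + t * (((v.val : ℕ) : ℝ) - ((u.val : ℕ) : ℝ))), ?_, ?_⟩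
  · intro p q h
    have h2 := congrArg Prod.snd h
    simp only at h2
    exact Fin.ext (by exact_mod_cast h2)
  · intro u v h
    have huv := hone (hT3 u v h)
    refine ⟨?_, ?_, ?_, ?_, ?_⟩
    · apply Continuous.continuousOn
      refine Continuous.prodMk ?_ ?_
      · exact (xco_cont _ _ _ _ _).comp (by fun_prop)
      · fun_prop
    · refine Prod.ext ?_ ?_
      · simp only [zero_mul, add_zero]
        rcases xco_loc (b u : ℕ) (b v : ℕ) (T u v : ℕ) ((u.val : ℕ) : ℝ) huv with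
          ⟨c1, c2⟩ | ⟨c1, c2, c3⟩ | ⟨c1, c2⟩
        · rw [c2]; ring
        · linarith
        · linarith
      · simp only [zero_mul, add_zero]
    · refine Prod.ext ?_ ?_
      · have hv : ((u.val : ℕ) : ℝ) + 1 * (((v.val : ℕ) : ℝ) - ((u.val : ℕ) : ℝ)) =
            ((v.val : ℕ) : ℝ) := by ring
        simp only [hv]
        rcases xco_loc (b u : ℕ) (b v : ℕ) (T u v : ℕ) ((v.val : ℕ) : ℝ) huv with
          ⟨c1, c2⟩ | ⟨c1, c2, c3⟩ | ⟨c1, c2⟩
        · linarith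
        · linarith
        · rw [c2]; ring
      · simp only; ring
    · intro s _ t _ hst
      simp only
      nlinarith
    · intro w s hs hw
      have h1 := congrArg Prod.fst hw
      have h2 := congrArg Prod.snd hw
      simp only at h1 h2
      refine key2 h _ ?_ ?_ h2 h1
      · nlinarith [hs.1]
      · nlinarith [hs.2]
  · intro u v u' v' h h' hne s hs t ht hw
    have huv := hone (hT3 u v h)
    have huv' := hone (hT3 u' v' h')
    have h1 := congrArg Prod.fst hw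
    have h2 := congrArg Prod.snd hw
    simp only at h1 h2
    rw [← h2] at h1
    refine key h h' hne _ ?_ ?_ ?_ ?_ h1
    · nlinarith [hs.1]
    · nlinarith [hs.2]
    · rw [h2]; nlinarith [ht.1]
    · rw [h2]; nlinarith [ht.2]

end Pool.Agent.PageUnb
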