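import Mathlib

set_option autoImplicit false

/-!
MP_a4f561_co (S10566), proof of helper94.  Finite Erdos - Szekeres lemma and greedy selection.
-/

namespace Pool.Agent.PageUnb

/-- Erdos - Szekeres for an injective function on a finite set of naturals. -/
theorem es66 (f : ℕ → ℕ) (s : ℕ) : ∀ (r : ℕ) (B : Finset ℕ), Set.InjOn f B → r * s < B.card →
    (∃ g : Fin (r + 1) → ℕ, StrictMono g ∧ (∀ i, g i ∈ B) ∧ StrictMono (fun i => f (g i))) ∨
    (∃ g : Fin (s + 1) → ℕ, StrictMono g ∧ (∀ i, g i ∈ B) ∧ StrictAnti (fun i => f (g i))) := by
  intro r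
  induction r with
  | zero =>
    intro B _ hc
    left
    have hpos : 0 < B.card := by omega
    obtain ⟨b, hb⟩ := Finset.card_pos.mp hpos
    refine ⟨fun _ => b, ?_, fun _ => hb, ?_⟩
    · intro i j hij; omega
    · intro i j hij; omega
  | succ r ih =>
    intro B hinj hc
    classical
    let M : Finset ℕ := B.filter (fun b => ∀ b' ∈ B, b < b' → f b' < f b)
    have hMB : M ⊆ B := Finset.filter_subset _ _
    by_cases hM : s < M.card
    · right
      have hle : s + 1 ≤ M.card := hM
      obtain ⟨M', hM'sub, hM'card⟩ := Finset.exists_subset_card_eq hle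
      refine ⟨fun i => M'.orderEmbOfFin hM'card i, ?_, ?_, ?_⟩
      · exact (M'.orderEmbOfFin hM'card).strictMono
      · intro i
        exact hMB (hM'sub (M'.orderEmbOfFin_mem hM'card i))
      · intro i j hij
        have h1 : M'.orderEmbOfFin hM'card i < M'.orderEmbOfFin hM'card j :=
          (M'.orderEmbOfFin hM'card).strictMono hij
        have h2 := hM'sub (M'.orderEmbOfFin_mem hM'card i)
        have h3 := hM'sub (M'.orderEmbOfFin_mem hM'card j)
        exact (Finset.mem_filter.mp h2).2 _ (hMB h3) h1
    · have hcard : r * s < (B \ M).card := by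
        have h1 : (B \ M).card = B.card - M.card := Finset.card_sdiff_of_subset hMB
        have h2 : (r + 1) * s = r * s + s := by ring
        omega
      have hinj' : Set.InjOn f (B \ M : Finset ℕ) := by
        intro x hx y hy hxy
        have hx' : x ∈ B := (Finset.mem_sdiff.mp (Finset.mem_coe.mp hx)).1
        have hy' : y ∈ B := (Finset.mem_sdiff.mp (Finset.mem_coe.mp hy)).1
        exact hinj (Finset.mem_coe.mpr hx') (Finset.mem_coe.mpr hy') hxy
      rcases ih (B \ M) hinj' hcard with ⟨g, hg1, hg2, hg3⟩ | ⟨g, hg1, hg2, hg3⟩
      · left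
        have hlast := Finset.mem_sdiff.mp (hg2 (Fin.last r))
        have hnot : ¬ (∀ b' ∈ B, g (Fin.last r) < b' → f b' < f (g (Fin.last r))) := by
          intro h
          exact hlast.2 (Finset.mem_filter.mpr ⟨hlast.1, h⟩)
        push Not at hnot
        obtain ⟨b', hb'B, hlt, hfle⟩ := hnot
        have hne : f (g (Fin.last r)) ≠ f b' := by
          intro h
          have := hinj (Finset.mem_coe.mpr hlast.1) (Finset.mem_coe.mpr hb'B) h
          omega
        have hflt : f (g (Fin.last r)) < f b' := lt_of_le_of_ne hfle hne
        refine ⟨Fin.snoc g b', ?_, ?_, ?_⟩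
        · rw [Fin.strictMono_iff_lt_succ]
          intro i
          rcases Fin.eq_castSucc_or_eq_last i.succ with ⟨j, hj⟩ | hj
          · have h1 : (Fin.snoc g b' : Fin (r + 1 + 1) → ℕ) i.castSucc = g i := Fin.snoc_castSucc _ _ _
            rw [h1, hj, Fin.snoc_castSucc]
            apply hg1
            have : (i.succ : Fin (r + 2)).val = j.castSucc.val := by rw [hj]
            simp at this
            exact Fin.lt_def.mpr (by omega)
          · have h1 : (Fin.snoc g b' : Fin (r + 1 + 1) → ℕ) i.castSucc = g i := Fin.snoc_castSucc _ _ _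
            rw [h1, hj, Fin.snoc_last]
            have : i = Fin.last r := by
              have h2 : (i.succ : Fin (r + 2)).val = (Fin.last (r + 1)).val := by rw [hj]
              simp at h2
              exact Fin.ext (by simp; omega)
            rw [this]; exact hlt
        · intro i
          rcases Fin.eq_castSucc_or_eq_last i with ⟨j, hj⟩ | hj
          · rw [hj, Fin.snoc_castSucc]
            exact (Finset.mem_sdiff.mp (hg2 j)).1
          · rw [hj, Fin.snoc_last]; exact hb'B
        · rw [Fin.strictMono_iff_lt_succ]
          intro i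
          rcases Fin.eq_castSucc_or_eq_last i.succ with ⟨j, hj⟩ | hj
          · have h1 : (Fin.snoc g b' : Fin (r + 1 + 1) → ℕ) i.castSucc = g i := Fin.snoc_castSucc _ _ _
            simp only [h1, hj, Fin.snoc_castSucc]
            apply hg3
            have : (i.succ : Fin (r + 2)).val = j.castSucc.val := by rw [hj]
            simp at this
            exact Fin.lt_def.mpr (by omega)
          · have h1 : (Fin.snoc g b' : Fin (r + 1 + 1) → ℕ) i.castSucc = g i := Fin.snoc_castSucc _ _ _
            simp only [h1, hj, Fin.snoc_last]
            have : i = Fin.last r := by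
              have h2 : (i.succ : Fin (r + 2)).val = (Fin.last (r + 1)).val := by rw [hj]
              simp at h2
              exact Fin.ext (by simp; omega)
            rw [this]; exact hflt
      · right
        exact ⟨g, hg1, fun i => (Finset.mem_sdiff.mp (hg2 i)).1, hg3⟩

/-- Greedy selection: if every `a` has fewer than `D` later bad partners, a `D`-th part of `J`
is free of bad pairs. -/
theorem greedy66 (D : ℕ) (bad : ℕ → ℕ → Prop) : ∀ (N : ℕ) (J : Finset ℕ), J.card = N →
    (∀ a ∈ J, ∀ B : Finset ℕ, B ⊆ J → (∀ b ∈ B, a < b ∧ bad a b) → B.card < D) →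
    ∃ J' : Finset ℕ, J' ⊆ J ∧ J.card ≤ D * J'.card ∧ ∀ a ∈ J', ∀ b ∈ J', a < b → ¬ bad a b := by
  classical
  intro N
  induction N using Nat.strong_induction_on with
  | _ N ih =>
    intro J hJ hD
    rcases J.eq_empty_or_nonempty with h0 | hne
    · subst h0
      exact ⟨∅, le_refl _, by simp, by simp⟩
    · let a := J.min' hne
      have haJ : a ∈ J := J.min'_mem hne
      let B : Finset ℕ := J.filter (fun b => a < b ∧ bad a b)
      have hBJ : B ⊆ J := Finset.filter_subset _ _
      have hBD : B.card < D := hD a haJ B hBJ (fun b hb => (Finset.mem_filter.mp hb).2)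
      let J1 : Finset ℕ := (J.erase a) \ B
      have hJ1 : J1 ⊆ J := fun x hx =>
        Finset.mem_of_mem_erase (Finset.mem_sdiff.mp hx).1
      have hc1 : J.card ≤ D + J1.card := by
        have h1 : (J.erase a).card = J.card - 1 := Finset.card_erase_of_mem haJ
        have h2 : (J.erase a).card ≤ J1.card + B.card := by
          have h5 := Finset.le_card_sdiff B (J.erase a)
          change _ ≤ J1.card at h5
          omega
        omega
      have hc2 : J1.card < N := by
        have h1 : J1 ⊆ J.erase a := Finset.sdiff_subset
        have h2 := Finset.card_le_card h1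
        have h3 : (J.erase a).card = J.card - 1 := Finset.card_erase_of_mem haJ
        have h4 : 0 < J.card := Finset.card_pos.mpr hne
        omega
      obtain ⟨J', hJ'1, hJ'2, hJ'3⟩ := ih J1.card hc2 J1 rfl
        (fun a' ha' B' hB' h => hD a' (hJ1 ha') B' (hB'.trans hJ1) h)
      have haJ' : a ∉ J' := by
        intro h
        have h1 := (Finset.mem_sdiff.mp (hJ'1 h)).1
        exact (Finset.notMem_erase a J) h1
      refine ⟨insert a J', ?_, ?_, ?_⟩
      · intro x hx
        rcases Finset.mem_insert.mp hx with h | h
        · rw [h]; exact haJ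
        · exact hJ1 (hJ'1 h)
      · rw [Finset.card_insert_of_notMem haJ']
        have : D * (J'.card + 1) = D * J'.card + D := by ring
        omega
      · intro x hx y hy hxy
        rcases Finset.mem_insert.mp hx with h | h
        · rcases Finset.mem_insert.mp hy with h' | h'
          · omega
          · intro hb
            have h1 := (Finset.mem_sdiff.mp (hJ'1 h')).2
            apply h1
            apply Finset.mem_filter.mpr
            exact ⟨hJ1 (hJ'1 h'), by rw [h] at hxy; exact hxy, by rw [h] at hb; exact hb⟩
        · rcases Finset.mem_insert.mp hy with h' | h'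
          · have h1 : a ≤ x := J.min'_le x (hJ1 (hJ'1 h))
            omega
          · exact hJ'3 x h y h' hxy

end Pool.Agent.PageUnb
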