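/-
MP_a4f561_co, S10566: assembly. A history has a drawing (master list as heights, times as abscissas),
a book embedding with `k` pages gives an order without `(k+1)`-twist.
-/
import Pool.Agent.PageUnb.Basic
import Pool.Agent.PageUnb.Draw

set_option autoImplicit false

namespace Pool.Agent.PageUnb

/-- The statement of `Hst.master`. -/
def MasterSt : Prop := ∀ (V : Type) (a z : V) (S S' : List V) (H : List (List V)),
  Hst a z S S' H → ∃ M : List V, M.Nodup ∧ (∀ X ∈ H, X.Sublist M) ∧ ∀ v ∈ M, Els H v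

/-- The conclusion of `drawing`. -/
def HasDraw (n : ℕ) (G : Digraph (Fin n)) : Prop :=
  ∃ f : Fin n → ℝ × ℝ, Function.Injective f ∧
        ∃ γ : Fin n → Fin n → ℝ → ℝ × ℝ,
          (∀ u v, G.Adj u v →
            ContinuousOn (γ u v) (Set.Icc (0:ℝ) 1) ∧
            γ u v 0 = f u ∧ γ u v 1 = f v ∧
            StrictMonoOn (fun t => (γ u v t).2) (Set.Icc (0:ℝ) 1) ∧
            (∀ w, ∀ s ∈ Set.Ioo (0:ℝ) 1, γ u v s ≠ f w)) ∧
          (∀ u v u' v', G.Adj u v → G.Adj u' v' → (u, v) ≠ (u', v') →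
            ∀ s ∈ Set.Ioo (0:ℝ) 1, ∀ t ∈ Set.Icc (0:ℝ) 1,
              γ u v s ≠ γ u' v' t)

theorem Hst.hasDraw {V : Type} {a z : V} {S S' : List V} {H : List (List V)}
    (h : Hst a z S S' H) (M : List V) (hnd : M.Nodup) (hsub : ∀ X ∈ H, X.Sublist M)
    (hM : ∀ v ∈ M, Els H v) :
    HasDraw M.length ⟨fun i j => Ed H (M.get i) (M.get j)⟩ := by
  classical
  -- order of positions
  let R : V → V → Prop := fun x y => ∀ i j : Fin M.length, M.get i = x → M.get j = y → i < j
  have hinj : Function.Injective M.get := List.nodup_iff_injective_get.1 hnd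
  have hR : M.Pairwise R := by
    rw [List.pairwise_iff_getElem]
    intro i j hi hj hij i' j' h1 h2
    have e1 : i' = ⟨i, hi⟩ := hinj h1
    have e2 : j' = ⟨j, hj⟩ := hinj h2
    rw [e1, e2]
    exact hij
  have hex : ∀ v : Fin M.length, ∃ t, ∃ ht : t < H.length, M.get v ∈ H[t] := by
    intro v
    obtain ⟨X, hX, hv⟩ := hM (M.get v) (List.get_mem M v)
    obtain ⟨t, ht, rfl⟩ := List.getElem_of_mem hX
    exact ⟨t, ht, hv⟩
  refine drawing M.length _ (fun t v => ∃ ht : t < H.length, M.get v ∈ H[t])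
    (fun v => Nat.find (hex v)) (fun v => Nat.find_spec (hex v))
    (fun v t ht => Nat.find_min' (hex v) ht) ?_ ?_
  · intro v i t ⟨ht, hv⟩ h1 h2
    obtain ⟨hb, hbv⟩ := Nat.find_spec (hex v)
    exact ⟨lt_of_le_of_lt h2 ht, h.conv (M.get v) _ i t h1 h2 ht hbv hv⟩
  · rintro p q ⟨X, hX, hpq⟩
    have hXs : X.Pairwise R := hR.sublist (hsub X hX)
    obtain ⟨t, ht, htX⟩ := List.getElem_of_mem hX
    obtain ⟨s, s', hs⟩ := hpq
    have hpX : M.get p ∈ X := by rw [← hs]; simp
    have hqX : M.get q ∈ X := by rw [← hs]; simp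
    rw [← hs, List.append_assoc, List.pairwise_append, List.pairwise_append] at hXs
    obtain ⟨-, ⟨hPQ, -, hPt⟩, hsP⟩ := hXs
    refine ⟨t, ⟨ht, htX ▸ hpX⟩, ⟨ht, htX ▸ hqX⟩, ?_, ?_⟩
    · have := (List.pairwise_cons.1 hPQ).1 (M.get q) (by simp)
      exact this p q rfl rfl
    · rintro w ⟨_, hw⟩ ⟨hpw, hwq⟩
      rw [htX, ← hs] at hw
      rw [List.append_assoc] at hw
      rcases List.mem_append.1 hw with hw | hw
      · have := hsP _ hw (M.get p) (by simp)
        exact absurd (this w p rfl rfl) (not_lt.2 hpw.le)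
      · rcases List.mem_append.1 hw with hw | hw
        · simp only [List.mem_cons, List.not_mem_nil, or_false] at hw
          rcases hw with hw | hw
          · exact absurd (hinj hw) hpw.ne'
          · exact absurd (hinj hw) hwq.ne
        · have := hPt (M.get q) (by simp) _ hw
          exact absurd (this q w rfl rfl) (not_lt.2 hwq.le)

theorem Hst.good_of_book {V : Type} {a z : V} {S S' : List V} {H : List (List V)}
    (_h : Hst a z S S' H) (M : List V) (hnd : M.Nodup) (hsub : ∀ X ∈ H, X.Sublist M) (k : ℕ)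
    (σ : Fin M.length ≃ Fin M.length) (p : Fin M.length → Fin M.length → Fin k)
    (h1 : ∀ u v, Ed H (M.get u) (M.get v) → σ u < σ v)
    (h2 : ∀ a b c d, Ed H (M.get a) (M.get b) → Ed H (M.get c) (M.get d) → p a b = p c d →
          ¬ (σ a < σ c ∧ σ c < σ b ∧ σ b < σ d)) :
    ∃ ord : V → ℕ, Good (k + 1) H ord := by
  classical
  have hinj : Function.Injective M.get := List.nodup_iff_injective_get.1 hnd
  have hex : ∀ v, Els H v → ∃ i, M.get i = v := by
    rintro v ⟨X, hX, hv⟩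
    exact List.mem_iff_get.1 ((hsub X hX).subset hv)
  let ord : V → ℕ := fun v => if hv : ∃ i, M.get i = v then (σ (Classical.choose hv)).val else 0
  have hord : ∀ i, ord (M.get i) = (σ i).val := by
    intro i
    have hv : ∃ j, M.get j = M.get i := ⟨i, rfl⟩
    have e : Classical.choose hv = i := hinj (Classical.choose_spec hv)
    simp only [ord, dif_pos hv, e]
  let g : V × V → Option (Fin k) := fun e =>
    if h : (∃ i, M.get i = e.1) ∧ (∃ j, M.get j = e.2) then
      some (p (Classical.choose h.1) (Classical.choose h.2)) else none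
  have hg : ∀ i j, g (M.get i, M.get j) = some (p i j) := by
    intro i j
    have hv : (∃ i', M.get i' = M.get i) ∧ (∃ j', M.get j' = M.get j) := ⟨⟨i, rfl⟩, ⟨j, rfl⟩⟩
    have e1 : Classical.choose hv.1 = i := hinj (Classical.choose_spec hv.1)
    have e2 : Classical.choose hv.2 = j := hinj (Classical.choose_spec hv.2)
    simp only [g]
    rw [dif_pos hv]
    rw [e1, e2]
  refine ⟨ord, ?_, ?_, ?_⟩
  · intro x y hxy
    obtain ⟨i, rfl⟩ := hex x hxy.fst
    obtain ⟨j, rfl⟩ := hex y hxy.snd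
    rw [hord, hord]
    exact h1 i j hxy
  · intro x y hx hy hxy
    obtain ⟨i, rfl⟩ := hex x hx
    obtain ⟨j, rfl⟩ := hex y hy
    rw [hord, hord] at hxy
    rw [σ.injective (Fin.ext hxy)]
  · rintro T ⟨hT1, hT2, hT3⟩
    have hnone : none ∉ T.map g := by
      intro hn
      obtain ⟨e, he, hge⟩ := List.mem_map.1 hn
      obtain ⟨x, y⟩ := e
      have hE := hT2 _ he
      obtain ⟨i, rfl⟩ := hex x hE.fst
      obtain ⟨j, rfl⟩ := hex y hE.snd
      rw [hg] at hge
      exact absurd hge (by simp)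
    have hnod : (T.map g).Nodup := by
      rw [List.Nodup, List.pairwise_map]
      refine hT1.imp_of_mem ?_
      intro e f he hf hef hgg
      have hE := hT2 _ he
      have hF := hT2 _ hf
      have h3 := hT3 f hf e he
      obtain ⟨x, y⟩ := e
      obtain ⟨x', y'⟩ := f
      obtain ⟨i, rfl⟩ := hex x hE.fst
      obtain ⟨j, rfl⟩ := hex y hE.snd
      obtain ⟨i', rfl⟩ := hex x' hF.fst
      obtain ⟨j', rfl⟩ := hex y' hF.snd
      rw [hg, hg] at hgg
      simp only [hord] at hef h3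
      exact h2 i j i' j' hE hF (Option.some.inj hgg) ⟨hef.1, h3, hef.2⟩
    have hlen : (none :: T.map g).Nodup := List.nodup_cons.2 ⟨hnone, hnod⟩
    have := hlen.length_le_card
    simp only [List.length_cons, List.length_map, Fintype.card_option, Fintype.card_fin] at this
    omega

/-- The page number is unbounded if `Strong K K` holds for every `K`. -/
theorem not_bounded33 (hm : MasterSt) (hs : ∀ K, Strong K K) :
    ¬ (∃ k : ℕ, ∀ (n : ℕ) (G : Digraph (Fin n)),
      (∃ f : Fin n → ℝ × ℝ, Function.Injective f ∧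
        ∃ γ : Fin n → Fin n → ℝ → ℝ × ℝ,
          (∀ u v, G.Adj u v →
            ContinuousOn (γ u v) (Set.Icc (0:ℝ) 1) ∧
            γ u v 0 = f u ∧ γ u v 1 = f v ∧
            StrictMonoOn (fun t => (γ u v t).2) (Set.Icc (0:ℝ) 1) ∧
            (∀ w, ∀ s ∈ Set.Ioo (0:ℝ) 1, γ u v s ≠ f w)) ∧
          (∀ u v u' v', G.Adj u v → G.Adj u' v' → (u, v) ≠ (u', v') →
            ∀ s ∈ Set.Ioo (0:ℝ) 1, ∀ t ∈ Set.Icc (0:ℝ) 1,
              γ u v s ≠ γ u' v' t)) →
      ∃ σ : Fin n ≃ Fin n, ∃ p : Fin n → Fin n → Fin k,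
        (∀ u v, G.Adj u v → σ u < σ v) ∧
        (∀ a b c d, G.Adj a b → G.Adj c d → p a b = p c d →
          ¬ (σ a < σ c ∧ σ c < σ b ∧ σ b < σ d))) := by
  rintro ⟨k, hk⟩
  obtain ⟨w, M, H, hgad, hT⟩ := hs (k + 1)
  obtain ⟨Ms, hnd, hsub, hM⟩ := hm _ _ _ _ _ _ hgad.hst
  obtain ⟨σ, p, h1, h2⟩ := hk Ms.length ⟨fun i j => Ed H (Ms.get i) (Ms.get j)⟩
    (hgad.hst.hasDraw Ms hnd hsub hM)
  obtain ⟨ord, hG⟩ := hgad.hst.good_of_book Ms hnd hsub k σ p h1 h2
  obtain ⟨T, hT1, hT2, -⟩ := hT ord hG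
  have := hG.tw T hT1
  omega

end Pool.Agent.PageUnb
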