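/-
MP_a4f561_co, S10566: histories, trivial, reversed and consecutive ones.
-/
import Pool.Agent.PageUnb.Basic

set_option autoImplicit false

namespace Pool.Agent.PageUnb

variable {V : Type}

theorem Hst.mem_fst {a z : V} {S S' : List V} {H : List (List V)} (h : Hst a z S S' H) :
    S ∈ H := List.mem_of_head? h.hd

theorem Hst.mem_lst {a z : V} {S S' : List V} {H : List (List V)} (h : Hst a z S S' H) :
    S' ∈ H := List.mem_of_getLast? h.lt

theorem Hst.refl {a z : V} {S : List V} (h1 : S.head? = some a) (h2 : S.getLast? = some z)
    (h3 : S.Nodup) : Hst a z S S [S] where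
  hd := rfl
  lt := rfl
  fst := by intro X hX; rw [List.mem_singleton.1 hX]; exact h1
  lst := by intro X hX; rw [List.mem_singleton.1 hX]; exact h2
  nodup := by intro X hX; rw [List.mem_singleton.1 hX]; exact h3
  chain := List.isChain_singleton _
  conv := by
    intro v i j k hij hjk hk h _
    have hk' : k = 0 := by simpa using hk
    subst hk'
    have hj' : j = 0 := by omega
    subst hj'
    have hi' : i = 0 := by omega
    subst hi'
    exact h

theorem Step.symm {S S' : List V} (h : Step S S') : Step S' S := by
  rcases h with h | h | h
  · exact Or.inl h.symm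
  · exact Or.inr (Or.inr h)
  · exact Or.inr (Or.inl h)

theorem Hst.symm {a z : V} {S S' : List V} {H : List (List V)} (h : Hst a z S S' H) :
    Hst a z S' S H.reverse where
  hd := by rw [List.head?_reverse]; exact h.lt
  lt := by rw [List.getLast?_reverse]; exact h.hd
  fst := fun X hX => h.fst X (List.mem_reverse.1 hX)
  lst := fun X hX => h.lst X (List.mem_reverse.1 hX)
  nodup := fun X hX => h.nodup X (List.mem_reverse.1 hX)
  chain := by
    rw [List.isChain_reverse]
    exact h.chain.imp fun _ _ hs => hs.symm
  conv := by
    intro v i j k hij hjk hk h1 h2
    rw [List.length_reverse] at hk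
    rw [List.getElem_reverse] at h1 h2 ⊢
    exact h.conv v (H.length - 1 - k) (H.length - 1 - j) (H.length - 1 - i) (by omega) (by omega)
      (by omega) h2 h1

theorem Hst.trans {a z : V} {S S' S'' : List V} {H H' : List (List V)} (h : Hst a z S S' H)
    (h' : Hst a z S' S'' H') (hc : ∀ v, Els H v → Els H' v → v ∈ S') :
    Hst a z S S'' (H ++ H') where
  hd := by rw [List.head?_append, h.hd]; rfl
  lt := by rw [List.getLast?_append, h'.lt]; rfl
  fst := by
    intro X hX
    rcases List.mem_append.1 hX with hX | hX
    exacts [h.fst X hX, h'.fst X hX]
  lst := by
    intro X hX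
    rcases List.mem_append.1 hX with hX | hX
    exacts [h.lst X hX, h'.lst X hX]
  nodup := by
    intro X hX
    rcases List.mem_append.1 hX with hX | hX
    exacts [h.nodup X hX, h'.nodup X hX]
  chain := by
    rw [List.isChain_append]
    refine ⟨h.chain, h'.chain, ?_⟩
    intro x hx y hy
    rw [h.lt, Option.mem_some_iff] at hx
    rw [h'.hd, Option.mem_some_iff] at hy
    subst hx
    subst hy
    exact Or.inl rfl
  conv := by
    have hne : H ≠ [] := by
      rintro rfl
      simpa using h.hd
    have hne' : H' ≠ [] := by
      rintro rfl
      simpa using h'.hd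
    have hpos : 0 < H.length := List.length_pos_iff.2 hne
    have hpos' : 0 < H'.length := List.length_pos_iff.2 hne'
    have hl : H[H.length - 1] = S' := by
      have := h.lt
      rw [List.getLast?_eq_getElem?, List.getElem?_eq_getElem (by omega)] at this
      exact Option.some.inj this
    have hf : H'[0] = S' := by
      have := h'.hd
      rw [List.head?_eq_getElem?, List.getElem?_eq_getElem hpos'] at this
      exact Option.some.inj this
    intro v i j k hij hjk hk h1 h2
    rw [List.length_append] at hk
    rcases lt_or_ge k H.length with hkN | hkN
    · rw [List.getElem_append_left (by omega)] at h1 h2 ⊢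
      exact h.conv v i j k hij hjk hkN h1 h2
    · rw [List.getElem_append_right hkN] at h2
      rcases lt_or_ge i H.length with hiN | hiN
      · rw [List.getElem_append_left hiN] at h1
        have hv : v ∈ S' := hc v ⟨_, List.getElem_mem _, h1⟩ ⟨_, List.getElem_mem _, h2⟩
        rcases lt_or_ge j H.length with hjN | hjN
        · rw [List.getElem_append_left hjN]
          refine h.conv v i j (H.length - 1) hij (by omega) (by omega) h1 ?_
          rw [hl]
          exact hv
        · rw [List.getElem_append_right hjN]
          refine h'.conv v 0 (j - H.length) (k - H.length) (by omega) (by omega) (by omega) ?_ h2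
          rw [hf]
          exact hv
      · rw [List.getElem_append_right hiN] at h1
        rw [List.getElem_append_right (by omega)]
        exact h'.conv v (i - H.length) (j - H.length) (k - H.length) (by omega) (by omega)
          (by omega) h1 h2

end Pool.Agent.PageUnb
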