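/-
MP_a4f561_co, S10566: frame and block (part A of the blueprint).
-/
import Pool.Agent.PageUnb.Basic

set_option autoImplicit false

namespace Pool.Agent.PageUnb

variable {V : Type}

theorem Step.frame {V' : Type} {S S' : List V} (h : Step S S') (f : V → V') (A B : List V') :
    Step (A ++ S.map f ++ B) (A ++ S'.map f ++ B) := by
  have key : ∀ S S' : List V, Ins S S' →
      Ins (A ++ S.map f ++ B) (A ++ S'.map f ++ B) := by
    rintro S S' ⟨X, u, Y, rfl, rfl⟩
    exact ⟨A ++ X.map f, f u, Y.map f ++ B, by simp, by simp⟩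
  rcases h with h | h | h
  · exact Or.inl (by rw [h])
  · exact Or.inr (Or.inl (key _ _ h))
  · exact Or.inr (Or.inr (key _ _ h))

theorem Hst.frame {V' : Type} {a z : V} {S S' : List V} {H : List (List V)} (h : Hst a z S S' H)
    (f : V → V') (A B : List V') (hinj : ∀ p q, Els H p → Els H q → f p = f q → p = q)
    (hA : A.Nodup) (hB : B.Nodup) (hAB : ∀ x ∈ A, x ∉ B) (hfA : ∀ p, Els H p → f p ∉ A)
    (hfB : ∀ p, Els H p → f p ∉ B) (a' z' : V') (ha : (A ++ [f a]).head? = some a')
    (hz : (f z :: B).getLast? = some z') :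
    Hst a' z' (A ++ S.map f ++ B) (A ++ S'.map f ++ B) (H.map (fun X => A ++ X.map f ++ B)) := by
  refine ⟨?_, ?_, ?_, ?_, ?_, ?_, ?_⟩
  · rw [List.head?_map, h.hd]; rfl
  · rw [List.getLast?_map, h.lt]; rfl
  · intro X hX
    obtain ⟨Y, hY, rfl⟩ := List.mem_map.1 hX
    have h1 := h.fst Y hY
    obtain ⟨t, rfl⟩ : ∃ t, Y = a :: t := by
      cases Y with
      | nil => simp at h1
      | cons y t =>
        simp only [List.head?_cons, Option.some.injEq] at h1
        exact ⟨t, by rw [h1]⟩
    have e : A ++ (a :: t).map f ++ B = (A ++ [f a]) ++ (t.map f ++ B) := by simp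
    rw [e, List.head?_append, ha]; rfl
  · intro X hX
    obtain ⟨Y, hY, rfl⟩ := List.mem_map.1 hX
    have h1 := h.lst Y hY
    obtain ⟨t, rfl⟩ : ∃ t, Y = t ++ [z] := by
      rcases List.eq_nil_or_concat Y with h2 | ⟨t, y, h2⟩
      · rw [h2] at h1; simp at h1
      · rw [h2] at h1
        simp only [List.concat_eq_append, List.getLast?_append, List.getLast?_singleton,
          Option.some_or, Option.some.injEq] at h1
        exact ⟨t, by rw [h2, h1]; simp⟩
    have e : A ++ (t ++ [z]).map f ++ B = (A ++ t.map f) ++ (f z :: B) := by simp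
    rw [e, List.getLast?_append, hz]; rfl
  · intro X hX
    obtain ⟨Y, hY, rfl⟩ := List.mem_map.1 hX
    have hm : (Y.map f).Nodup := List.Nodup.map_on
      (fun p hp q hq e => hinj p q ⟨Y, hY, hp⟩ ⟨Y, hY, hq⟩ e) (h.nodup Y hY)
    have h1 : (A ++ Y.map f).Nodup := by
      refine List.nodup_append.2 ⟨hA, hm, ?_⟩
      intro x hx y hy e
      obtain ⟨p, hp, rfl⟩ := List.mem_map.1 hy
      exact hfA p ⟨Y, hY, hp⟩ (e ▸ hx)
    refine List.nodup_append.2 ⟨h1, hB, ?_⟩
    intro x hx y hy e
    subst e
    rcases List.mem_append.1 hx with h2 | h2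
    · exact hAB x h2 hy
    · obtain ⟨p, hp, rfl⟩ := List.mem_map.1 h2
      exact hfB p ⟨Y, hY, hp⟩ hy
  · rw [List.isChain_map]
    exact h.chain.imp fun X Y hXY => hXY.frame f A B
  · intro v i j k hij hjk hk hi hk'
    have hlen : (H.map (fun X => A ++ X.map f ++ B)).length = H.length := List.length_map _
    have hk2 : k < H.length := by rw [← hlen]; exact hk
    rw [List.getElem_map] at hi hk' ⊢
    have mem : ∀ X : List V, v ∈ A ++ X.map f ++ B ↔ v ∈ A ∨ v ∈ X.map f ∨ v ∈ B := by
      intro X
      rw [List.mem_append, List.mem_append, or_assoc]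
    rw [mem] at hi hk' ⊢
    rcases hi with hi | hi | hi
    · exact Or.inl hi
    · rcases hk' with h2 | h2 | h2
      · exact Or.inl h2
      · obtain ⟨p, hp, rfl⟩ := List.mem_map.1 hi
        obtain ⟨q, hq, e⟩ := List.mem_map.1 h2
        have hpq : q = p := hinj q p ⟨_, List.getElem_mem _, hq⟩ ⟨_, List.getElem_mem _, hp⟩ e
        subst hpq
        exact Or.inr (Or.inl (List.mem_map.2 ⟨q, h.conv q i j k hij hjk hk2 hp hq, rfl⟩))
      · exact Or.inr (Or.inr h2)
    · exact Or.inr (Or.inr hi)

/-- A deletion in front of a history. -/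
theorem Hst.delCons {a z : V} {X Y S' : List V} {d : V} {H : List (List V)}
    (h : Hst a z (X ++ Y) S' H) (hd : ¬ Els H d) (hn : (X ++ d :: Y).Nodup)
    (ha : (X ++ d :: Y).head? = some a) (hz : (X ++ d :: Y).getLast? = some z) :
    Hst a z (X ++ d :: Y) S' ((X ++ d :: Y) :: H) := by
  obtain ⟨S0, H0, rfl⟩ : ∃ S0 H0, H = S0 :: H0 := by
    cases H with
    | nil => have := h.hd; simp at this
    | cons S0 H0 => exact ⟨S0, H0, rfl⟩
  have h0 : S0 = X ++ Y := by
    have := h.hd
    simpa using this
  refine ⟨rfl, ?_, ?_, ?_, ?_, ?_, ?_⟩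
  · rw [List.getLast?_cons_cons]
    exact h.lt
  · intro Z hZ
    rcases List.mem_cons.1 hZ with h1 | h1
    · rw [h1]; exact ha
    · exact h.fst Z h1
  · intro Z hZ
    rcases List.mem_cons.1 hZ with h1 | h1
    · rw [h1]; exact hz
    · exact h.lst Z h1
  · intro Z hZ
    rcases List.mem_cons.1 hZ with h1 | h1
    · rw [h1]; exact hn
    · exact h.nodup Z h1
  · refine List.IsChain.cons_cons ?_ h.chain
    exact Or.inr (Or.inr ⟨X, d, Y, h0, rfl⟩)
  · intro v i j k hij hjk hk hi hk'
    rcases Nat.eq_zero_or_pos k with h1 | h1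
    · subst h1
      have : j = 0 := by omega
      subst this
      exact hk'
    · obtain ⟨k, rfl⟩ : ∃ m, k = m + 1 := ⟨k - 1, by omega⟩
      have hk2 : k < (S0 :: H0).length := by
        simpa using hk
      rw [List.getElem_cons_succ] at hk'
      have hvk : Els (S0 :: H0) v := ⟨_, List.getElem_mem _, hk'⟩
      rcases Nat.eq_zero_or_pos j with h2 | h2
      · subst h2
        have : i = 0 := by omega
        subst this
        exact hi
      · obtain ⟨j, rfl⟩ : ∃ m, j = m + 1 := ⟨j - 1, by omega⟩
        rw [List.getElem_cons_succ]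
        rcases Nat.eq_zero_or_pos i with h3 | h3
        · subst h3
          rw [List.getElem_cons_zero] at hi
          have hvd : v ≠ d := by
            rintro rfl
            exact hd hvk
          have hv0 : v ∈ (S0 :: H0)[0] := by
            rw [List.getElem_cons_zero, h0]
            simp only [List.mem_append, List.mem_cons] at hi ⊢
            rcases hi with h4 | h4 | h4
            · exact Or.inl h4
            · exact absurd h4 hvd
            · exact Or.inr h4
          exact h.conv v 0 j k (Nat.zero_le _) (by omega) hk2 hv0 hk'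
        · obtain ⟨i, rfl⟩ : ∃ m, i = m + 1 := ⟨i - 1, by omega⟩
          rw [List.getElem_cons_succ] at hi
          exact h.conv v i j k (by omega) (by omega) hk2 hi hk'

/-- Deletion of a block, one element after the other. -/
theorem Hst.block {a z : V} (X D Y : List V) (hn : (X ++ D ++ Y).Nodup) (ha : X.head? = some a)
    (hz : Y.getLast? = some z) : ∃ H, Hst a z (X ++ D ++ Y) (X ++ Y) H ∧
      ∀ v, Els H v → v ∈ X ++ D ++ Y := by
  induction D with
  | nil =>
    have e : X ++ [] ++ Y = X ++ Y := by simp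
    refine ⟨[X ++ Y], ?_, ?_⟩
    · refine ⟨by rw [e]; rfl, rfl, ?_, ?_, ?_, List.isChain_singleton _, ?_⟩
      · intro Z hZ
        rw [List.mem_singleton.1 hZ, List.head?_append, ha]; rfl
      · intro Z hZ
        rw [List.mem_singleton.1 hZ, List.getLast?_append, hz]; rfl
      · intro Z hZ
        rw [List.mem_singleton.1 hZ, ← e]
        exact hn
      · intro v i j k hij hjk hk hi hk'
        have hk1 : k = 0 := by simpa using hk
        subst hk1
        have : j = 0 := by omega
        subst this
        exact hk'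
    · rintro v ⟨Z, hZ, hv⟩
      rw [List.mem_singleton.1 hZ] at hv
      rw [e]
      exact hv
  | cons d D ih =>
    have e : X ++ d :: D ++ Y = X ++ d :: (D ++ Y) := by simp
    have hn2 : (X ++ d :: (D ++ Y)).Nodup := by rw [← e]; exact hn
    have hsub : (X ++ D ++ Y).Sublist (X ++ d :: (D ++ Y)) := by
      rw [List.append_assoc]
      exact (List.sublist_cons_self d (D ++ Y)).append_left X
    obtain ⟨H, hH, hel⟩ := ih (hn2.sublist hsub)
    have hdn : d ∉ X ++ D ++ Y := by
      intro hd
      have h1 := List.nodup_middle.1 hn2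
      rw [List.nodup_cons] at h1
      exact h1.1 (by rw [List.append_assoc] at hd; exact hd)
    refine ⟨(X ++ d :: (D ++ Y)) :: H, ?_, ?_⟩
    · rw [e]
      refine Hst.delCons (X := X) (Y := D ++ Y) ?_ (fun h => hdn (hel d h)) hn2 ?_ ?_
      · rw [← List.append_assoc]; exact hH
      · rw [List.head?_append, ha]; rfl
      · have e2 : X ++ d :: (D ++ Y) = (X ++ d :: D) ++ Y := by simp
        rw [e2, List.getLast?_append, hz]; rfl
    · rintro v ⟨Z, hZ, hv⟩
      rcases List.mem_cons.1 hZ with h1 | h1
      · rw [h1] at hv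
        rw [e]
        exact hv
      · rw [e]
        exact hsub.subset (hel v ⟨Z, h1, hv⟩)

end Pool.Agent.PageUnb
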