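import Pool.Agent.PageUnb.LemG1
import Pool.Agent.PageUnb.Built66

set_option autoImplicit false

/-!
MP_a4f561_co (S10566), proof of helper94.  Lemma G (good round).
-/

namespace Pool.Agent.PageUnb

theorem good_round {w : ℕ} {M : Type} {H : List (List (Sym M))} (hg : Gad w M H) (K : ℕ) :
    ∃ n, 1 ≤ n ∧ ∀ H', Rounds w M H n H' → ∀ ord : Sym (ℕ × M) → ℕ, Good K H' ord →
      ∃ b, 1 ≤ b ∧ b < n ∧ ∀ v, Els H v →
        ord (phi w b v) < ord (Sym.L 0) ∨ ord (Sym.R 0) < ord (phi w b v) := by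
  obtain ⟨us, hus, hall⟩ := hg.hst.built66
  exact good_round_built hg K us hus hall

end Pool.Agent.PageUnb
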