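import Pool.Agent.PageUnb.Defs
import Pool.Agent.PageUnb.ErSz

set_option autoImplicit false

/-!
MP_a4f561_co (S10566), proof of helper94.  Lemma G (good round), abstract form: `P b v` is the
position of the copy of the class `v` in round `b`, `lo b` and `hi b` are the positions of the
stack elements at which round `b` starts.
-/

namespace Pool.Agent.PageUnb

structure Rd {C : Type} (n K : ℕ) (E : C → C → Prop) (base El : C → Prop) (P : ℕ → C → ℕ)
    (lo hi : ℕ → ℕ) : Prop where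
  lo_anti : ∀ a b, a ≤ b → b ≤ n → lo b ≤ lo a
  hi_mono : ∀ a b, a ≤ b → b ≤ n → hi a ≤ hi b
  inside : ∀ b, b < n → ∀ v, El v → lo (b + 1) ≤ P b v ∧ P b v ≤ hi (b + 1)
  base_out : ∀ v, base v → ∀ a b, a < b → b < n → P b v ≤ lo (a + 1) ∨ hi (a + 1) ≤ P b v
  fwd : ∀ b, b < n → ∀ p q, E p q → P b p < P b q
  inj : ∀ v, El v → ∀ b b', b < n → b' < n → b ≠ b' → P b v ≠ P b' v
  elE : ∀ p q, E p q → El p ∧ El q
  tw : ∀ p q, E p q → ∀ g : Fin K → ℕ, (∀ i, g i < n) →
    (∀ i j, P (g i) p < P (g j) q) →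
    ¬ (StrictMono (fun i => P (g i) p) ∧ StrictMono (fun i => P (g i) q)) ∧
    ¬ (StrictAnti (fun i => P (g i) p) ∧ StrictAnti (fun i => P (g i) q))

/-- The set `J` of rounds is good for the class `c`. -/
def GoodC {C : Type} (P : ℕ → C → ℕ) (lo hi : ℕ → ℕ) (J : Finset ℕ) (c : C) : Prop :=
  ∀ a ∈ J, ∀ b ∈ J, a < b → P b c ≤ lo (a + 1) ∨ hi (a + 1) ≤ P b c

theorem GoodC.mono {C : Type} {P : ℕ → C → ℕ} {lo hi : ℕ → ℕ} {J J' : Finset ℕ} {c : C}
    (h : GoodC P lo hi J c) (hJ : J' ⊆ J) : GoodC P lo hi J' c :=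
  fun a ha b hb hab => h a (hJ ha) b (hJ hb) hab

/-- The count: one class. -/
theorem Rd.count {C : Type} {n k : ℕ} {E : C → C → Prop} {base El : C → Prop} {P : ℕ → C → ℕ}
    {lo hi : ℕ → ℕ} (h : Rd n (k + 1) E base El P lo hi) (J : Finset ℕ) (hJ : ∀ b ∈ J, b < n)
    {p q u : C} (hp : GoodC P lo hi J p) (hq : GoodC P lo hi J q) (hpu : E p u) (huq : E u q)
    (a : ℕ) (ha : a ∈ J) (B : Finset ℕ) (hB : B ⊆ J)
    (hbad : ∀ b ∈ B, a < b ∧ ¬ (P b u ≤ lo (a + 1) ∨ hi (a + 1) ≤ P b u)) :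
    B.card < k * k + 1 := by
  by_contra hcon
  have hcard : k * k < B.card := by omega
  have hbn : ∀ b ∈ B, b < n := fun b hb => hJ b (hB hb)
  have han : a < n := hJ a ha
  have hElu : El u := (h.elE p u hpu).2
  have hElp : El p := (h.elE p u hpu).1
  have hElq : El q := (h.elE u q huq).2
  have hin : ∀ b ∈ B, lo (a + 1) < P b u ∧ P b u < hi (a + 1) := by
    intro b hb
    have := (hbad b hb).2
    push Not at this
    exact this
  have hplo : ∀ b ∈ B, P b p ≤ lo (a + 1) := by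
    intro b hb
    have h1 := h.fwd b (hbn b hb) p u hpu
    have h2 := (hin b hb).2
    rcases hp a ha b (hB hb) (hbad b hb).1 with h3 | h3
    · exact h3
    · omega
  have hqhi : ∀ b ∈ B, hi (a + 1) ≤ P b q := by
    intro b hb
    have h1 := h.fwd b (hbn b hb) u q huq
    have h2 := (hin b hb).1
    rcases hq a ha b (hB hb) (hbad b hb).1 with h3 | h3
    · omega
    · exact h3
  have hpanti : ∀ b ∈ B, ∀ b' ∈ B, b < b' → P b' p < P b p := by
    intro b hb b' hb' hlt
    have h1 := h.fwd b' (hbn b' hb') p u hpu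
    have h2 := (hin b' hb').2
    have h3 := (h.inside b (hbn b hb) p hElp).1
    have hab := (hbad b hb).1
    have h4 : hi (a + 1) ≤ hi (b + 1) := h.hi_mono (a + 1) (b + 1) (by omega)
      (by have := hbn b hb; omega)
    have h5 : P b' p ≠ P b p := fun he =>
      h.inj p hElp b' b (hbn b' hb') (hbn b hb) (by omega) he
    rcases hp b (hB hb) b' (hB hb') hlt with h6 | h6
    · omega
    · omega
  have hqmono : ∀ b ∈ B, ∀ b' ∈ B, b < b' → P b q < P b' q := by
    intro b hb b' hb' hlt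
    have h1 := h.fwd b' (hbn b' hb') u q huq
    have h2 := (hin b' hb').1
    have h3 := (h.inside b (hbn b hb) q hElq).2
    have hab := (hbad b hb).1
    have h4 : lo (b + 1) ≤ lo (a + 1) := h.lo_anti (a + 1) (b + 1) (by omega)
      (by have := hbn b hb; omega)
    have h5 : P b' q ≠ P b q := fun he =>
      h.inj q hElq b' b (hbn b' hb') (hbn b hb) (by omega) he
    rcases hq b (hB hb) b' (hB hb') hlt with h6 | h6
    · omega
    · omega
  have hinj : Set.InjOn (fun b => P b u) (B : Set ℕ) := by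
    intro x hx y hy hxy
    by_contra hne
    exact h.inj u hElu x y (hbn x (Finset.mem_coe.mp hx)) (hbn y (Finset.mem_coe.mp hy)) hne hxy
  rcases es66 (fun b => P b u) k k B hinj hcard with ⟨g, hg1, hg2, hg3⟩ | ⟨g, hg1, hg2, hg3⟩
  · have h1 : ∀ i j, P (g i) u < P (g j) q := by
      intro i j
      have h2 := (hin _ (hg2 i)).2
      have h3 := hqhi _ (hg2 j)
      omega
    exact (h.tw u q huq g (fun i => hbn _ (hg2 i)) h1).1
      ⟨hg3, fun i j hij => hqmono _ (hg2 i) _ (hg2 j) (hg1 hij)⟩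
  · have h1 : ∀ i j, P (g i) p < P (g j) u := by
      intro i j
      have h2 := (hin _ (hg2 j)).1
      have h3 := hplo _ (hg2 i)
      omega
    exact (h.tw p u hpu g (fun i => hbn _ (hg2 i)) h1).2
      ⟨fun i j hij => hpanti _ (hg2 i) _ (hg2 j) (hg1 hij), hg3⟩

theorem Rd.select {C : Type} {n k : ℕ} {E : C → C → Prop} {base El : C → Prop} {P : ℕ → C → ℕ}
    {lo hi : ℕ → ℕ} (h : Rd n (k + 1) E base El P lo hi) (us : List C) (hus : Built E base us) :
    ∃ J : Finset ℕ, (∀ b ∈ J, b < n) ∧ n ≤ (k * k + 1) ^ us.length * J.card ∧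
      ∀ v, base v ∨ v ∈ us → GoodC P lo hi J v := by
  induction hus with
  | nil =>
    refine ⟨Finset.range n, fun b hb => Finset.mem_range.mp hb, by simp, ?_⟩
    intro v hv a _ b hb hab
    rcases hv with hv | hv
    · exact h.base_out v hv a b hab (Finset.mem_range.mp hb)
    · simp at hv
  | cons us u p q _ hp hq hpu huq ih =>
    obtain ⟨J, hJ1, hJ2, hJ3⟩ := ih
    have hgp : GoodC P lo hi J p := hJ3 p hp
    have hgq : GoodC P lo hi J q := hJ3 q hq
    obtain ⟨J', hJ'1, hJ'2, hJ'3⟩ := greedy66 (k * k + 1)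
      (fun a b => ¬ (P b u ≤ lo (a + 1) ∨ hi (a + 1) ≤ P b u)) J.card J rfl
      (fun a ha B hB hbad => h.count J hJ1 hgp hgq hpu huq a ha B hB hbad)
    refine ⟨J', fun b hb => hJ1 b (hJ'1 hb), ?_, ?_⟩
    · have h1 : (u :: us).length = us.length + 1 := rfl
      rw [h1, pow_succ, mul_assoc]
      exact le_trans hJ2 (Nat.mul_le_mul_left _ hJ'2)
    · intro v hv
      have hcase : v = u ∨ (base v ∨ v ∈ us) := by
        rcases hv with hv | hv
        · exact Or.inr (Or.inl hv)
        · rcases List.mem_cons.mp hv with hv | hv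
          · exact Or.inl hv
          · exact Or.inr (Or.inr hv)
      rcases hcase with hv | hv
      · rw [hv]
        intro a ha b hb hab
        exact not_not.mp (hJ'3 a ha b hb hab)
      · exact (hJ3 v hv).mono hJ'1

/-- Two rounds `a < b` such that round `b` avoids the open interval of round `a`. -/
theorem Rd.two {C : Type} {n k : ℕ} {E : C → C → Prop} {base El : C → Prop} {P : ℕ → C → ℕ}
    {lo hi : ℕ → ℕ} (h : Rd n (k + 1) E base El P lo hi) (us : List C) (hus : Built E base us)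
    (hn : (k * k + 1) ^ us.length < n) :
    ∃ a b, a < b ∧ b < n ∧ ∀ v, base v ∨ v ∈ us → P b v ≤ lo (a + 1) ∨ hi (a + 1) ≤ P b v := by
  obtain ⟨J, hJ1, hJ2, hJ3⟩ := h.select us hus
  have hc : 1 < J.card := by
    by_contra hcon
    have h1 : J.card ≤ 1 := by omega
    have h2 := Nat.mul_le_mul_left ((k * k + 1) ^ us.length) h1
    omega
  obtain ⟨a, ha, b, hb, hne⟩ := Finset.one_lt_card.mp hc
  rcases Nat.lt_or_gt_of_ne hne with hab | hab
  · exact ⟨a, b, hab, hJ1 b hb, fun v hv => hJ3 v hv a ha b hb hab⟩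
  · exact ⟨b, a, hab, hJ1 a ha, fun v hv => hJ3 v hv b hb a ha hab⟩

end Pool.Agent.PageUnb
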