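import Pool.Agent.PageUnb.LemG0

set_option autoImplicit false

/-!
MP_a4f561_co (S10566), proof of helper94.  Lemma G (good round) for the rounds of a gadget.
-/

namespace Pool.Agent.PageUnb

theorem chain_of_infix66 {V : Type} {R : V → V → Prop} : ∀ X : List V,
    (∀ p q, [p, q] <:+: X → R p q) → X.IsChain R
  | [], _ => List.isChain_nil
  | [_], _ => List.isChain_singleton _
  | a :: b :: X, h => by
    have h1 : R a b := h a b ⟨[], X, by simp⟩
    have h2 : (b :: X).IsChain R := chain_of_infix66 (b :: X) (fun p q hpq =>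
      h p q (hpq.trans ⟨[a], [], by simp⟩))
    exact List.isChain_cons_cons.mpr ⟨h1, h2⟩

theorem pw_of_infix66 {V : Type} (f : V → ℕ) (X : List V)
    (h : ∀ p q, [p, q] <:+: X → f p < f q) : X.Pairwise (fun p q => f p < f q) := by
  have hc := chain_of_infix66 X h
  have : IsTrans V (fun p q => f p < f q) := ⟨fun _ _ _ h1 h2 => lt_trans h1 h2⟩
  exact hc.pairwise

theorem pw_head_le66 {V : Type} (f : V → ℕ) {X : List V} (h : X.Pairwise (fun p q => f p < f q))
    {a v : V} (ha : X.head? = some a) (hv : v ∈ X) : f a ≤ f v := by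
  cases X with
  | nil => simp at hv
  | cons x X =>
    have hx : x = a := by simpa using ha
    subst hx
    rcases List.mem_cons.mp hv with h1 | h1
    · rw [h1]
    · exact le_of_lt ((List.pairwise_cons.mp h).1 v h1)

theorem pw_le_last66 {V : Type} (f : V → ℕ) {X : List V} (h : X.Pairwise (fun p q => f p < f q))
    {z v : V} (hz : X.getLast? = some z) (hv : v ∈ X) : f v ≤ f z := by
  obtain ⟨Y, hY⟩ := List.getLast?_eq_some_iff.mp hz
  subst hY
  rw [List.pairwise_append] at h
  rcases List.mem_append.mp hv with h1 | h1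
  · exact le_of_lt (h.2.2 v h1 z (by simp))
  · have : v = z := by simpa using h1
    rw [this]

/-- The stacks are sorted. -/
theorem stk_sorted66 {M : Type} (m : ℕ) (f : Sym M → ℕ)
    (h : (stk M m).Pairwise (fun p q => f p < f q)) :
    (∀ i j, i < j → j ≤ m → f (Sym.L j) < f (Sym.L i)) ∧
    (∀ i j, i < j → j ≤ m → f (Sym.R i) < f (Sym.R j)) ∧
    (∀ i j, i ≤ m → j ≤ m → f (Sym.L i) < f (Sym.R j)) := by
  unfold stk stkL stkR at h
  rw [List.pairwise_append] at h
  obtain ⟨h1, h2, h3⟩ := h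
  rw [List.pairwise_map, List.pairwise_reverse] at h1
  rw [List.pairwise_map] at h2
  rw [List.pairwise_iff_getElem] at h1 h2
  refine ⟨?_, ?_, ?_⟩
  · intro i j hij hj
    have := h1 i j (by simp; omega) (by simp; omega) hij
    simpa using this
  · intro i j hij hj
    have := h2 i j (by simp; omega) (by simp; omega) hij
    simpa using this
  · intro i j hi hj
    apply h3
    · simp; omega
    · simp; omega

theorem mem_stk66 {M : Type} (m : ℕ) (v : Sym M) :
    v ∈ stk M m ↔ (∃ i, i ≤ m ∧ v = Sym.L i) ∨ (∃ i, i ≤ m ∧ v = Sym.R i) := by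
  unfold stk stkL stkR
  simp only [List.mem_append, List.mem_map, List.mem_reverse, List.mem_range]
  constructor
  · rintro (⟨i, hi, rfl⟩ | ⟨i, hi, rfl⟩)
    · exact Or.inl ⟨i, by omega, rfl⟩
    · exact Or.inr ⟨i, by omega, rfl⟩
  · rintro (⟨i, hi, rfl⟩ | ⟨i, hi, rfl⟩)
    · exact Or.inl ⟨i, by omega, rfl⟩
    · exact Or.inr ⟨i, by omega, rfl⟩

theorem Ed.els66 {V : Type} {H : List (List V)} {p q : V} (h : Ed H p q) : Els H p ∧ Els H q := by
  obtain ⟨S, hS, hpq⟩ := h
  exact ⟨⟨S, hS, hpq.subset (by simp)⟩, ⟨S, hS, hpq.subset (by simp)⟩⟩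

theorem phi_ne66 {M : Type} {w : ℕ} (hw : 1 ≤ w) {b b' : ℕ} (hb : b ≠ b') (v : Sym M) :
    phi w b v ≠ phi w b' v := by
  intro h
  have key : ∀ i : ℕ, b * w + i = b' * w + i → False := by
    intro i hi
    have h1 : b * w = b' * w := by omega
    exact hb (Nat.eq_of_mul_eq_mul_right (by omega) h1)
  cases v with
  | L i =>
    simp only [phi, Sym.L.injEq] at h
    exact key i h
  | R i =>
    simp only [phi, Sym.R.injEq] at h
    exact key i h
  | new m =>
    simp only [phi, Sym.new.injEq, Prod.mk.injEq] at h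
    exact hb h.1

theorem rd_of_rounds {w : ℕ} {M : Type} {H : List (List (Sym M))} (hg : Gad w M H) {K n : ℕ}
    {H' : List (List (Sym (ℕ × M)))} (hr : Rounds w M H n H') {ord : Sym (ℕ × M) → ℕ}
    (ho : Good K H' ord) :
    Rd n K (Ed H) (fun v => v ∈ stk M w) (Els H) (fun b v => ord (phi w b v))
      (fun b => ord (Sym.L (b * w))) (fun b => ord (Sym.R (b * w))) := by
  have hst0 : stk (ℕ × M) (n * w) ∈ H' := List.mem_of_mem_head? hr.hst.hd
  have hsort : (stk (ℕ × M) (n * w)).Pairwise (fun p q => ord p < ord q) :=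
    pw_of_infix66 ord _ (fun p q hpq => ho.fwd p q ⟨_, hst0, hpq⟩)
  obtain ⟨hL, hR, hLR⟩ := stk_sorted66 (n * w) ord hsort
  have hLle : ∀ i j, i ≤ j → j ≤ n * w → ord (Sym.L j : Sym (ℕ × M)) ≤ ord (Sym.L i) := by
    intro i j hij hj
    rcases Nat.lt_or_eq_of_le hij with h | h
    · exact le_of_lt (hL i j h hj)
    · rw [h]
  have hRle : ∀ i j, i ≤ j → j ≤ n * w → ord (Sym.R i : Sym (ℕ × M)) ≤ ord (Sym.R j) := by
    intro i j hij hj
    rcases Nat.lt_or_eq_of_le hij with h | h
    · exact le_of_lt (hR i j h hj)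
    · rw [h]
  have hmul : ∀ a b, a ≤ b → a * w ≤ b * w := fun a b h => Nat.mul_le_mul_right w h
  have hfwd : ∀ b, b < n → ∀ p q, Ed H p q → ord (phi w b p) < ord (phi w b q) :=
    fun b hb p q hpq => ho.fwd _ _ (hr.ed b hb p q hpq)
  have hin : ∀ b, b < n → ∀ v, Els H v → ord (Sym.L ((b + 1) * w)) ≤ ord (phi w b v) ∧
      ord (phi w b v) ≤ ord (Sym.R ((b + 1) * w)) := by
    rintro b hb v ⟨X, hX, hv⟩
    have hp : X.Pairwise (fun p q => ord (phi w b p) < ord (phi w b q)) :=
      pw_of_infix66 (fun v => ord (phi w b v)) X (fun p q hpq => hfwd b hb p q ⟨X, hX, hpq⟩)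
    have h1 := pw_head_le66 (fun v => ord (phi w b v)) hp (hg.hst.fst X hX) hv
    have h2 := pw_le_last66 (fun v => ord (phi w b v)) hp (hg.hst.lst X hX) hv
    simp only [phi] at h1 h2
    rw [Nat.succ_mul]
    exact ⟨h1, h2⟩
  refine
    { lo_anti := ?_, hi_mono := ?_, inside := hin, base_out := ?_, fwd := hfwd, inj := ?_,
      elE := fun p q h => Ed.els66 h, tw := ?_ }
  · intro a b hab hb
    exact hLle _ _ (hmul a b hab) (hmul b n hb)
  · intro a b hab hb
    exact hRle _ _ (hmul a b hab) (hmul b n hb)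
  · intro v hv a b hab hb
    have h1 := hmul (a + 1) b hab
    have h2 := hmul (b + 1) n hb
    rw [Nat.succ_mul b w] at h2
    rcases (mem_stk66 w v).mp hv with ⟨i, hi, rfl⟩ | ⟨i, hi, rfl⟩
    · left
      exact hLle _ _ (by omega) (by omega)
    · right
      exact hRle _ _ (by omega) (by omega)
  · intro v hv b b' hb hb' hne heq
    exact phi_ne66 hg.pos hne v (ho.inj _ _ (hr.el b hb v hv) (hr.el b' hb' v hv) heq)
  · intro p q hpq g hgn hlt
    constructor
    · rintro ⟨h1, h2⟩
      have ht : Tw (Ed H') ord (List.ofFn (fun i : Fin K => (phi w (g i) p, phi w (g i) q))) := by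
        refine ⟨?_, ?_, ?_⟩
        · rw [List.pairwise_ofFn]
          intro i j hij
          exact ⟨h1 hij, h2 hij⟩
        · intro e he
          obtain ⟨i, rfl⟩ := (List.mem_ofFn' _ _).mp he
          exact hr.ed _ (hgn i) p q hpq
        · intro e he f hf
          obtain ⟨i, rfl⟩ := (List.mem_ofFn' _ _).mp he
          obtain ⟨j, rfl⟩ := (List.mem_ofFn' _ _).mp hf
          exact hlt i j
      have := ho.tw _ ht
      rw [List.length_ofFn] at this
      exact lt_irrefl _ this
    · rintro ⟨h1, h2⟩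
      have ht : Tw (Ed H') ord
          (List.ofFn (fun i : Fin K => (phi w (g i) p, phi w (g i) q))).reverse := by
        refine ⟨?_, ?_, ?_⟩
        · rw [List.pairwise_reverse, List.pairwise_ofFn]
          intro i j hij
          exact ⟨h1 hij, h2 hij⟩
        · intro e he
          obtain ⟨i, rfl⟩ := (List.mem_ofFn' _ _).mp (List.mem_reverse.mp he)
          exact hr.ed _ (hgn i) p q hpq
        · intro e he f hf
          obtain ⟨i, rfl⟩ := (List.mem_ofFn' _ _).mp (List.mem_reverse.mp he)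
          obtain ⟨j, rfl⟩ := (List.mem_ofFn' _ _).mp (List.mem_reverse.mp hf)
          exact hlt i j
      have := ho.tw _ ht
      rw [List.length_reverse, List.length_ofFn] at this
      exact lt_irrefl _ this

/-- Lemma G, with the insertion structure as a hypothesis. -/
theorem good_round_built {w : ℕ} {M : Type} {H : List (List (Sym M))} (hg : Gad w M H) (K : ℕ)
    (us : List (Sym M)) (hus : Built (Ed H) (fun v => v ∈ stk M w) us)
    (hall : ∀ v, Els H v → v ∈ stk M w ∨ v ∈ us) :
    ∃ n, 1 ≤ n ∧ ∀ H', Rounds w M H n H' → ∀ ord : Sym (ℕ × M) → ℕ, Good K H' ord →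
      ∃ b, 1 ≤ b ∧ b < n ∧ ∀ v, Els H v →
        ord (phi w b v) < ord (Sym.L 0) ∨ ord (Sym.R 0) < ord (phi w b v) := by
  cases K with
  | zero =>
    refine ⟨1, le_refl _, ?_⟩
    intro H' _ ord ho
    have h0 : Tw (Ed H') ord [] := ⟨List.Pairwise.nil, by simp, by simp⟩
    exact absurd (ho.tw [] h0) (by simp)
  | succ k =>
    refine ⟨(k * k + 1) ^ us.length + 1, by omega, ?_⟩
    intro H' hr ord ho
    have hrd := rd_of_rounds hg hr ho
    obtain ⟨a, b, hab, hb, hv⟩ := hrd.two us hus (Nat.lt_succ_self _)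
    have hst0 : stk (ℕ × M) (((k * k + 1) ^ us.length + 1) * w) ∈ H' :=
      List.mem_of_mem_head? hr.hst.hd
    have hsort : (stk (ℕ × M) (((k * k + 1) ^ us.length + 1) * w)).Pairwise
        (fun p q => ord p < ord q) :=
      pw_of_infix66 ord _ (fun p q hpq => ho.fwd p q ⟨_, hst0, hpq⟩)
    obtain ⟨hL, hR, _⟩ := stk_sorted66 _ ord hsort
    have hpos := hg.pos
    have h1 : 0 < (a + 1) * w := Nat.mul_pos (by omega) (by omega)
    have h2 : (a + 1) * w ≤ ((k * k + 1) ^ us.length + 1) * w := Nat.mul_le_mul_right w (by omega)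
    have h3 := hL 0 ((a + 1) * w) h1 h2
    have h4 := hR 0 ((a + 1) * w) h1 h2
    refine ⟨b, by omega, hb, ?_⟩
    intro v hev
    rcases hv v (hall v hev) with h5 | h5
    · left
      exact lt_of_le_of_lt h5 h3
    · right
      exact lt_of_lt_of_le h4 h5

end Pool.Agent.PageUnb
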