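/-
MP_a4f561_co, S10566: one master list contains every state of a history.
-/
import Pool.Agent.PageUnb.Defs

set_option autoImplicit false

namespace Pool.Agent.PageUnb

variable {V : Type}

theorem master_core (H : List (List V)) (hn : ∀ X ∈ H, X.Nodup) (hc : H.IsChain Step)
    (hv : ∀ (v : V) (i j k : ℕ) (_ : i ≤ j) (_ : j ≤ k) (hk : k < H.length),
      v ∈ H[i] → v ∈ H[k] → v ∈ H[j]) :
    ∃ M : List V, M.Nodup ∧ (∀ X ∈ H, X.Sublist M) ∧ ∀ v ∈ M, Els H v := by
  induction H with
  | nil => exact ⟨[], List.nodup_nil, by simp, by simp⟩
  | cons S H' ih =>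
    have hn' : ∀ X ∈ H', X.Nodup := fun X hX => hn X (List.mem_cons_of_mem _ hX)
    have hc' : H'.IsChain Step := hc.tail
    have hv' : ∀ (v : V) (i j k : ℕ) (_ : i ≤ j) (_ : j ≤ k) (hk : k < H'.length),
        v ∈ H'[i] → v ∈ H'[k] → v ∈ H'[j] := by
      intro v i j k hij hjk hk h1 h2
      have := hv v (i + 1) (j + 1) (k + 1) (by omega) (by omega)
        (by simp only [List.length_cons]; omega) (by simpa using h1) (by simpa using h2)
      simpa using this
    obtain ⟨M', hM1, hM2, hM3⟩ := ih hn' hc' hv'
    have hels : ∀ v, Els H' v → Els (S :: H') v := by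
      rintro v ⟨X, hX, hvX⟩
      exact ⟨X, List.mem_cons_of_mem _ hX, hvX⟩
    cases H' with
    | nil =>
      refine ⟨S, hn S (by simp), ?_, ?_⟩
      · intro X hX
        have hXS : X = S := by simpa using hX
        rw [hXS]
      · intro v hvS
        exact ⟨S, by simp, hvS⟩
    | cons S2 H2 =>
      have hst : Step S S2 := by
        cases hc with
        | cons_cons h _ => exact h
      rcases hst with hst | hst | hst
      · refine ⟨M', hM1, ?_, fun v hvM => hels v (hM3 v hvM)⟩
        intro X hX
        rcases List.mem_cons.mp hX with h | h
        · rw [h, hst]; exact hM2 S2 (by simp)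
        · exact hM2 X h
      · obtain ⟨X0, u, Y0, h1, h2⟩ := hst
        refine ⟨M', hM1, ?_, fun v hvM => hels v (hM3 v hvM)⟩
        intro X hX
        rcases List.mem_cons.mp hX with h | h
        · have hsub : S.Sublist S2 := by
            rw [h1, h2]
            exact List.Sublist.append_left (List.sublist_cons_self u Y0) X0
          rw [h]; exact hsub.trans (hM2 S2 (by simp))
        · exact hM2 X h
      · obtain ⟨X0, u, Y0, h1, h2⟩ := hst
        have hnS : (X0 ++ u :: Y0).Nodup := by rw [← h2]; exact hn S (by simp)
        have hu0 : u ∉ X0 ++ Y0 := by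
          intro hu
          rw [List.nodup_append] at hnS
          obtain ⟨_, hb, hd⟩ := hnS
          rcases List.mem_append.mp hu with h | h
          · exact hd u h u (by simp) rfl
          · exact (List.nodup_cons.mp hb).1 h
        have huM : u ∉ M' := by
          intro hu
          obtain ⟨X, hX, huX⟩ := hM3 u hu
          obtain ⟨k, hk, hkX⟩ := List.getElem_of_mem hX
          have := hv u 0 1 (k + 1) (by omega) (by omega)
            (by simp only [List.length_cons] at hk ⊢; omega)
            (by simp [h2]) (by simp only [List.getElem_cons_succ]; rw [hkX]; exact huX)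
          apply hu0
          rw [← h1]
          simpa using this
        have hs2 : (X0 ++ Y0).Sublist M' := by rw [← h1]; exact hM2 S2 (by simp)
        obtain ⟨A, B, hAB, hA, hB⟩ := List.append_sublist_iff.mp hs2
        have hMsub : M'.Sublist (A ++ u :: B) := by
          rw [hAB]
          exact List.Sublist.append_left (List.sublist_cons_self u B) A
        refine ⟨A ++ u :: B, ?_, ?_, ?_⟩
        · rw [List.nodup_middle]
          rw [List.nodup_cons, ← hAB]
          exact ⟨huM, hM1⟩
        · intro X hX
          rcases List.mem_cons.mp hX with h | h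
          · rw [h, h2]
            exact hA.append (hB.cons_cons u)
          · exact (hM2 X h).trans hMsub
        · intro v hvM
          have : v = u ∨ v ∈ M' := by
            rw [hAB]
            simp only [List.mem_append, List.mem_cons] at hvM ⊢
            tauto
          rcases this with h | h
          · exact ⟨S, by simp, by rw [h, h2]; simp⟩
          · exact hels v (hM3 v h)

/-- One list without repetitions contains every state of a history as a sublist. -/
theorem Hst.master {a z : V} {S S' : List V} {H : List (List V)}
    (h : Hst a z S S' H) : ∃ M : List V, M.Nodup ∧ (∀ X ∈ H, X.Sublist M) ∧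
      ∀ v ∈ M, Els H v :=
  master_core H h.nodup h.chain h.conv

end Pool.Agent.PageUnb
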