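/-
MP_a4f561_co, S10566: from a bounded number of pages to a good order; the conclusion.
-/
import Pool.Agent.PageUnb.Basic
import Pool.Agent.PageUnb.Draw

set_option autoImplicit false

namespace Pool.Agent.PageUnb

variable {V : Type}

/-- A bounded number of pages gives a good order of a history with a master list. -/
theorem good_of_pages {H : List (List V)} {Ms : List V} (hnd : Ms.Nodup)
    (hsub : ∀ X ∈ H, X.Sublist Ms) (hels : ∀ v ∈ Ms, Els H v)
    (hconv : ∀ (v : V) (i j k : ℕ) (_ : i ≤ j) (_ : j ≤ k) (hk : k < H.length),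
      v ∈ H[i] → v ∈ H[k] → v ∈ H[j]) (k : ℕ)
    (hk : ∀ (n : ℕ) (G : Digraph (Fin n)),
      (∃ f : Fin n → ℝ × ℝ, Function.Injective f ∧
        ∃ γ : Fin n → Fin n → ℝ → ℝ × ℝ,
          (∀ u v, G.Adj u v →
            ContinuousOn (γ u v) (Set.Icc (0:ℝ) 1) ∧
            γ u v 0 = f u ∧ γ u v 1 = f v ∧
            StrictMonoOn (fun t => (γ u v t).2) (Set.Icc (0:ℝ) 1) ∧
            (∀ w, ∀ s ∈ Set.Ioo (0:ℝ) 1, γ u v s ≠ f w)) ∧
          (∀ u v u' v', G.Adj u v → G.Adj u' v' → (u, v) ≠ (u', v') →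
            ∀ s ∈ Set.Ioo (0:ℝ) 1, ∀ t ∈ Set.Icc (0:ℝ) 1,
              γ u v s ≠ γ u' v' t)) →
      ∃ σ : Fin n ≃ Fin n, ∃ p : Fin n → Fin n → Fin k,
        (∀ u v, G.Adj u v → σ u < σ v) ∧
        (∀ a b c d, G.Adj a b → G.Adj c d → p a b = p c d →
          ¬ (σ a < σ c ∧ σ c < σ b ∧ σ b < σ d))) :
    ∃ ord : V → ℕ, Good (k + 1) H ord := by
  classical
  -- the graph on the indices of the master list
  let G : Digraph (Fin Ms.length) := ⟨fun i j => Ed H Ms[i] Ms[j]⟩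
  let A : ℕ → Fin Ms.length → Prop := fun t i => ∃ h : t < H.length, Ms[i] ∈ H[t]
  have hex : ∀ i : Fin Ms.length, ∃ t, A t i := by
    intro i
    obtain ⟨S, hS, hv⟩ := hels Ms[i] (List.getElem_mem _)
    obtain ⟨t, ht, rfl⟩ := List.getElem_of_mem hS
    exact ⟨t, ht, hv⟩
  have hadj : ∀ p q, G.Adj p q → ∃ t, A t p ∧ A t q ∧ p < q ∧ ∀ w, A t w → ¬ (p < w ∧ w < q) := by
    intro p q h
    obtain ⟨S, hS, s1, s2, hs⟩ := h
    obtain ⟨t, ht, rfl⟩ := List.getElem_of_mem hS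
    have hsb : (H[t]).Sublist Ms := hsub _ (List.getElem_mem ht)
    have hp : Ms[p] ∈ H[t] := by rw [← hs]; simp
    have hq : Ms[q] ∈ H[t] := by rw [← hs]; simp
    -- the order of a sublist
    have hord : ∀ i j : Fin Ms.length, i < j → ∀ (X Y : List V), X ++ Y = H[t] →
        Ms[j] ∈ X → Ms[i] ∈ Y → False := by
      intro i j hij X Y hXY hj hi
      have h1 : (X ++ Y).Sublist Ms := by rw [hXY]; exact hsb
      have h2 : Ms.Pairwise (fun a b => Ms.idxOf a < Ms.idxOf b) := by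
        rw [List.pairwise_iff_getElem]
        intro a b ha hb hab
        rw [hnd.idxOf_getElem a ha, hnd.idxOf_getElem b hb]
        exact hab
      have h3 := (List.pairwise_append.1 (h2.sublist h1)).2.2 _ hj _ hi
      rw [Fin.getElem_fin, Fin.getElem_fin, hnd.idxOf_getElem, hnd.idxOf_getElem] at h3
      exact absurd h3 (not_lt.2 (le_of_lt hij))
    have hpq : p < q := by
      rcases lt_trichotomy p q with h | h | h
      · exact h
      · exfalso
        subst h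
        have h4 : (s1 ++ [Ms[p], Ms[p]] ++ s2).Nodup := by rw [hs]; exact hsb.nodup hnd
        simp [List.nodup_append] at h4
      · exfalso
        exact hord q p h (s1 ++ [Ms[p]]) (Ms[q] :: s2) (by rw [← hs]; simp) (by simp) (by simp)
    refine ⟨t, ⟨ht, hp⟩, ⟨ht, hq⟩, hpq, ?_⟩
    rintro w ⟨_, hw⟩ ⟨h1, h2⟩
    rw [← hs] at hw
    simp only [List.mem_append, List.mem_cons, List.not_mem_nil, or_false] at hw
    rcases hw with (hw | hw | hw) | hw
    · exact hord p w h1 s1 ([Ms[p], Ms[q]] ++ s2) (by rw [← hs]; simp) hw (by simp)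
    · exact absurd (hnd.injective_get (by simpa [List.get_eq_getElem] using hw)) (ne_of_gt h1)
    · exact absurd (hnd.injective_get (by simpa [List.get_eq_getElem] using hw)) (ne_of_lt h2)
    · exact hord w q h2 (s1 ++ [Ms[p], Ms[q]]) s2 (by rw [← hs]) (by simp) hw
  obtain ⟨σ, pg, hσ, hpg⟩ := hk Ms.length G (drawing Ms.length G A (fun i => Nat.find (hex i))
    (fun v => Nat.find_spec (hex v)) (fun v t h => Nat.find_min' (hex v) h)
    (by
      rintro v i t ⟨ht, h⟩ h1 h2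
      obtain ⟨h0, h0'⟩ := Nat.find_spec (hex v)
      exact ⟨lt_of_le_of_lt h2 ht, hconv _ _ _ _ h1 h2 ht h0' h⟩) hadj)
  -- the order
  let ix : (v : V) → v ∈ Ms → Fin Ms.length := fun v hv => ⟨Ms.idxOf v, List.idxOf_lt_length_of_mem hv⟩
  have hix : ∀ v (hv : v ∈ Ms), Ms[ix v hv] = v := by
    intro v hv
    exact List.getElem_idxOf _
  let ord : V → ℕ := fun v => if hv : v ∈ Ms then (σ (ix v hv)).val else 0
  have hmem : ∀ v, Els H v → v ∈ Ms := by
    rintro v ⟨S, hS, hv⟩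
    exact (hsub S hS).subset hv
  have hordv : ∀ v (hv : v ∈ Ms), ord v = (σ (ix v hv)).val := by
    intro v hv
    simp only [ord, dif_pos hv]
  have hG : ∀ a b (ha : a ∈ Ms) (hb : b ∈ Ms), Ed H a b → G.Adj (ix a ha) (ix b hb) := by
    intro a b ha hb h
    change Ed H Ms[ix a ha] Ms[ix b hb]
    rw [hix a ha, hix b hb]
    exact h
  refine ⟨ord, ?_, ?_, ?_⟩
  · intro a b h
    rw [hordv a (hmem a h.fst), hordv b (hmem b h.snd)]
    exact hσ _ _ (hG _ _ (hmem a h.fst) (hmem b h.snd) h)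
  · intro a b ha hb h
    rw [hordv a (hmem a ha), hordv b (hmem b hb)] at h
    have h1 := σ.injective (Fin.ext h)
    rw [← hix a (hmem a ha), ← hix b (hmem b hb), h1]
  · intro T hT
    by_contra hlen
    push Not at hlen
    obtain ⟨h1, h2, h3⟩ := hT
    have hT1 : ∀ e ∈ T, e.1 ∈ Ms := fun e he => hmem _ (h2 e he).fst
    have hT2 : ∀ e ∈ T, e.2 ∈ Ms := fun e he => hmem _ (h2 e he).snd
    let P : Fin T.length → Fin k := fun i =>
      pg (ix (T[i]).1 (hT1 _ (List.getElem_mem _))) (ix (T[i]).2 (hT2 _ (List.getElem_mem _)))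
    obtain ⟨i, j, hij, hP⟩ := Fintype.exists_ne_map_eq_of_card_lt P (by simp; omega)
    have main : ∀ i j : Fin T.length, i < j → P i = P j → False := by
      intro i j hij hP
      have ei := h2 T[i] (List.getElem_mem _)
      have ej := h2 T[j] (List.getElem_mem _)
      have hpw := (List.pairwise_iff_getElem.1 h1) i.1 j.1 i.2 j.2 hij
      have h3' := h3 T[j] (List.getElem_mem _) T[i] (List.getElem_mem _)
      refine hpg _ _ _ _ (hG _ _ (hT1 _ (List.getElem_mem _)) (hT2 _ (List.getElem_mem _)) ei)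
        (hG _ _ (hT1 _ (List.getElem_mem _)) (hT2 _ (List.getElem_mem _)) ej) hP ⟨?_, ?_, ?_⟩
      · rw [Fin.lt_def, ← hordv _ (hT1 _ (List.getElem_mem _)), ← hordv _ (hT1 _ (List.getElem_mem _))]
        exact hpw.1
      · rw [Fin.lt_def, ← hordv _ (hT1 _ (List.getElem_mem _)), ← hordv _ (hT2 _ (List.getElem_mem _))]
        exact h3'
      · rw [Fin.lt_def, ← hordv _ (hT2 _ (List.getElem_mem _)), ← hordv _ (hT2 _ (List.getElem_mem _))]
        exact hpw.2
    rcases lt_or_gt_of_ne hij with h | h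
    · exact main i j h hP
    · exact main j i h hP.symm

/-- The conclusion, from the master list and the strong gadgets. -/
theorem not_bounded
    (hm : ∀ {V : Type} {a z : V} {S S' : List V} {H : List (List V)}, Hst a z S S' H →
      ∃ M : List V, M.Nodup ∧ (∀ X ∈ H, X.Sublist M) ∧ ∀ v ∈ M, Els H v)
    (hs : ∀ K, Strong K K) :
    ¬ (∃ k : ℕ, ∀ (n : ℕ) (G : Digraph (Fin n)),
      (∃ f : Fin n → ℝ × ℝ, Function.Injective f ∧
        ∃ γ : Fin n → Fin n → ℝ → ℝ × ℝ,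
          (∀ u v, G.Adj u v →
            ContinuousOn (γ u v) (Set.Icc (0:ℝ) 1) ∧
            γ u v 0 = f u ∧ γ u v 1 = f v ∧
            StrictMonoOn (fun t => (γ u v t).2) (Set.Icc (0:ℝ) 1) ∧
            (∀ w, ∀ s ∈ Set.Ioo (0:ℝ) 1, γ u v s ≠ f w)) ∧
          (∀ u v u' v', G.Adj u v → G.Adj u' v' → (u, v) ≠ (u', v') →
            ∀ s ∈ Set.Ioo (0:ℝ) 1, ∀ t ∈ Set.Icc (0:ℝ) 1,
              γ u v s ≠ γ u' v' t)) →
      ∃ σ : Fin n ≃ Fin n, ∃ p : Fin n → Fin n → Fin k,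
        (∀ u v, G.Adj u v → σ u < σ v) ∧
        (∀ a b c d, G.Adj a b → G.Adj c d → p a b = p c d →
          ¬ (σ a < σ c ∧ σ c < σ b ∧ σ b < σ d))) := by
  rintro ⟨k, hk⟩
  obtain ⟨w, M, H, hg, hT⟩ := hs (k + 1)
  obtain ⟨Ms, h1, h2, h3⟩ := hm hg.hst
  obtain ⟨ord, ho⟩ := good_of_pages h1 h2 h3 hg.hst.conv k hk
  obtain ⟨T, hT1, hT2, _⟩ := hT ord ho
  have := ho.tw T hT1
  omega

end Pool.Agent.PageUnb
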