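/-
MP_a4f561_co, S10566: consecutive rounds of a gadget exist.
-/
import Pool.Agent.PageUnb.Hist
import Pool.Agent.PageUnb.HistF

set_option autoImplicit false

namespace Pool.Agent.PageUnb

private theorem pass_ed_frame {V V' : Type} {H : List (List V)} {p q : V} (f : V → V')
    (A B : List V') (h : Ed H p q) :
    Ed (H.map (fun X => A ++ X.map f ++ B)) (f p) (f q) := by
  obtain ⟨S, hS, X, Y, hXY⟩ := h
  refine ⟨A ++ S.map f ++ B, List.mem_map.2 ⟨S, hS, rfl⟩, A ++ X.map f, Y.map f ++ B, ?_⟩
  rw [← hXY]
  simp [List.append_assoc]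

private theorem pass_el_frame {V V' : Type} {H : List (List V)} {p : V} (f : V → V')
    (A B : List V') (h : Els H p) :
    Els (H.map (fun X => A ++ X.map f ++ B)) (f p) := by
  obtain ⟨S, hS, hp⟩ := h
  refine ⟨A ++ S.map f ++ B, List.mem_map.2 ⟨S, hS, rfl⟩, ?_⟩
  simp only [List.mem_append, List.mem_map]
  exact Or.inl (Or.inr ⟨p, hp, rfl⟩)

private theorem pass_frame_el {V V' : Type} {H : List (List V)} (f : V → V')
    (A B : List V') {v : V'} (h : Els (H.map (fun X => A ++ X.map f ++ B)) v) :
    v ∈ A ∨ v ∈ B ∨ ∃ p, Els H p ∧ v = f p := by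
  obtain ⟨S, hS, hv⟩ := h
  obtain ⟨X, hX, rfl⟩ := List.mem_map.1 hS
  simp only [List.mem_append, List.mem_map] at hv
  rcases hv with (hv | ⟨p, hp, rfl⟩) | hv
  · exact Or.inl hv
  · exact Or.inr (Or.inr ⟨p, ⟨X, hX, hp⟩, rfl⟩)
  · exact Or.inr (Or.inl hv)

private theorem pass_els_append {V : Type} {H H' : List (List V)} {v : V} :
    Els (H ++ H') v ↔ Els H v ∨ Els H' v := by
  constructor
  · rintro ⟨S, hS, hv⟩
    rcases List.mem_append.1 hS with h | h
    · exact Or.inl ⟨S, h, hv⟩
    · exact Or.inr ⟨S, h, hv⟩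
  · rintro (⟨S, hS, hv⟩ | ⟨S, hS, hv⟩)
    · exact ⟨S, List.mem_append_left _ hS, hv⟩
    · exact ⟨S, List.mem_append_right _ hS, hv⟩

private theorem pass_ed_left {V : Type} {H H' : List (List V)} {p q : V} (h : Ed H p q) :
    Ed (H ++ H') p q := by
  obtain ⟨S, hS, hv⟩ := h
  exact ⟨S, List.mem_append_left _ hS, hv⟩

private theorem pass_ed_right {V : Type} {H H' : List (List V)} {p q : V} (h : Ed H' p q) :
    Ed (H ++ H') p q := by
  obtain ⟨S, hS, hv⟩ := h
  exact ⟨S, List.mem_append_right _ hS, hv⟩

/-- The names `f (W+1), .., f (W+w)`. -/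
private def passSeg {V : Type} (f : ℕ → V) (W w : ℕ) : List V :=
  (List.range w).map (fun i => f (W + 1 + i))

private theorem pass_mem_seg {V : Type} {f : ℕ → V} {W w : ℕ} {v : V} :
    v ∈ passSeg f W w ↔ ∃ i, i < w ∧ v = f (W + 1 + i) := by
  unfold passSeg
  simp only [List.mem_map, List.mem_range]
  constructor
  · rintro ⟨i, hi, rfl⟩; exact ⟨i, hi, rfl⟩
  · rintro ⟨i, hi, rfl⟩; exact ⟨i, hi, rfl⟩

private theorem pass_seg_nodup {V : Type} {f : ℕ → V} (hf : Function.Injective f) (W w : ℕ) :
    (passSeg f W w).Nodup := by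
  unfold passSeg
  refine List.Nodup.map ?_ List.nodup_range
  intro i j hij
  have := hf hij
  omega

private theorem pass_stkR_add {V : Type} (f : ℕ → V) (W w : ℕ) :
    stkR f (W + w) = stkR f W ++ passSeg f W w := by
  unfold stkR passSeg
  rw [show W + w + 1 = (W + 1) + w by omega, List.range_add, List.map_append, List.map_map]
  rfl

private theorem pass_stkL_eq {V : Type} (f : ℕ → V) (w : ℕ) : stkL f w = (stkR f w).reverse := by
  unfold stkL stkR
  rw [List.map_reverse]

private theorem pass_stkL_add {V : Type} (f : ℕ → V) (W w : ℕ) :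
    stkL f (W + w) = (passSeg f W w).reverse ++ stkL f W := by
  rw [pass_stkL_eq, pass_stkL_eq, pass_stkR_add, List.reverse_append]

private theorem pass_stkR_shift {V : Type} (f : ℕ → V) (W w : ℕ) :
    stkR (fun i => f (W + i)) w = f W :: passSeg f W w := by
  unfold stkR passSeg
  rw [List.range_succ_eq_map, List.map_cons, List.map_map]
  simp only [Nat.add_zero, List.cons.injEq, true_and]
  apply List.map_congr_left
  intro i _
  simp only [Function.comp]
  congr 1
  omega

private theorem pass_stkL_shift {V : Type} (f : ℕ → V) (W w : ℕ) :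
    stkL (fun i => f (W + i)) w = (passSeg f W w).reverse ++ [f W] := by
  rw [pass_stkL_eq, pass_stkR_shift, List.reverse_cons]

private theorem pass_mem_stkR {V : Type} {f : ℕ → V} {w : ℕ} {v : V} :
    v ∈ stkR f w ↔ ∃ i, i ≤ w ∧ v = f i := by
  unfold stkR
  simp only [List.mem_map, List.mem_range]
  constructor
  · rintro ⟨i, hi, rfl⟩; exact ⟨i, by omega, rfl⟩
  · rintro ⟨i, hi, rfl⟩; exact ⟨i, by omega, rfl⟩

private theorem pass_mem_stkL {V : Type} {f : ℕ → V} {w : ℕ} {v : V} :
    v ∈ stkL f w ↔ ∃ i, i ≤ w ∧ v = f i := by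
  rw [pass_stkL_eq, List.mem_reverse, pass_mem_stkR]

private theorem pass_mem_stk {M : Type} {w : ℕ} {v : Sym M} :
    v ∈ stk M w ↔ ∃ i, i ≤ w ∧ (v = Sym.L i ∨ v = Sym.R i) := by
  unfold stk
  rw [List.mem_append, pass_mem_stkL, pass_mem_stkR]
  constructor
  · rintro (⟨i, hi, rfl⟩ | ⟨i, hi, rfl⟩)
    · exact ⟨i, hi, Or.inl rfl⟩
    · exact ⟨i, hi, Or.inr rfl⟩
  · rintro ⟨i, hi, rfl | rfl⟩
    · exact Or.inl ⟨i, hi, rfl⟩
    · exact Or.inr ⟨i, hi, rfl⟩

private theorem pass_phi_stk {M : Type} (w n : ℕ) :
    (stk M w).map (phi w n) =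
      (passSeg (Sym.L (M := ℕ × M)) (n * w) w).reverse ++
        [Sym.L (M := ℕ × M) (n * w), Sym.R (n * w)] ++ passSeg (Sym.R (M := ℕ × M)) (n * w) w := by
  have h1 : (stkL (Sym.L (M := M)) w).map (phi w n) =
      stkL (fun i => Sym.L (M := ℕ × M) (n * w + i)) w := by
    unfold stkL
    rw [List.map_map]
    rfl
  have h2 : (stkR (Sym.R (M := M)) w).map (phi w n) =
      stkR (fun i => Sym.R (M := ℕ × M) (n * w + i)) w := by
    unfold stkR
    rw [List.map_map]
    rfl
  unfold stk
  rw [List.map_append, h1, h2, pass_stkL_shift, pass_stkR_shift]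
  simp

private theorem pass_L_inj {M : Type} : Function.Injective (Sym.L (M := M)) := by
  intro i j h
  injection h

private theorem pass_R_inj {M : Type} : Function.Injective (Sym.R (M := M)) := by
  intro i j h
  injection h

private theorem pass_phi_inj {M : Type} (w n : ℕ) : Function.Injective (phi (M := M) w n) := by
  intro p q h
  cases p <;> cases q <;> simp only [phi, Sym.L.injEq, Sym.R.injEq, Sym.new.injEq,
    Prod.mk.injEq, reduceCtorEq, true_and] at h ⊢
  · omega
  · omega
  · exact h

theorem rounds_exist {w : ℕ} {M : Type} {H : List (List (Sym M))} (hg : Gad w M H) (n : ℕ) :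
    ∃ H', Rounds w M H n H' := by
  induction n with
  | zero =>
    refine ⟨[[Sym.L 0, Sym.R 0]], ?_, ?_, ?_, ?_⟩
    · have h0 : stk (ℕ × M) (0 * w) = [Sym.L 0, Sym.R 0] := by
        rw [Nat.zero_mul]
        rfl
      rw [h0, Nat.zero_mul]
      refine Hst.refl rfl rfl ?_
      simp
    · rintro v ⟨S, hS, hv⟩
      left
      rw [List.mem_singleton] at hS
      subst hS
      rw [pass_mem_stk]
      simp only [List.mem_cons, List.not_mem_nil, or_false] at hv
      exact ⟨0, Nat.zero_le _, hv⟩
    · intro j hj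
      exact absurd hj (Nat.not_lt_zero _)
    · intro j hj
      exact absurd hj (Nat.not_lt_zero _)
  | succ n ih =>
    obtain ⟨H', h'⟩ := ih
    set W := n * w with hW
    have hW' : (n + 1) * w = W + w := by rw [hW, Nat.add_mul, Nat.one_mul]
    set A : List (Sym (ℕ × M)) := (passSeg Sym.L W w).reverse with hA
    set B : List (Sym (ℕ × M)) := passSeg Sym.R W w with hB
    have hAn : A.Nodup := by
      rw [hA]
      exact List.nodup_reverse.2 (pass_seg_nodup pass_L_inj W w)
    have hBn : B.Nodup := pass_seg_nodup pass_R_inj W w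
    have memA : ∀ v, v ∈ A ↔ ∃ i, i < w ∧ v = Sym.L (W + 1 + i) := by
      intro v
      rw [hA, List.mem_reverse, pass_mem_seg]
    have memB : ∀ v, v ∈ B ↔ ∃ i, i < w ∧ v = Sym.R (W + 1 + i) := by
      intro v
      rw [hB, pass_mem_seg]
    have hAB : ∀ x ∈ A, x ∉ B := by
      intro x hx hx'
      obtain ⟨i, _, rfl⟩ := (memA x).1 hx
      obtain ⟨j, _, hj⟩ := (memB _).1 hx'
      cases hj
    -- the elements of the old history
    have hEl : ∀ v, Els H' v → v ∉ A ∧ v ∉ B := by
      intro v hv
      rcases h'.els v hv with h | ⟨j, m, hj, rfl⟩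
      · obtain ⟨i, hi, hi'⟩ := pass_mem_stk.1 h
        constructor
        · intro hA'
          obtain ⟨k, _, rfl⟩ := (memA v).1 hA'
          rcases hi' with h1 | h1
          · injection h1 with h2
            omega
          · cases h1
        · intro hB'
          obtain ⟨k, _, rfl⟩ := (memB v).1 hB'
          rcases hi' with h1 | h1
          · cases h1
          · injection h1 with h2
            omega
      · constructor
        · intro hA'
          obtain ⟨k, _, hk⟩ := (memA _).1 hA'
          cases hk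
        · intro hB'
          obtain ⟨k, _, hk⟩ := (memB _).1 hB'
          cases hk
    have hw : 1 ≤ w := hg.pos
    have hA0 : ∃ A', A = Sym.L (W + w) :: A' := by
      obtain ⟨w', rfl⟩ : ∃ w', w = w' + 1 := ⟨w - 1, by omega⟩
      refine ⟨(passSeg Sym.L W w').reverse, ?_⟩
      rw [hA]
      unfold passSeg
      rw [List.range_succ, List.map_append, List.reverse_append]
      simp only [List.map_cons, List.map_nil, List.reverse_cons, List.reverse_nil,
        List.nil_append, List.singleton_append, List.cons.injEq, and_true]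
      congr 1
      omega
    have hB0 : ∃ B', B = B' ++ [Sym.R (W + w)] := by
      obtain ⟨w', rfl⟩ : ∃ w', w = w' + 1 := ⟨w - 1, by omega⟩
      refine ⟨passSeg Sym.R W w', ?_⟩
      rw [hB]
      unfold passSeg
      rw [List.range_succ, List.map_append]
      simp only [List.map_cons, List.map_nil, List.append_cancel_left_eq, List.cons.injEq,
        and_true]
      congr 1
      omega
    obtain ⟨A', hA'⟩ := hA0
    obtain ⟨B', hB'⟩ := hB0
    have hst1 := h'.hst.frame id A B (fun p q _ _ h => h) hAn hBn hAB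
      (fun p hp => (hEl p hp).1) (fun p hp => (hEl p hp).2) (Sym.L (W + w)) (Sym.R (W + w))
      (by rw [hA']; rfl) (by rw [hB', ← List.cons_append]; exact List.getLast?_concat)
    have hst2 := hg.hst.frame (phi w n) [] [] (fun p q _ _ h => pass_phi_inj w n h) List.nodup_nil
      List.nodup_nil (fun x hx => absurd hx List.not_mem_nil)
      (fun p _ => List.not_mem_nil) (fun p _ => List.not_mem_nil) (Sym.L (W + w)) (Sym.R (W + w))
      rfl rfl
    rw [List.nil_append, List.append_nil, List.nil_append, List.append_nil, pass_phi_stk] at hst2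
    rw [List.map_id, List.map_id] at hst1
    have hst := hst1.trans hst2 (by
      intro v hv1 hv2
      rcases pass_frame_el _ _ _ hv2 with h | h | ⟨p, hp, rfl⟩
      · exact absurd h List.not_mem_nil
      · exact absurd h List.not_mem_nil
      rcases hg.els p hp with h | ⟨m, rfl⟩
      · have h2 : phi w n p ∈ (stk M w).map (phi w n) := List.mem_map.2 ⟨p, h, rfl⟩
        rw [pass_phi_stk] at h2
        exact h2
      · exfalso
        rcases pass_frame_el _ _ _ hv1 with h | h | ⟨q, hq, hq'⟩
        · obtain ⟨k, _, hk⟩ := (memA _).1 h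
          cases hk
        · obtain ⟨k, _, hk⟩ := (memB _).1 h
          cases hk
        · rcases h'.els q hq with h | ⟨j, m', hj, rfl⟩
          · obtain ⟨i, hi, h1 | h1⟩ := pass_mem_stk.1 h
            · rw [h1] at hq'
              cases hq'
            · rw [h1] at hq'
              cases hq'
          · simp only [phi, id, Sym.new.injEq, Prod.mk.injEq] at hq'
            omega)
    refine ⟨H'.map (fun X => A ++ X.map id ++ B) ++
      H.map (fun X => [] ++ X.map (phi w n) ++ []), ?_, ?_, ?_, ?_⟩
    · rw [hW']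
      have h1 : stk (ℕ × M) (W + w) = A ++ stk (ℕ × M) W ++ B := by
        unfold stk
        rw [pass_stkL_add, pass_stkR_add]
        simp [hA, hB]
      rw [h1]
      exact hst
    · intro v hv
      rcases pass_els_append.1 hv with hv | hv
      · rcases pass_frame_el _ _ _ hv with h | h | ⟨p, hp, hvp⟩
        · obtain ⟨i, hi, rfl⟩ := (memA v).1 h
          left
          rw [hW', pass_mem_stk]
          exact ⟨W + 1 + i, by omega, Or.inl rfl⟩
        · obtain ⟨i, hi, rfl⟩ := (memB v).1 h
          left
          rw [hW', pass_mem_stk]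
          exact ⟨W + 1 + i, by omega, Or.inr rfl⟩
        · have hvp' : v = p := hvp
          rw [hvp']
          rcases h'.els p hp with h | ⟨j, m, hj, h1⟩
          · left
            obtain ⟨i, hi, h1⟩ := pass_mem_stk.1 h
            rw [hW', pass_mem_stk]
            exact ⟨i, by omega, h1⟩
          · right
            exact ⟨j, m, by omega, h1⟩
      · rcases pass_frame_el _ _ _ hv with h | h | ⟨p, hp, rfl⟩
        · exact absurd h List.not_mem_nil
        · exact absurd h List.not_mem_nil
        · rcases hg.els p hp with h | ⟨m, rfl⟩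
          · left
            obtain ⟨i, hi, rfl | rfl⟩ := pass_mem_stk.1 h
            · rw [hW', pass_mem_stk]
              exact ⟨n * w + i, by omega, Or.inl rfl⟩
            · rw [hW', pass_mem_stk]
              exact ⟨n * w + i, by omega, Or.inr rfl⟩
          · right
            exact ⟨n, m, by omega, rfl⟩
    · intro j hj p q hpq
      rcases Nat.lt_succ_iff_lt_or_eq.1 hj with hj | rfl
      · exact pass_ed_left (pass_ed_frame id A B (h'.ed j hj p q hpq))
      · exact pass_ed_right (pass_ed_frame (phi w j) [] [] hpq)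
    · intro j hj p hp
      rcases Nat.lt_succ_iff_lt_or_eq.1 hj with hj | rfl
      · exact pass_els_append.2 (Or.inl (pass_el_frame id A B (h'.el j hj p hp)))
      · exact pass_els_append.2 (Or.inr (pass_el_frame (phi w j) [] [] hp))

end Pool.Agent.PageUnb
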