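/-
MP_a4f561_co, S10566: Fstar k => Strong k, and Strong 0 (second copy, helper39).
-/
import Pool.Agent.PageUnb.LemG
import Pool.Agent.PageUnb.Pass
import Pool.Agent.PageUnb.HistF

set_option autoImplicit false

namespace Pool.Agent.PageUnb

theorem S39.phi_inj {M : Type} {w : ℕ} (b : ℕ) (p q : Sym M) (e : phi w b p = phi w b q) :
    p = q := by
  cases p <;> cases q <;> simp [phi] at e ⊢ <;> exact e

theorem strong_of_fstar39 {K k : ℕ} (h : Fstar K k) : Strong K k := by
  obtain ⟨w, M, H, hg, hF⟩ := h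
  obtain ⟨n, hn, hround⟩ := good_round hg K
  obtain ⟨H', hR⟩ := rounds_exist hg n
  have hw := hg.pos
  have hnw : 1 ≤ n * w := Nat.mul_pos hn hw
  refine ⟨n * w, ℕ × M, H', ⟨hnw, hR.hst, ?_⟩, ?_⟩
  · intro v hv
    rcases hR.els v hv with h | ⟨j, m, _, rfl⟩
    · exact Or.inl h
    · exact Or.inr ⟨_, rfl⟩
  · intro ord hG
    obtain ⟨b, hb1, hbn, hout⟩ := hround H' hR ord hG
    have G1 : Good K H (fun v => ord (phi w b v)) := hG.pull (phi w b) (hR.ed b hbn) (hR.el b hbn)
      (fun p q _ _ e => S39.phi_inj b p q e)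
    have hs := hG.sorted hR.hst.mem_fst
    have hbw : 1 ≤ b * w := Nat.mul_pos hb1 hw
    have hbnw : b * w ≤ n * w := Nat.mul_le_mul_right w hbn.le
    rw [stk, List.pairwise_append, stkL_succ, stkR_succ] at hs
    obtain ⟨hs1, hs2, hLR⟩ := hs
    have hL := (List.pairwise_append.1 hs1).2.2
    have hRR := (List.pairwise_cons.1 hs2).1
    have e1 : ord (Sym.L (b * w)) < ord (Sym.L 0) := by
      refine hL _ ?_ _ (by simp)
      simp only [List.mem_map, List.mem_reverse, List.mem_range]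
      exact ⟨b * w - 1, by omega, by congr 1; omega⟩
    have e2 : ord (Sym.R 0) < ord (Sym.R (b * w)) := by
      refine hRR _ ?_
      simp only [List.mem_map, List.mem_range]
      exact ⟨b * w - 1, by omega, by congr 1; omega⟩
    have e3 : ord (Sym.L (M := ℕ × M) 0) < ord (Sym.R 0) :=
      hLR _ (by simp) _ (by simp)
    obtain ⟨T, hT, hl, hc⟩ := hF _ G1 (ord (Sym.L 0)) (by simpa [phi] using e1.le)
      (by simpa [phi] using e3.trans e2)
    refine ⟨T.map (fun e => (phi w b e.1, phi w b e.2)),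
      Tw.map (phi w b) (hR.ed b hbn) hT, by simp [hl], ?_⟩
    intro e he
    obtain ⟨e0, he0, rfl⟩ := List.mem_map.1 he
    have h1 := hc e0 he0
    have h2 := hout _ (hT.2.1 e0 he0).fst
    have h3 := hout _ (hT.2.1 e0 he0).snd
    dsimp only at h1 ⊢
    constructor <;> omega

theorem strong_zero39 (K : ℕ) : Strong K 0 := by
  obtain ⟨H, hH, hel⟩ := Hst.block (a := Sym.L (M := Unit) 1) (z := Sym.R 1) [Sym.L 1]
    [Sym.L 0, Sym.R 0] [Sym.R 1] (by simp) rfl rfl
  refine ⟨1, Unit, H, ⟨le_refl _, hH, fun v hv => Or.inl (hel v hv)⟩, ?_⟩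
  intro ord _
  refine ⟨[], ⟨List.Pairwise.nil, ?_, ?_⟩, rfl, ?_⟩ <;> intro e he <;> simp at he

end Pool.Agent.PageUnb
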