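/-
MP_a4f561_co, S10566: the step from a spanning k-twist to (k+1)-twists covering all slots.
-/
import Pool.Agent.PageUnb.Basic
import Pool.Agent.PageUnb.Hist
import Pool.Agent.PageUnb.HistF

set_option autoImplicit false

namespace Pool.Agent.PageUnb

open Sym

/-- Names of the new elements of the next gadget. -/
inductive N2 (M : Type) : Type
  | p (s : Sym M) : N2 M
  | gl (i : ℕ) : N2 M
  | gr (i : ℕ) : N2 M
  | b (m : M) : N2 M
  | c (m : M) : N2 M

variable {M : Type}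

def f1 (s : Sym M) : Sym (N2 M) := new (N2.p s)

def rr : ℕ → Sym (N2 M)
  | 0 => f1 (L 0)
  | i + 1 => new (N2.gl (i + 1))

def ll : ℕ → Sym (N2 M)
  | 0 => f1 (R 0)
  | i + 1 => new (N2.gr (i + 1))

def f3 : Sym M → Sym (N2 M)
  | L i => L (i + 1)
  | R i => rr i
  | new m => new (N2.b m)

def f4 : Sym M → Sym (N2 M)
  | L i => ll i
  | R i => R (i + 1)
  | new m => new (N2.c m)

theorem f1_inj : Function.Injective (f1 (M := M)) := by
  intro p q h
  simpa [f1] using h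

theorem rr_inj : Function.Injective (rr (M := M)) := by
  intro p q h
  cases p <;> cases q <;> simp_all [rr, f1]

theorem ll_inj : Function.Injective (ll (M := M)) := by
  intro p q h
  cases p <;> cases q <;> simp_all [ll, f1]

theorem rr_ne_L (i j : ℕ) : rr (M := M) i ≠ L j := by
  cases i <;> simp [rr, f1]

theorem rr_ne_R (i j : ℕ) : rr (M := M) i ≠ R j := by
  cases i <;> simp [rr, f1]

theorem ll_ne_L (i j : ℕ) : ll (M := M) i ≠ L j := by
  cases i <;> simp [ll, f1]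

theorem ll_ne_R (i j : ℕ) : ll (M := M) i ≠ R j := by
  cases i <;> simp [ll, f1]

theorem rr_ne_ll (i j : ℕ) : rr (M := M) i ≠ ll j := by
  cases i <;> cases j <;> simp [ll, rr, f1]

theorem rr_ne_b (i : ℕ) (m : M) : rr (M := M) i ≠ new (N2.b m) := by
  cases i <;> simp [rr, f1]

theorem rr_ne_c (i : ℕ) (m : M) : rr (M := M) i ≠ new (N2.c m) := by
  cases i <;> simp [rr, f1]

theorem ll_ne_b (i : ℕ) (m : M) : ll (M := M) i ≠ new (N2.b m) := by
  cases i <;> simp [ll, f1]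

theorem ll_ne_c (i : ℕ) (m : M) : ll (M := M) i ≠ new (N2.c m) := by
  cases i <;> simp [ll, f1]

theorem f3_inj : Function.Injective (f3 (M := M)) := by
  intro p q h
  rcases p with i | i | m <;> rcases q with j | j | n <;> simp only [f3] at h
  · simpa using h
  · exact absurd h.symm (rr_ne_L _ _)
  · simp at h
  · exact absurd h (rr_ne_L _ _)
  · rw [rr_inj h]
  · exact absurd h (rr_ne_b _ _)
  · simp at h
  · exact absurd h.symm (rr_ne_b _ _)
  · simpa using h

theorem f4_inj : Function.Injective (f4 (M := M)) := by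
  intro p q h
  rcases p with i | i | m <;> rcases q with j | j | n <;> simp only [f4] at h
  · rw [ll_inj h]
  · exact absurd h (ll_ne_R _ _)
  · exact absurd h (ll_ne_c _ _)
  · exact absurd h.symm (ll_ne_R _ _)
  · simpa using h
  · simp at h
  · exact absurd h.symm (ll_ne_c _ _)
  · simp at h
  · simpa using h


def OL (M : Type) (w : ℕ) : List (Sym (N2 M)) := stkL (fun i => L (i + 1)) w
def QR (M : Type) (w : ℕ) : List (Sym (N2 M)) := stkR (fun i => R (i + 1)) w
def lt (M : Type) (w : ℕ) : List (Sym (N2 M)) := (List.range w).reverse.map (fun i => f1 (L (i + 1)))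
def rt (M : Type) (w : ℕ) : List (Sym (N2 M)) := (List.range w).map (fun i => f1 (R (i + 1)))
def gL (M : Type) (w : ℕ) : List (Sym (N2 M)) := (List.range w).map (fun i => rr (i + 1))
def gR (M : Type) (w : ℕ) : List (Sym (N2 M)) := (List.range w).reverse.map (fun i => ll (i + 1))

theorem mem_OL {w : ℕ} {v : Sym (N2 M)} : v ∈ OL M w ↔ ∃ i ≤ w, v = L (i + 1) := mem_stkL
theorem mem_QR {w : ℕ} {v : Sym (N2 M)} : v ∈ QR M w ↔ ∃ i ≤ w, v = R (i + 1) := mem_stkR
theorem mem_lt {w : ℕ} {v : Sym (N2 M)} : v ∈ lt M w ↔ ∃ i < w, v = f1 (L (i + 1)) := by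
  simp only [lt, List.mem_map, List.mem_reverse, List.mem_range, eq_comm]
theorem mem_rt {w : ℕ} {v : Sym (N2 M)} : v ∈ rt M w ↔ ∃ i < w, v = f1 (R (i + 1)) := by
  simp only [rt, List.mem_map, List.mem_range, eq_comm]
theorem mem_gL {w : ℕ} {v : Sym (N2 M)} : v ∈ gL M w ↔ ∃ i < w, v = new (N2.gl (i + 1)) := by
  simp only [gL, List.mem_map, List.mem_range, eq_comm, rr]
theorem mem_gR {w : ℕ} {v : Sym (N2 M)} : v ∈ gR M w ↔ ∃ i < w, v = new (N2.gr (i + 1)) := by
  simp only [gR, List.mem_map, List.mem_reverse, List.mem_range, eq_comm, ll]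

theorem stkL_head {V : Type} (f : ℕ → V) (w : ℕ) :
    stkL f w = f w :: (List.range w).reverse.map f := by
  simp [stkL, List.range_succ]

theorem stkR_last {V : Type} (f : ℕ → V) (w : ℕ) :
    stkR f w = (List.range w).map f ++ [f w] := by
  simp [stkR, List.range_succ]

theorem OL_head (w : ℕ) : (OL M w).head? = some (L (w + 1)) := by
  simp [OL, stkL_head]

theorem QR_last (w : ℕ) : (QR M w).getLast? = some (R (w + 1)) := by
  simp [QR, stkR_last]

theorem S2_nodup (w : ℕ) : (OL M w ++ [L 0] ++ lt M w ++ [f1 (L 0)] ++ gL M w ++ gR M w ++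
    [f1 (R 0)] ++ rt M w ++ [R 0] ++ QR M w).Nodup := by
  have h1 : (OL M w).Nodup := stkL_nodup (by simp)
  have h2 : (QR M w).Nodup := stkR_nodup (by simp)
  have h3 : (lt M w).Nodup :=
    (List.nodup_reverse.2 List.nodup_range).map (fun i j h => by simpa [f1] using h)
  have h4 : (rt M w).Nodup := List.nodup_range.map (fun i j h => by simpa [f1] using h)
  have h5 : (gL M w).Nodup := List.nodup_range.map (fun i j h => by simpa [rr] using h)
  have h6 : (gR M w).Nodup :=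
    (List.nodup_reverse.2 List.nodup_range).map (fun i j h => by simpa [ll] using h)
  simp only [List.nodup_append, List.mem_append, List.mem_singleton, mem_OL, mem_QR, mem_lt,
    mem_rt, mem_gL, mem_gR, f1, ne_eq]
  refine ⟨⟨⟨⟨⟨⟨⟨⟨⟨h1, by simp, ?_⟩, h3, ?_⟩, by simp, ?_⟩, h5, ?_⟩, h6, ?_⟩, by simp, ?_⟩, h4, ?_⟩,
    by simp, ?_⟩, h2, ?_⟩
  all_goals
    intro a ha b hb e
    subst e
    rcases a with i | i | ((i | i | m) | i | i | m | m) <;>
      simp only [reduceCtorEq, Sym.L.injEq, Sym.R.injEq, Sym.new.injEq, N2.p.injEq, N2.gl.injEq,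
        N2.gr.injEq, N2.b.injEq, N2.c.injEq, and_false, exists_false, false_or, or_false] at ha hb
  all_goals first
    | omega
    | (obtain ⟨j, hj, hb⟩ := hb; omega)
    | (obtain ⟨j, hj, ha⟩ := ha; omega)
    | (obtain ⟨j, hj, ha⟩ := ha; obtain ⟨k, hk, hb⟩ := hb; omega)


/-- The largest state. -/
def S2 (M : Type) (w : ℕ) : List (Sym (N2 M)) :=
  OL M w ++ [L 0] ++ lt M w ++ [f1 (L 0)] ++ gL M w ++ gR M w ++
    [f1 (R 0)] ++ rt M w ++ [R 0] ++ QR M w

theorem mem_S2 {w : ℕ} {v : Sym (N2 M)} : v ∈ S2 M w ↔ v ∈ OL M w ∨ v = L 0 ∨ v ∈ lt M w ∨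
    v = f1 (L 0) ∨ v ∈ gL M w ∨ v ∈ gR M w ∨ v = f1 (R 0) ∨ v ∈ rt M w ∨ v = R 0 ∨ v ∈ QR M w := by
  simp only [S2, List.mem_append, List.mem_singleton, or_assoc]

theorem S2_bc {w : ℕ} {v : Sym (N2 M)} (h : v ∈ S2 M w) :
    ((∀ m, v ≠ new (N2.b m)) ∧ ∀ m, v ≠ new (N2.c m)) ∧
      (v ∈ stk (N2 M) (w + 1) ∨ ∃ x, v = new x) := by
  rw [mem_S2] at h
  refine ⟨⟨?_, ?_⟩, ?_⟩
  · rintro m rfl
    simp [mem_OL, mem_QR, mem_lt, mem_rt, mem_gL, mem_gR, f1] at h
  · rintro m rfl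
    simp [mem_OL, mem_QR, mem_lt, mem_rt, mem_gL, mem_gR, f1] at h
  · rcases v with i | i | x
    · left
      simp only [mem_OL, mem_QR, mem_lt, mem_rt, mem_gL, mem_gR, f1, reduceCtorEq, and_false,
        exists_false, or_false, false_or, Sym.L.injEq] at h
      rw [mem_stk]
      refine ⟨i, ?_, Or.inl rfl⟩
      rcases h with ⟨j, hj, h⟩ | h <;> omega
    · left
      simp only [mem_OL, mem_QR, mem_lt, mem_rt, mem_gL, mem_gR, f1, reduceCtorEq, and_false,
        exists_false, or_false, false_or, Sym.R.injEq] at h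
      rw [mem_stk]
      refine ⟨i, ?_, Or.inr rfl⟩
      rcases h with h | ⟨j, hj, h⟩ <;> omega
    · right
      exact ⟨x, rfl⟩

theorem stk_f1 (w : ℕ) : (stk M w).map f1 = lt M w ++ [f1 (L 0)] ++ ([f1 (R 0)] ++ rt M w) := by
  rw [stk_map, stkL_succ, stkR_succ]
  rfl

theorem stk_f3 (w : ℕ) : (stk M w).map f3 = OL M w ++ ([f1 (L 0)] ++ gL M w) := by
  rw [stk_map, stkR_succ]
  rfl

theorem stk_f4 (w : ℕ) : (stk M w).map f4 = gR M w ++ [f1 (R 0)] ++ QR M w := by
  rw [stk_map, stkL_succ]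
  rfl

theorem stk_N2 (w : ℕ) : stk (N2 M) (w + 1) = OL M w ++ [L 0] ++ ([R 0] ++ QR M w) := by
  rw [stk, stkL_succ, stkR_succ]
  rfl


theorem glR (w : ℕ) : (([R 0] ++ QR M w : List (Sym (N2 M)))).getLast? = some (R (w + 1)) := by
  rw [List.getLast?_append, QR_last]; rfl

theorem glR' (X : List (Sym (N2 M))) (w : ℕ) : (X ++ QR M w).getLast? = some (R (w + 1)) := by
  rw [List.getLast?_append, QR_last]; rfl

theorem glR2 (X : List (Sym (N2 M))) (w : ℕ) :
    (X ++ ([R 0] ++ QR M w)).getLast? = some (R (w + 1)) := by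
  rw [List.getLast?_append, glR]; rfl

theorem hdL (X : List (Sym (N2 M))) (w : ℕ) : (OL M w ++ X).head? = some (L (w + 1)) := by
  rw [List.head?_append, OL_head]; rfl

theorem frame3_nodup (w : ℕ) :
    (gR M w ++ [f1 (R 0)] ++ rt M w ++ [R 0] ++ QR M w).Nodup := by
  have e : S2 M w = (OL M w ++ [L 0] ++ lt M w ++ [f1 (L 0)] ++ gL M w) ++
      (gR M w ++ [f1 (R 0)] ++ rt M w ++ [R 0] ++ QR M w) := by simp [S2]
  have h : (S2 M w).Nodup := S2_nodup (M := M) w
  rw [e] at h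
  exact (List.nodup_append.1 h).2.1

/-- Phases 1 and 2. -/
theorem partA {w : ℕ} {H : List (List (Sym M))} (hg : Gad w M H) :
    ∃ HA : List (List (Sym (N2 M))),
      Hst (L (w + 1)) (R (w + 1)) (OL M w ++ [L 0] ++ ([R 0] ++ QR M w)) (S2 M w) HA ∧
      (∀ v, Els HA v → v ∈ S2 M w ∨ ∃ s, v = f1 s) ∧
      (∀ X ∈ H, (OL M w ++ [L 0]) ++ X.map f1 ++ ([R 0] ++ QR M w) ∈ HA) := by
  have hw := hg.pos
  have hH := hg.hst
  have n2 : (S2 M w).Nodup := S2_nodup (M := M) w
  have sub : ∀ T : List (Sym (N2 M)), T.Sublist (S2 M w) → T.Nodup := fun T hT => n2.sublist hT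
  -- frame 1
  have F1 := hH.symm.frame f1 (OL M w ++ [L 0]) ([R 0] ++ QR M w)
    (fun p q _ _ h => f1_inj h) (sub _ (by simp [S2]))
    (sub _ (by rw [S2, List.append_assoc]; exact List.sublist_append_right _ _))
    (by
      intro x hx hy
      rcases x with i | i | x <;>
        simp [mem_OL, mem_QR] at hx hy)
    (by
      intro p _ hx
      simp [mem_OL, f1] at hx)
    (by
      intro p _ hx
      simp [mem_QR, f1] at hx)
    (L (w + 1)) (R (w + 1)) (by rw [List.append_assoc]; exact hdL _ w) (by exact glR2 [f1 (R w)] w)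
  obtain ⟨K1, hK1, eK1⟩ := Hst.block (a := L (w + 1)) (z := R (w + 1)) (OL M w ++ [L 0])
    [f1 (L w), f1 (R w)] ([R 0] ++ QR M w) (F1.nodup _ F1.mem_fst) (hdL _ w)
    (glR w)
  have G1 := hK1.symm.trans F1 (fun v h1 _ => eK1 v (Els_reverse.1 h1))
  obtain ⟨K2, hK2, eK2⟩ := Hst.block (a := L (w + 1)) (z := R (w + 1))
    (OL M w ++ [L 0] ++ lt M w ++ [f1 (L 0)])
    (gL M w ++ gR M w) ([f1 (R 0)] ++ rt M w ++ [R 0] ++ QR M w) (sub _ (by simp [S2]))
    (by simp only [List.append_assoc]; exact hdL _ w) (glR' _ w)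
  have e2 : (OL M w ++ [L 0] ++ lt M w ++ [f1 (L 0)]) ++ ([f1 (R 0)] ++ rt M w ++ [R 0] ++ QR M w)
    = (OL M w ++ [L 0]) ++ (stk M w).map f1 ++ ([R 0] ++ QR M w) := by
    rw [stk_f1]; simp
  have e2' : (OL M w ++ [L 0] ++ lt M w ++ [f1 (L 0)]) ++ (gL M w ++ gR M w) ++
      ([f1 (R 0)] ++ rt M w ++ [R 0] ++ QR M w) = S2 M w := by
    simp [S2]
  rw [e2, e2'] at hK2
  rw [e2'] at eK2
  have elG1 := fun v (hv : Els (K1.reverse ++ List.map (fun X => OL M w ++ [L 0] ++
      List.map f1 X ++ ([R 0] ++ QR M w)) H.reverse) v) =>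
    show v ∈ OL M w ++ [L 0] ∨ v ∈ [R 0] ++ QR M w ∨ ∃ s, v = f1 s by
      rcases Els_append.1 hv with h | h
      · have := eK1 v (Els_reverse.1 h)
        simp only [List.mem_append, List.mem_cons, List.not_mem_nil, or_false] at this ⊢
        rcases this with (h | h | h) | h
        · exact Or.inl h
        · exact Or.inr (Or.inr ⟨_, h⟩)
        · exact Or.inr (Or.inr ⟨_, h⟩)
        · exact Or.inr (Or.inl h)
      · rcases Els_frame h with h | h | ⟨s, _, h⟩
        · exact Or.inl h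
        · exact Or.inr (Or.inl h)
        · exact Or.inr (Or.inr ⟨s, h⟩)
  have G2 := G1.trans hK2.symm (by
    intro v h1 h2
    have h3 := eK2 v (Els_reverse.1 h2)
    have h4 := elG1 v h1
    rw [mem_S2] at h3
    have hgL : v ∉ gL M w := by
      intro h
      obtain ⟨i, _, rfl⟩ := mem_gL.1 h
      simp [mem_OL, mem_QR, f1] at h4
    have hgR : v ∉ gR M w := by
      intro h
      obtain ⟨i, _, rfl⟩ := mem_gR.1 h
      simp [mem_OL, mem_QR, f1] at h4
    rw [← e2]
    simp only [List.mem_append, List.mem_singleton]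
    tauto)
  refine ⟨_, G2, ?_, ?_⟩
  · intro v hv
    rcases Els_append.1 hv with h | h
    · rcases elG1 v h with h | h | h
      · left
        rw [mem_S2]
        simp only [List.mem_append, List.mem_singleton] at h
        tauto
      · left
        rw [mem_S2]
        simp only [List.mem_append, List.mem_singleton] at h
        tauto
      · exact Or.inr h
    · exact Or.inl (eK2 v (Els_reverse.1 h))
  · intro X hX
    refine List.mem_append.2 (Or.inl (List.mem_append.2 (Or.inr ?_)))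
    exact List.mem_map.2 ⟨X, List.mem_reverse.2 hX, rfl⟩

/-- Phase 3. -/
theorem partB {w : ℕ} {H : List (List (Sym M))} (hg : Gad w M H)
    {HA : List (List (Sym (N2 M)))}
    (hA : Hst (L (w + 1)) (R (w + 1)) (OL M w ++ [L 0] ++ ([R 0] ++ QR M w)) (S2 M w) HA)
    (eA : ∀ v, Els HA v → v ∈ S2 M w ∨ ∃ s, v = f1 s) :
    ∃ HB : List (List (Sym (N2 M))),
      Hst (L (w + 1)) (R (w + 1)) (OL M w ++ [L 0] ++ ([R 0] ++ QR M w))
        ([] ++ [L w, R w].map f3 ++ (gR M w ++ [f1 (R 0)] ++ rt M w ++ [R 0] ++ QR M w)) HB ∧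
      (∀ v, Els HB v → v ∈ S2 M w ∨ (∃ s, v = f1 s) ∨ ∃ m, v = new (N2.b m)) ∧
      (∀ X ∈ HA, X ∈ HB) ∧
      (∀ X ∈ H, [] ++ X.map f3 ++ (gR M w ++ [f1 (R 0)] ++ rt M w ++ [R 0] ++ QR M w) ∈ HB) := by
  have hw := hg.pos
  have hH := hg.hst
  have n2 : (S2 M w).Nodup := S2_nodup (M := M) w
  have sub : ∀ T : List (Sym (N2 M)), T.Sublist (S2 M w) → T.Nodup := fun T hT => n2.sublist hT
  -- phase 3a
  obtain ⟨K3, hK3, eK3⟩ := Hst.block (a := L (w + 1)) (z := R (w + 1)) (OL M w) ([L 0] ++ lt M w)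
    ([f1 (L 0)] ++ gL M w ++ gR M w ++ [f1 (R 0)] ++ rt M w ++ [R 0] ++ QR M w)
    (sub _ (by simp [S2])) (OL_head w) (glR' _ w)
  have e3 : OL M w ++ ([L 0] ++ lt M w) ++ ([f1 (L 0)] ++ gL M w ++ gR M w ++ [f1 (R 0)] ++
      rt M w ++ [R 0] ++ QR M w) = S2 M w := by
    simp [S2]
  have e3' : OL M w ++ ([f1 (L 0)] ++ gL M w ++ gR M w ++ [f1 (R 0)] ++ rt M w ++ [R 0] ++
      QR M w) = [] ++ (stk M w).map f3 ++ (gR M w ++ [f1 (R 0)] ++ rt M w ++ [R 0] ++ QR M w) := by
    rw [stk_f3]; simp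
  rw [e3, e3'] at hK3
  rw [e3] at eK3
  have G3 := hA.trans hK3 (fun v _ h => eK3 v h)
  have elG3 : ∀ v, Els (HA ++ K3) v → (v ∈ S2 M w ∨ ∃ s, v = f1 s) := fun v hv => by
    rcases Els_append.1 hv with h | h
    · exact eA v h
    · exact Or.inl (eK3 v h)
  -- frame 3
  have F3 := hH.frame f3 [] (gR M w ++ [f1 (R 0)] ++ rt M w ++ [R 0] ++ QR M w)
    (fun p q _ _ h => f3_inj h) List.nodup_nil (frame3_nodup w)
    (by simp) (by simp)
    (by
      intro p hp hx
      simp only [List.mem_append, List.mem_singleton, mem_gR, mem_rt, mem_QR] at hx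
      rcases hg.els p hp with h | ⟨m, rfl⟩
      · obtain ⟨i, hi, rfl | rfl⟩ := mem_stk.1 h
        · simp [f3, f1] at hx
        · cases i <;> simp [f3, f1, rr] at hx
      · simp [f3, f1] at hx)
    (L (w + 1)) (R (w + 1)) rfl
    (by exact glR' (f3 (R w) :: (gR M w ++ [f1 (R 0)] ++ rt M w ++ [R 0])) w)
  have G4 := G3.trans F3 (by
    intro v h1 h2
    rcases Els_frame h2 with h | h | ⟨s, hs, rfl⟩
    · simp at h
    · exact List.mem_append.2 (Or.inr h)
    · rcases hg.els s hs with h | ⟨m, rfl⟩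
      · exact List.mem_append.2 (Or.inl (List.mem_append.2 (Or.inr (List.mem_map.2 ⟨s, h, rfl⟩))))
      · exfalso
        rcases elG3 _ h1 with h | ⟨t, h⟩
        · exact (S2_bc h).1.1 m rfl
        · simp [f3, f1] at h)
  refine ⟨_, G4, ?_, ?_, ?_⟩
  · intro v hv
    rcases Els_append.1 hv with h | h
    · rcases elG3 v h with h | h
      · exact Or.inl h
      · exact Or.inr (Or.inl h)
    · rcases Els_frame h with h | h | ⟨s, hs, rfl⟩
      · simp at h
      · left
        rw [mem_S2]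
        simp only [List.mem_append, List.mem_singleton] at h
        tauto
      · rcases hg.els s hs with h | ⟨m, rfl⟩
        · left
          have : f3 s ∈ (stk M w).map f3 := List.mem_map.2 ⟨s, h, rfl⟩
          rw [stk_f3] at this
          rw [mem_S2]
          simp only [List.mem_append, List.mem_singleton] at this
          tauto
        · exact Or.inr (Or.inr ⟨m, rfl⟩)
  · intro X hX
    exact List.mem_append.2 (Or.inl (List.mem_append.2 (Or.inl hX)))
  · intro X hX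
    exact List.mem_append.2 (Or.inr (List.mem_map.2 ⟨X, hX, rfl⟩))

/-- Phases 4 and 5. -/
theorem partC {w : ℕ} {H : List (List (Sym M))} (hg : Gad w M H)
    {HB : List (List (Sym (N2 M)))}
    (hB : Hst (L (w + 1)) (R (w + 1)) (OL M w ++ [L 0] ++ ([R 0] ++ QR M w))
        ([] ++ [L w, R w].map f3 ++ (gR M w ++ [f1 (R 0)] ++ rt M w ++ [R 0] ++ QR M w)) HB)
    (eB : ∀ v, Els HB v → v ∈ S2 M w ∨ (∃ s, v = f1 s) ∨ ∃ m, v = new (N2.b m)) :
    ∃ HC : List (List (Sym (N2 M))),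
      Hst (L (w + 1)) (R (w + 1)) (OL M w ++ [L 0] ++ ([R 0] ++ QR M w))
        [L (w + 1), R (w + 1)] HC ∧
      (∀ v, Els HC v → v ∈ S2 M w ∨ ∃ x, v = new x) ∧
      (∀ X ∈ HB, X ∈ HC) ∧
      [L (w + 1), ll w, R (w + 1)] ∈ HC ∧
      (∀ X ∈ H, [L (w + 1), rr w] ++ X.map f4 ++ [] ∈ HC) := by
  have hH := hg.hst
  -- phase 4a
  have nB := hB.nodup _ hB.mem_lst
  have e4 : ([] ++ [L w, R w].map f3 ++ (gR M w ++ [f1 (R 0)] ++ rt M w ++ [R 0] ++ QR M w) :
      List (Sym (N2 M))) = ([L (w + 1), rr w] ++ gR M w ++ [f1 (R 0)]) ++ (rt M w ++ [R 0]) ++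
        QR M w := by
    simp [f3]
  have e4' : ([L (w + 1), rr w] ++ gR M w ++ [f1 (R 0)]) ++ QR M w =
      [L (w + 1), rr w] ++ (stk M w).map f4 ++ [] := by
    rw [stk_f4]; simp
  rw [e4] at nB hB
  obtain ⟨K4, hK4, eK4⟩ := Hst.block (a := L (w + 1)) (z := R (w + 1))
    ([L (w + 1), rr w] ++ gR M w ++ [f1 (R 0)]) (rt M w ++ [R 0]) (QR M w) nB rfl (QR_last w)
  rw [e4'] at hK4
  have sB : ∀ v ∈ ([L (w + 1), rr w] ++ gR M w ++ [f1 (R 0)]) ++ (rt M w ++ [R 0]) ++ QR M w,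
      v ∈ S2 M w := by
    intro v hv
    rw [mem_S2]
    simp only [List.mem_append, List.mem_cons, List.not_mem_nil, or_false] at hv
    have h1 : L (w + 1) ∈ OL M w := mem_OL.2 ⟨w, le_rfl, rfl⟩
    have h2 : rr w ∈ gL M w ∨ rr w = f1 (L 0 : Sym M) := by
      rcases w with _ | w
      · exact Or.inr rfl
      · exact Or.inl (mem_gL.2 ⟨w, Nat.lt_succ_self w, rfl⟩)
    rcases hv with ((((rfl | rfl) | h) | h) | h | h) | h <;> tauto
  have G1 := hB.trans hK4 (fun v _ h => eK4 v h)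
  have el1 : ∀ v, Els (HB ++ K4) v → (v ∈ S2 M w ∨ (∃ s, v = f1 s) ∨ ∃ m, v = new (N2.b m)) := by
    intro v hv
    rcases Els_append.1 hv with h | h
    · exact eB v h
    · exact Or.inl (sB v (eK4 v h))
  -- phase 4b
  have F4 := hH.frame f4 [L (w + 1), rr w] []
    (fun p q _ _ h => f4_inj h) (by simpa using (rr_ne_L w (w + 1)).symm) List.nodup_nil
    (by simp)
    (by
      intro p _ hx
      simp only [List.mem_cons, List.not_mem_nil, or_false] at hx
      rcases p with i | i | m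
      · rcases hx with h | h
        · exact ll_ne_L _ _ h
        · exact rr_ne_ll _ _ h.symm
      · rcases hx with h | h
        · simp [f4] at h
        · exact rr_ne_R _ _ h.symm
      · rcases hx with h | h
        · simp [f4] at h
        · exact rr_ne_c _ _ h.symm)
    (by simp)
    (L (w + 1)) (R (w + 1)) rfl rfl
  have G2 := G1.trans F4 (by
    intro v h1 h2
    rcases Els_frame h2 with h | h | ⟨s, hs, rfl⟩
    · exact List.mem_append.2 (Or.inl (List.mem_append.2 (Or.inl h)))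
    · simp at h
    · rcases hg.els s hs with h | ⟨m, rfl⟩
      · exact List.mem_append.2 (Or.inl (List.mem_append.2 (Or.inr (List.mem_map.2 ⟨s, h, rfl⟩))))
      · exfalso
        rcases el1 _ h1 with h | ⟨t, h⟩ | ⟨t, h⟩
        · exact (S2_bc h).1.2 m rfl
        · simp [f4, f1] at h
        · simp [f4] at h)
  have el2 : ∀ v, Els (List.map (fun X => [L (w + 1), rr w] ++ X.map f4 ++ []) H) v →
      v ∈ S2 M w ∨ ∃ x, v = new x := by
    intro v hv
    rcases Els_frame hv with h | h | ⟨s, hs, rfl⟩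
    · exact Or.inl (sB v (List.mem_append.2 (Or.inl (List.mem_append.2 (Or.inl
        (List.mem_append.2 (Or.inl (List.mem_append.2 (Or.inl h)))))))))
    · simp at h
    · rcases hg.els s hs with h | ⟨m, rfl⟩
      · left
        have : f4 s ∈ (stk M w).map f4 := List.mem_map.2 ⟨s, h, rfl⟩
        rw [stk_f4] at this
        rw [mem_S2]
        simp only [List.mem_append, List.mem_singleton] at this
        tauto
      · exact Or.inr ⟨_, rfl⟩
  -- phase 5
  have n5 := G2.nodup _ G2.mem_lst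
  have e5 : ([L (w + 1), rr w] ++ [L w, R w].map f4 ++ [] : List (Sym (N2 M))) =
      [L (w + 1)] ++ [rr w] ++ [ll w, R (w + 1)] := rfl
  rw [e5] at n5 G2
  obtain ⟨K5, hK5, eK5⟩ := Hst.block (a := L (w + 1)) (z := R (w + 1))
    [L (w + 1)] [rr w] [ll w, R (w + 1)] n5 rfl rfl
  have G3 := G2.trans hK5 (fun v _ h => eK5 v h)
  have n6 := G3.nodup _ G3.mem_lst
  have e6 : ([L (w + 1)] ++ [ll w, R (w + 1)] : List (Sym (N2 M))) =
      [L (w + 1)] ++ [ll w] ++ [R (w + 1)] := rfl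
  rw [e6] at n6 G3
  obtain ⟨K6, hK6, eK6⟩ := Hst.block (a := L (w + 1)) (z := R (w + 1))
    [L (w + 1)] [ll w] [R (w + 1)] n6 rfl rfl
  have G4 := G3.trans hK6 (fun v _ h => eK6 v h)
  have s6 : ∀ v ∈ [L (w + 1)] ++ [rr w] ++ [ll w, R (w + 1)], v ∈ S2 M w ∨ ∃ x, v = new x := by
    intro v hv
    simp only [List.mem_append, List.mem_cons, List.not_mem_nil, or_false] at hv
    rcases hv with (rfl | rfl) | rfl | rfl
    · exact Or.inl (mem_S2.2 (Or.inl (mem_OL.2 ⟨w, le_rfl, rfl⟩)))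
    · cases w <;> exact Or.inr ⟨_, rfl⟩
    · cases w <;> exact Or.inr ⟨_, rfl⟩
    · left
      rw [mem_S2]
      have : R (w + 1) ∈ QR M w := mem_QR.2 ⟨w, le_rfl, rfl⟩
      tauto
  refine ⟨_, G4, ?_, ?_, ?_, ?_⟩
  · intro v hv
    rcases Els_append.1 hv with h | h
    · rcases Els_append.1 h with h | h
      · rcases Els_append.1 h with h | h
        · rcases el1 v h with h | ⟨s, h⟩ | ⟨s, h⟩
          · exact Or.inl h
          · exact Or.inr ⟨_, h⟩
          · exact Or.inr ⟨_, h⟩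
        · exact el2 v h
      · exact s6 v (eK5 v h)
    · refine s6 v ?_
      have := eK6 v h
      simp only [List.mem_append, List.mem_cons, List.not_mem_nil, or_false] at this ⊢
      tauto
  · intro X hX
    simp only [List.mem_append]
    tauto
  · exact List.mem_append.2 (Or.inl G3.mem_lst)
  · intro X hX
    refine List.mem_append.2 (Or.inl (List.mem_append.2 (Or.inl (List.mem_append.2 (Or.inr ?_)))))
    exact List.mem_map.2 ⟨X, hX, rfl⟩

/-- The history of the next gadget. -/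
theorem hist2 {w : ℕ} {H : List (List (Sym M))} (hg : Gad w M H) :
    ∃ H2 : List (List (Sym (N2 M))), Gad (w + 1) (N2 M) H2 ∧ S2 M w ∈ H2 ∧
      [L (w + 1), ll w, R (w + 1)] ∈ H2 ∧
      (∀ X ∈ H, (OL M w ++ [L 0]) ++ X.map f1 ++ ([R 0] ++ QR M w) ∈ H2) ∧
      (∀ X ∈ H, [] ++ X.map f3 ++ (gR M w ++ [f1 (R 0)] ++ rt M w ++ [R 0] ++ QR M w) ∈ H2) ∧
      (∀ X ∈ H, [L (w + 1), rr w] ++ X.map f4 ++ [] ∈ H2) := by
  obtain ⟨HA, hA, eA, mA⟩ := partA hg
  obtain ⟨HB, hB, eB, mAB, mB⟩ := partB hg hA eA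
  obtain ⟨HC, hC, eC, mBC, m7, mC⟩ := partC hg hB eB
  refine ⟨HC, ⟨Nat.succ_pos w, ?_, ?_⟩, ?_, m7, ?_, ?_, mC⟩
  · rw [stk_N2]
    exact hC
  · intro v hv
    rcases eC v hv with h | h
    · exact (S2_bc h).2
    · exact Or.inr h
  · exact mBC _ (mAB _ hA.mem_lst)
  · exact fun X hX => mBC _ (mAB _ (mA X hX))
  · exact fun X hX => mBC _ (mB X hX)


/-- A list of edges covering the slot `x`. -/
theorem Tw.of_cover {V : Type} {E : V → V → Prop} {ord : V → ℕ} {T : List (V × V)} {x : ℕ}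
    (h1 : T.Pairwise (fun e f => ord e.1 < ord f.1 ∧ ord e.2 < ord f.2))
    (h2 : ∀ e ∈ T, E e.1 e.2) (h3 : ∀ e ∈ T, ord e.1 ≤ x ∧ x < ord e.2) : Tw E ord T :=
  ⟨h1, h2, fun e he f hf => lt_of_le_of_lt (h3 e he).1 (h3 f hf).2⟩

theorem fstar_of_strong {K k : ℕ} (h : Strong K k) : Fstar K (k + 1) := by
  obtain ⟨w, M, H, hg, hS⟩ := h
  obtain ⟨H2, hG, m2, m7, mA, mB, mC⟩ := hist2 hg
  refine ⟨w + 1, N2 M, H2, hG, fun ord hO x hx1 hx2 => ?_⟩
  -- edges of the three copies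
  have ed1 : ∀ p q, Ed H p q → Ed H2 (f1 p) (f1 q) := fun p q h =>
    Ed.mono (fun S hS => by obtain ⟨X, hX, rfl⟩ := List.mem_map.1 hS; exact mA X hX)
      (Ed_frame_of f1 (OL M w ++ [L 0]) ([R 0] ++ QR M w) h)
  have ed3 : ∀ p q, Ed H p q → Ed H2 (f3 p) (f3 q) := fun p q h =>
    Ed.mono (fun S hS => by obtain ⟨X, hX, rfl⟩ := List.mem_map.1 hS; exact mB X hX)
      (Ed_frame_of f3 [] (gR M w ++ [f1 (R 0)] ++ rt M w ++ [R 0] ++ QR M w) h)
  have ed4 : ∀ p q, Ed H p q → Ed H2 (f4 p) (f4 q) := fun p q h =>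
    Ed.mono (fun S hS => by obtain ⟨X, hX, rfl⟩ := List.mem_map.1 hS; exact mC X hX)
      (Ed_frame_of f4 [L (w + 1), rr w] [] h)
  have el1 : ∀ p, Els H p → Els H2 (f1 p) := fun p h =>
    Els.mono (fun S hS => by obtain ⟨X, hX, rfl⟩ := List.mem_map.1 hS; exact mA X hX)
      (Els_frame_of f1 (OL M w ++ [L 0]) ([R 0] ++ QR M w) h)
  have el3 : ∀ p, Els H p → Els H2 (f3 p) := fun p h =>
    Els.mono (fun S hS => by obtain ⟨X, hX, rfl⟩ := List.mem_map.1 hS; exact mB X hX)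
      (Els_frame_of f3 [] (gR M w ++ [f1 (R 0)] ++ rt M w ++ [R 0] ++ QR M w) h)
  have el4 : ∀ p, Els H p → Els H2 (f4 p) := fun p h =>
    Els.mono (fun S hS => by obtain ⟨X, hX, rfl⟩ := List.mem_map.1 hS; exact mC X hX)
      (Els_frame_of f4 [L (w + 1), rr w] [] h)
  obtain ⟨T1, t1, l1, c1⟩ := hS _ (hO.pull f1 ed1 el1 (fun p q _ _ h => f1_inj h))
  obtain ⟨T3, t3, l3, c3⟩ := hS _ (hO.pull f3 ed3 el3 (fun p q _ _ h => f3_inj h))
  obtain ⟨T4, t4, l4, c4⟩ := hS _ (hO.pull f4 ed4 el4 (fun p q _ _ h => f4_inj h))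
  -- the chain of the largest state
  have s2 := hO.sorted m2
  have mO0 : (L 0 : Sym (N2 M)) ∈ OL M w ++ [L 0] := by simp
  have mQ0 : (R 0 : Sym (N2 M)) ∈ [R 0] ++ QR M w := by simp
  -- positions relative to the first copy
  have b1 : ∀ v, Els H v → ord (L 0) < ord (f1 v) ∧ ord (f1 v) < ord (R 0) := by
    rintro v ⟨X, hX, hv⟩
    have hm := mA X hX
    have hfv : f1 v ∈ X.map f1 := List.mem_map.2 ⟨v, hv, rfl⟩
    refine ⟨hO.lt_of (X := OL M w ++ [L 0]) (Y := X.map f1 ++ ([R 0] ++ QR M w)) ?_ mO0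
      (List.mem_append.2 (Or.inl hfv)), hO.lt_of (X := OL M w ++ [L 0] ++ X.map f1)
      (Y := [R 0] ++ QR M w) hm (List.mem_append.2 (Or.inr hfv)) mQ0⟩
    simpa using hm
  have b3 : ∀ v, Els H v → ord (f3 v) < ord (R 0) := by
    rintro v ⟨X, hX, hv⟩
    have hm := mB X hX
    have hfv : f3 v ∈ X.map f3 := List.mem_map.2 ⟨v, hv, rfl⟩
    exact hO.lt_of hm (List.mem_append.2 (Or.inr hfv)) (by simp)
  have hrr : ord (L 0) < ord (rr w) := by
    have e : S2 M w = (OL M w ++ [L 0]) ++ (lt M w ++ [f1 (L 0)] ++ gL M w ++ gR M w ++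
        [f1 (R 0)] ++ rt M w ++ [R 0] ++ QR M w) := by simp [S2]
    rw [e] at m2
    refine hO.lt_of m2 mO0 ?_
    simp only [List.mem_append, List.mem_singleton]
    rcases w with _ | w
    · exact absurd hg.pos (by simp)
    · have : rr (w + 1) ∈ gL M (w + 1) := mem_gL.2 ⟨w, Nat.lt_succ_self w, rfl⟩
      tauto
  have b4 : ∀ v, Els H v → ord (L 0) < ord (f4 v) := by
    rintro v ⟨X, hX, hv⟩
    have hm := mC X hX
    have hfv : f4 v ∈ X.map f4 := List.mem_map.2 ⟨v, hv, rfl⟩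
    refine lt_trans hrr (hO.lt_of (X := [L (w + 1), rr w]) (Y := X.map f4 ++ []) ?_ (by simp)
      (List.mem_append.2 (Or.inl hfv)))
    simpa using hm
  -- the fixed inequalities
  have i1 : ord (L (w + 1)) < ord (L 0) := by
    have e : S2 M w = (OL M w) ++ ([L 0] ++ lt M w ++ [f1 (L 0)] ++ gL M w ++ gR M w ++
        [f1 (R 0)] ++ rt M w ++ [R 0] ++ QR M w) := by simp [S2]
    rw [e] at m2
    exact hO.lt_of m2 (mem_OL.2 ⟨w, le_rfl, rfl⟩) (by simp)
  have i2 : ord (L 1) < ord (L 0) := by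
    have e : S2 M w = (OL M w) ++ ([L 0] ++ lt M w ++ [f1 (L 0)] ++ gL M w ++ gR M w ++
        [f1 (R 0)] ++ rt M w ++ [R 0] ++ QR M w) := by simp [S2]
    rw [e] at m2
    exact hO.lt_of m2 (mem_OL.2 ⟨0, Nat.zero_le _, rfl⟩) (by simp)
  have i3 : ord (R 0) < ord (R 1) :=
    hO.lt_of (X := OL M w ++ [L 0] ++ lt M w ++ [f1 (L 0)] ++ gL M w ++ gR M w ++
        [f1 (R 0)] ++ rt M w ++ [R 0]) (Y := QR M w) m2 (by simp) (mem_QR.2 ⟨0, Nat.zero_le _, rfl⟩)
  have i4 : ord (R 0) < ord (R (w + 1)) :=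
    hO.lt_of (X := OL M w ++ [L 0] ++ lt M w ++ [f1 (L 0)] ++ gL M w ++ gR M w ++
        [f1 (R 0)] ++ rt M w ++ [R 0]) (Y := QR M w) m2 (by simp) (mem_QR.2 ⟨w, le_rfl, rfl⟩)
  have hll : ll w ∈ gR M w := by
    rcases w with _ | w
    · exact absurd hg.pos (by simp)
    · exact mem_gR.2 ⟨w, Nat.lt_succ_self w, rfl⟩
  have i5 : ord (f1 (L 0 : Sym M)) < ord (ll w) := by
    have e : S2 M w = (OL M w ++ [L 0] ++ lt M w ++ [f1 (L 0)]) ++ (gL M w ++ gR M w ++
        [f1 (R 0)] ++ rt M w ++ [R 0] ++ QR M w) := by simp [S2]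
    rw [e] at m2
    refine hO.lt_of m2 (by simp) ?_
    simp only [List.mem_append]
    tauto
  have i6 : ord (ll w) < ord (f1 (R 0 : Sym M)) := by
    have e : S2 M w = (OL M w ++ [L 0] ++ lt M w ++ [f1 (L 0)] ++ gL M w ++ gR M w) ++
        ([f1 (R 0)] ++ rt M w ++ [R 0] ++ QR M w) := by simp [S2]
    rw [e] at m2
    refine hO.lt_of m2 ?_ (by simp)
    simp only [List.mem_append]
    tauto
  have eOQ : Ed H2 (L 0) (R 0) := by
    have := hG.hst.mem_fst
    rw [stk_N2] at this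
    exact ⟨_, this, OL M w, QR M w, by simp⟩
  have eOl : Ed H2 (L (w + 1)) (ll w) := ⟨_, m7, [], [R (w + 1)], rfl⟩
  have elQ : Ed H2 (ll w) (R (w + 1)) := ⟨_, m7, [L (w + 1)], [], rfl⟩
  have u1 := Tw.map (ord := ord) f1 ed1 t1
  have u3 := Tw.map (ord := ord) f3 ed3 t3
  have u4 := Tw.map (ord := ord) f4 ed4 t4
  have q1 : ∀ e ∈ T1.map (fun e => (f1 e.1, f1 e.2)), ord (L 0) < ord e.1 ∧
      ord e.1 < ord (f1 (L 0 : Sym M)) ∧ ord (f1 (R 0 : Sym M)) < ord e.2 ∧
      ord e.2 < ord (R 0) := by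
    intro e he
    obtain ⟨e0, h0, rfl⟩ := List.mem_map.1 he
    have hE := t1.2.1 e0 h0
    exact ⟨(b1 _ hE.fst).1, (c1 e0 h0).1, (c1 e0 h0).2, (b1 _ hE.snd).2⟩
  have q3 : ∀ e ∈ T3.map (fun e => (f3 e.1, f3 e.2)), ord e.1 < ord (L 1) ∧
      ord (f1 (L 0 : Sym M)) < ord e.2 ∧ ord e.2 < ord (R 0) := by
    intro e he
    obtain ⟨e0, h0, rfl⟩ := List.mem_map.1 he
    have hE := t3.2.1 e0 h0
    exact ⟨(c3 e0 h0).1, (c3 e0 h0).2, b3 _ hE.snd⟩
  have q4 : ∀ e ∈ T4.map (fun e => (f4 e.1, f4 e.2)), ord (L 0) < ord e.1 ∧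
      ord e.1 < ord (f1 (R 0 : Sym M)) ∧ ord (R 1) < ord e.2 := by
    intro e he
    obtain ⟨e0, h0, rfl⟩ := List.mem_map.1 he
    have hE := t4.2.1 e0 h0
    exact ⟨b4 _ hE.fst, (c4 e0 h0).1, (c4 e0 h0).2⟩
  have key : ∀ T : List (Sym (N2 M) × Sym (N2 M)), T.length = k + 1 →
      T.Pairwise (fun e f => ord e.1 < ord f.1 ∧ ord e.2 < ord f.2) →
      (∀ e ∈ T, Ed H2 e.1 e.2) → (∀ e ∈ T, ord e.1 ≤ x ∧ x < ord e.2) →
      ∃ T, Tw (Ed H2) ord T ∧ T.length = k + 1 ∧ ∀ e ∈ T, ord e.1 ≤ x ∧ x < ord e.2 :=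
    fun T h0 h1 h2 h3 => ⟨T, Tw.of_cover h1 h2 h3, h0, h3⟩
  rcases Nat.lt_or_ge (ord (f1 (L 0 : Sym M))) x with hx3 | hx3
  · rcases Nat.lt_or_ge x (ord (ll w)) with hx4 | hx4
    · -- (O, g) + T
      refine key ((L (w + 1), ll w) :: T1.map (fun e => (f1 e.1, f1 e.2))) (by simp [l1]) ?_ ?_ ?_
      · refine List.pairwise_cons.2 ⟨fun e he => ?_, u1.1⟩
        have := q1 e he
        exact ⟨by simp only; omega, by simp only; omega⟩
      · intro e he
        rcases List.mem_cons.1 he with rfl | he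
        · exact eOl
        · exact u1.2.1 e he
      · intro e he
        rcases List.mem_cons.1 he with rfl | he
        · exact ⟨by simp only; omega, by simp only; omega⟩
        · have := q1 e he
          exact ⟨by omega, by omega⟩
    · rcases Nat.lt_or_ge (ord (f1 (R 0 : Sym M))) x with hx5 | hx5
      · -- (O 0, Q 0) + T4
        refine key ((L 0, R 0) :: T4.map (fun e => (f4 e.1, f4 e.2))) (by simp [l4]) ?_ ?_ ?_
        · refine List.pairwise_cons.2 ⟨fun e he => ?_, u4.1⟩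
          have := q4 e he
          exact ⟨by simp only; omega, by simp only; omega⟩
        · intro e he
          rcases List.mem_cons.1 he with rfl | he
          · exact eOQ
          · exact u4.2.1 e he
        · intro e he
          rcases List.mem_cons.1 he with rfl | he
          · exact ⟨by simp only; omega, by simp only; omega⟩
          · have := q4 e he
            exact ⟨by omega, by omega⟩
      · -- T + (g, Q)
        refine key (T1.map (fun e => (f1 e.1, f1 e.2)) ++ [(ll w, R (w + 1))]) (by simp [l1])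
          ?_ ?_ ?_
        · refine List.pairwise_append.2 ⟨u1.1, List.pairwise_singleton _ _, fun e he f hf => ?_⟩
          rw [List.mem_singleton] at hf
          subst hf
          have := q1 e he
          exact ⟨by simp only; omega, by simp only; omega⟩
        · intro e he
          rcases List.mem_append.1 he with he | he
          · exact u1.2.1 e he
          · rw [List.mem_singleton] at he
            subst he
            exact elQ
        · intro e he
          rcases List.mem_append.1 he with he | he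
          · have := q1 e he
            exact ⟨by omega, by omega⟩
          · rw [List.mem_singleton] at he
            subst he
            exact ⟨by simp only; omega, by simp only; omega⟩
  · -- T3 + (O 0, Q 0)
    refine key (T3.map (fun e => (f3 e.1, f3 e.2)) ++ [(L 0, R 0)]) (by simp [l3]) ?_ ?_ ?_
    · refine List.pairwise_append.2 ⟨u3.1, List.pairwise_singleton _ _, fun e he f hf => ?_⟩
      rw [List.mem_singleton] at hf
      subst hf
      have := q3 e he
      exact ⟨by simp only; omega, by simp only; omega⟩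
    · intro e he
      rcases List.mem_append.1 he with he | he
      · exact u3.2.1 e he
      · rw [List.mem_singleton] at he
        subst he
        exact eOQ
    · intro e he
      rcases List.mem_append.1 he with he | he
      · have := q3 e he
        exact ⟨by omega, by omega⟩
      · rw [List.mem_singleton] at he
        subst he
        exact ⟨by simp only; omega, by simp only; omega⟩

end Pool.Agent.PageUnb
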