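/-
MP_a4f561_co, S10566: the step Strong k => Fstar (k + 1) (second copy, helper39).
-/
import Pool.Agent.PageUnb.Hist
import Pool.Agent.PageUnb.HistF

set_option autoImplicit false

namespace Pool.Agent.PageUnb.S39

inductive New (M : Type) : Type
  | c (s : Sym M) : New M
  | g (i : ℕ) : New M
  | a (m : M) : New M
  | b (m : M) : New M

variable {M : Type}

/-- Phase 1 names. -/
def fc (s : Sym M) : Sym (New M) := Sym.new (New.c s)

/-- Phase 3 names. -/
def f3 : Sym M → Sym (New M)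
  | Sym.L i => Sym.L (i + 1)
  | Sym.R 0 => Sym.new (New.c (Sym.L 0))
  | Sym.R (i + 1) => Sym.new (New.g i)
  | Sym.new m => Sym.new (New.a m)

/-- Phase 4 names. -/
def f4 (w : ℕ) : Sym M → Sym (New M)
  | Sym.L 0 => Sym.new (New.c (Sym.R 0))
  | Sym.L (i + 1) => Sym.new (New.g (2 * w - 1 - i))
  | Sym.R i => Sym.R (i + 1)
  | Sym.new m => Sym.new (New.b m)

def lev : Sym (New M) → ℕ
  | Sym.L _ => 0
  | Sym.R _ => 0
  | Sym.new (New.c _) => 1
  | Sym.new (New.g _) => 2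
  | Sym.new (New.a _) => 3
  | Sym.new (New.b _) => 4

/-- The elements allowed up to level `t`. -/
def P (w t : ℕ) (v : Sym (New M)) : Prop :=
  (v ∈ stk (New M) (w + 1) ∨ ∃ m, v = Sym.new m) ∧ lev v ≤ t

theorem P.mono {w t t' : ℕ} (h : t ≤ t') (v : Sym (New M)) (hv : P w t v) : P w t' v :=
  ⟨hv.1, hv.2.trans h⟩

theorem glue {V : Type} {a z : V} {S S' S'' : List V} {H H' : List (List V)} {P P' : V → Prop}
    (h : Hst a z S S' H) (hP : ∀ v, Els H v → P v) (hPP : ∀ v, P v → P' v)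
    (h' : Hst a z S' S'' H') (hn : ∀ v, Els H' v → v ∈ S' ∨ (¬ P v ∧ P' v)) :
    Hst a z S S'' (H ++ H') ∧ ∀ v, Els (H ++ H') v → P' v := by
  refine ⟨h.trans h' ?_, ?_⟩
  · intro v h1 h2
    rcases hn v h2 with h3 | h3
    · exact h3
    · exact absurd (hP v h1) h3.1
  · intro v hv
    rcases Els_append.1 hv with h1 | h1
    · exact hPP v (hP v h1)
    · rcases hn v h1 with h3 | h3
      · exact hPP v (hP v ⟨S', h.mem_lst, h3⟩)
      · exact h3.2

/-- The middle elements. -/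
def G (M : Type) (w : ℕ) : List (Sym (New M)) := (List.range (2 * w)).map (fun i => Sym.new (New.g i))
def G1 (M : Type) (w : ℕ) : List (Sym (New M)) := (List.range w).map (fun i => Sym.new (New.g i))
def G2 (M : Type) (w : ℕ) : List (Sym (New M)) :=
  (List.range w).map (fun i => Sym.new (New.g (w + i)))

theorem G_eq (w : ℕ) : G M w = G1 M w ++ G2 M w := by
  simp [G, G1, G2, two_mul, List.range_add, List.map_append, Function.comp_def]

theorem mem_G {w : ℕ} {v : Sym (New M)} : v ∈ G M w ↔ ∃ i < 2 * w, v = Sym.new (New.g i) := by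
  simp only [G, List.mem_map, List.mem_range]
  exact ⟨fun ⟨i, h, e⟩ => ⟨i, h, e.symm⟩, fun ⟨i, h, e⟩ => ⟨i, h, e.symm⟩⟩

theorem mem_G1 {w : ℕ} {v : Sym (New M)} : v ∈ G1 M w ↔ ∃ i < w, v = Sym.new (New.g i) := by
  simp only [G1, List.mem_map, List.mem_range]
  exact ⟨fun ⟨i, h, e⟩ => ⟨i, h, e.symm⟩, fun ⟨i, h, e⟩ => ⟨i, h, e.symm⟩⟩

theorem mem_G2 {w : ℕ} {v : Sym (New M)} : v ∈ G2 M w ↔ ∃ i < w, v = Sym.new (New.g (w + i)) := by
  simp only [G2, List.mem_map, List.mem_range]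
  exact ⟨fun ⟨i, h, e⟩ => ⟨i, h, e.symm⟩, fun ⟨i, h, e⟩ => ⟨i, h, e.symm⟩⟩

theorem G_nodup (w : ℕ) : (G M w).Nodup := by
  refine List.Nodup.map_on ?_ List.nodup_range
  intro i _ j _ e
  simpa using e

/-- Lower part of the left stack. -/
def LO (M : Type) (w : ℕ) : List (Sym (New M)) := stkL (fun i => Sym.L (i + 1)) w
def RQ (M : Type) (w : ℕ) : List (Sym (New M)) := stkR (fun i => Sym.R (i + 1)) w
def CL (M : Type) (w : ℕ) : List (Sym (New M)) :=
  (List.range w).reverse.map (fun i => fc (Sym.L (i + 1)))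
def CR (M : Type) (w : ℕ) : List (Sym (New M)) := (List.range w).map (fun i => fc (Sym.R (i + 1)))

theorem mem_LO {w : ℕ} {v : Sym (New M)} : v ∈ LO M w ↔ ∃ i ≤ w, v = Sym.L (i + 1) := mem_stkL
theorem mem_RQ {w : ℕ} {v : Sym (New M)} : v ∈ RQ M w ↔ ∃ i ≤ w, v = Sym.R (i + 1) := mem_stkR
theorem mem_CL {w : ℕ} {v : Sym (New M)} : v ∈ CL M w ↔ ∃ i < w, v = fc (Sym.L (i + 1)) := by
  simp only [CL, List.mem_map, List.mem_reverse, List.mem_range]
  exact ⟨fun ⟨i, h, e⟩ => ⟨i, h, e.symm⟩, fun ⟨i, h, e⟩ => ⟨i, h, e.symm⟩⟩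
theorem mem_CR {w : ℕ} {v : Sym (New M)} : v ∈ CR M w ↔ ∃ i < w, v = fc (Sym.R (i + 1)) := by
  simp only [CR, List.mem_map, List.mem_range]
  exact ⟨fun ⟨i, h, e⟩ => ⟨i, h, e.symm⟩, fun ⟨i, h, e⟩ => ⟨i, h, e.symm⟩⟩

theorem LO_eq (w : ℕ) : stkL Sym.L (w + 1) = LO M w ++ [Sym.L 0] := by
  rw [stkL_succ]; rfl
theorem RQ_eq (w : ℕ) : stkR Sym.R (w + 1) = Sym.R 0 :: RQ M w := by
  rw [stkR_succ]; rfl
theorem stk_eq (w : ℕ) : stk (New M) (w + 1) = LO M w ++ [Sym.L 0] ++ (Sym.R 0 :: RQ M w) := by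
  rw [stk, LO_eq, RQ_eq]
theorem fc_eq (w : ℕ) : (stk M w).map fc = CL M w ++ [fc (Sym.L 0)] ++ (fc (Sym.R 0) :: CR M w) := by
  rw [stk_map, stkL_succ, stkR_succ]; rfl
theorem f3_eq (w : ℕ) : (stk M w).map f3 = LO M w ++ (fc (Sym.L 0) :: G1 M w) := by
  rw [stk_map, stkR_succ]; rfl
theorem f4_eq (w : ℕ) : (stk M w).map (f4 w) = G2 M w ++ [fc (Sym.R 0)] ++ RQ M w := by
  rw [stk_map, stkL_succ]
  have : (List.range w).reverse.map (fun i => f4 (M := M) w (Sym.L (i + 1))) = G2 M w := by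
    refine List.ext_getElem (by simp [G2]) ?_
    intro i h1 h2
    have hi : i < w := by simpa using h1
    simp only [G2, List.getElem_map, List.getElem_reverse, List.getElem_range, List.length_range, f4]
    congr 2
    omega
  rw [this]
  rfl

theorem LO_head (w : ℕ) : (LO M w).head? = some (Sym.L (w + 1)) := by
  simp [LO, stkL, List.range_succ]

theorem RQ_last (w : ℕ) : (RQ M w).getLast? = some (Sym.R (w + 1)) := by
  simp [RQ, stkR, List.range_succ]

/-- The biggest state. -/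
def J (M : Type) (w : ℕ) : List (Sym (New M)) :=
  LO M w ++ [Sym.L 0] ++ (CL M w ++ [fc (Sym.L 0)] ++ (G1 M w ++ G2 M w) ++
    (fc (Sym.R 0) :: CR M w)) ++ (Sym.R 0 :: RQ M w)

theorem mem_J {w : ℕ} {v : Sym (New M)} : v ∈ J M w ↔ v ∈ stk (New M) (w + 1) ∨
    v ∈ (stk M w).map fc ∨ v ∈ G M w := by
  rw [stk_eq, fc_eq, G_eq, J]
  simp only [List.mem_append, List.mem_cons, List.not_mem_nil, or_false]
  tauto

theorem fc_inj {p q : Sym M} (h : fc p = fc q) : p = q := by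
  simpa [fc] using h

theorem fcstk_nodup (w : ℕ) : ((stk M w).map (fc (M := M))).Nodup :=
  (stk_nodup M w).map (fun _ _ h => fc_inj h)

theorem J_nodup (w : ℕ) : (J M w).Nodup := by
  have h1 := stk_nodup (New M) (w + 1)
  rw [stk_eq] at h1
  have h2 := fcstk_nodup (M := M) w
  rw [fc_eq] at h2
  have h3 := G_nodup (M := M) w
  rw [G_eq] at h3
  have e1 : ∀ v ∈ LO M w ++ [Sym.L 0] ++ (Sym.R 0 :: RQ M w), lev v = 0 := by
    intro v hv
    simp only [List.mem_append, List.mem_cons, List.not_mem_nil, or_false, mem_LO, mem_RQ] at hv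
    rcases hv with (⟨i, _, rfl⟩ | rfl) | rfl | ⟨i, _, rfl⟩ <;> rfl
  have e2 : ∀ v ∈ CL M w ++ [fc (Sym.L 0)] ++ (fc (Sym.R 0) :: CR M w), lev v = 1 := by
    intro v hv
    simp only [List.mem_append, List.mem_cons, List.not_mem_nil, or_false, mem_CL, mem_CR] at hv
    rcases hv with (⟨i, _, rfl⟩ | rfl) | rfl | ⟨i, _, rfl⟩ <;> rfl
  have e3 : ∀ v ∈ G1 M w ++ G2 M w, lev v = 2 := by
    intro v hv
    simp only [List.mem_append, mem_G1, mem_G2] at hv
    rcases hv with ⟨i, _, rfl⟩ | ⟨i, _, rfl⟩ <;> rfl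
  have key : ∀ A B C : List (Sym (New M)), (A ++ C).Nodup → B.Nodup →
      (∀ x ∈ A ++ C, x ∉ B) → (A ++ B ++ C).Nodup := by
    intro A B C hAC hB hd
    have hp : (A ++ B ++ C).Perm (B ++ (A ++ C)) := by
      rw [← List.append_assoc]
      exact (List.perm_append_comm).append_right C
    rw [hp.nodup_iff]
    exact List.nodup_append.2 ⟨hB, hAC, fun x hx y hy e => hd y hy (e ▸ hx)⟩
  refine key _ _ _ h1 (key _ _ _ h2 h3 ?_) ?_
  · intro x hx hx'
    have := e2 x hx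
    rw [e3 x hx'] at this
    exact absurd this (by decide)
  · intro x hx hx'
    have h4 := e1 x hx
    simp only [List.mem_append] at hx'
    have h5 : lev x = 1 ∨ lev x = 2 := by
      rcases hx' with ((h | h) | h) | h
      · exact Or.inl (e2 x (by simp only [List.mem_append]; exact Or.inl (Or.inl h)))
      · exact Or.inl (e2 x (by simp only [List.mem_append]; exact Or.inl (Or.inr h)))
      · exact Or.inr (e3 x (by simpa only [List.mem_append] using h))
      · exact Or.inl (e2 x (by simp only [List.mem_append]; exact Or.inr h))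
    omega


theorem J_infix_le {w : ℕ} : (J M w).Sublist (J M w) := List.Sublist.refl _

theorem stk1_sub_J (w : ℕ) : (stk (New M) (w + 1)).Sublist (J M w) := by
  rw [stk_eq, J]
  exact (List.sublist_append_left _ _).append (List.Sublist.refl _)

theorem inj3 (p q : Sym M) (e : f3 p = f3 q) : p = q := by
  match p, q with
  | Sym.L i, Sym.L j => simpa [f3] using e
  | Sym.L i, Sym.R 0 => simp [f3] at e
  | Sym.L i, Sym.R (j + 1) => simp [f3] at e
  | Sym.L i, Sym.new m => simp [f3] at e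
  | Sym.R 0, Sym.L j => simp [f3] at e
  | Sym.R 0, Sym.R 0 => rfl
  | Sym.R 0, Sym.R (j + 1) => simp [f3] at e
  | Sym.R 0, Sym.new m => simp [f3] at e
  | Sym.R (i + 1), Sym.L j => simp [f3] at e
  | Sym.R (i + 1), Sym.R 0 => simp [f3] at e
  | Sym.R (i + 1), Sym.R (j + 1) => simpa [f3] using e
  | Sym.R (i + 1), Sym.new m => simp [f3] at e
  | Sym.new m, Sym.L j => simp [f3] at e
  | Sym.new m, Sym.R 0 => simp [f3] at e
  | Sym.new m, Sym.R (j + 1) => simp [f3] at e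
  | Sym.new m, Sym.new m' => simpa [f3] using e

theorem inj4 {w : ℕ} (hw : 1 ≤ w) {p q : Sym M}
    (hp : (∃ i ≤ w, p = Sym.L i ∨ p = Sym.R i) ∨ ∃ m, p = Sym.new m)
    (hq : (∃ i ≤ w, q = Sym.L i ∨ q = Sym.R i) ∨ ∃ m, q = Sym.new m)
    (e : f4 w p = f4 w q) : p = q := by
  rcases hp with ⟨i, hi, rfl | rfl⟩ | ⟨m, rfl⟩ <;>
  rcases hq with ⟨j, hj, rfl | rfl⟩ | ⟨m', rfl⟩
  · cases i with
    | zero =>
      cases j with
      | zero => rfl
      | succ j => simp [f4] at e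
    | succ i =>
      cases j with
      | zero => simp [f4] at e
      | succ j =>
        simp only [f4, Sym.new.injEq, New.g.injEq] at e
        congr 1; omega
  · cases i <;> simp [f4] at e
  · cases i <;> simp [f4] at e
  · cases j <;> simp [f4] at e
  · simpa [f4] using e
  · simp [f4] at e
  · cases j <;> simp [f4] at e
  · simp [f4] at e
  · simpa [f4] using e

/-- The whole history with all facts which are used. -/
theorem hist {w : ℕ} {M : Type} {H : List (List (Sym M))} (hg : Gad w M H) :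
    ∃ H' : List (List (Sym (New M))), Gad (w + 1) (New M) H' ∧
      J M w ∈ H' ∧
      (∀ X ∈ H, stkL Sym.L (w + 1) ++ X.map fc ++ stkR Sym.R (w + 1) ∈ H') ∧
      (∀ X ∈ H, [] ++ X.map f3 ++ (G2 M w ++ (fc (Sym.R 0) :: CR M w) ++ (Sym.R 0 :: RQ M w)) ∈ H') ∧
      (∀ X ∈ H, [Sym.L (w + 1), f3 (Sym.R w)] ++ X.map (f4 w) ++ [] ∈ H') ∧
      [Sym.L (w + 1), f4 w (Sym.L w), Sym.R (w + 1)] ∈ H' := by
  have hw := hg.pos
  obtain ⟨w0, rfl⟩ : ∃ w0, w = w0 + 1 := ⟨w - 1, by omega⟩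
  set w := w0 + 1 with hwdef
  have hJn := J_nodup (M := M) w
  have hLO := LO_head (M := M) w
  have hRQ := RQ_last (M := M) w
  have hLOh : (stkL (Sym.L (M := New M)) (w + 1)).head? = some (Sym.L (w + 1)) := by
    rw [LO_eq, List.head?_append, hLO]; rfl
  have hRQl : (stkR (Sym.R (M := New M)) (w + 1)).getLast? = some (Sym.R (w + 1)) := by
    rw [RQ_eq, List.getLast?_cons, hRQ]; rfl
  have hels : ∀ s, Els H s → (∃ i ≤ w, s = Sym.L i ∨ s = Sym.R i) ∨ ∃ m, s = Sym.new m := by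
    intro s hs
    rcases hg.els s hs with h | h
    · exact Or.inl (mem_stk.1 h)
    · exact Or.inr h
  -- phase 1
  have n1 : (stkL (Sym.L (M := New M)) (w + 1) ++ [fc (Sym.L w), fc (Sym.R w)] ++
      stkR Sym.R (w + 1)).Nodup := by
    refine hJn.sublist ?_
    rw [LO_eq, RQ_eq, J]
    refine List.Sublist.append (List.Sublist.append (List.Sublist.refl _) ?_) (List.Sublist.refl _)
    have e1 : [fc (M := M) (Sym.L w), fc (Sym.R w)] = [fc (Sym.L w)] ++ [fc (Sym.R w)] := rfl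
    rw [e1]
    refine List.Sublist.append ?_ ?_
    · refine List.singleton_sublist.2 ?_
      simp only [List.mem_append, mem_CL]
      exact Or.inl (Or.inl ⟨w0, by omega, rfl⟩)
    · refine List.singleton_sublist.2 ?_
      simp only [List.mem_cons, mem_CR]
      exact Or.inr ⟨w0, by omega, rfl⟩
  obtain ⟨H1, h1, e1⟩ := Hst.block _ _ _ n1 hLOh hRQl
  have P01 : ∀ v, Els H1.reverse v → v ∈ stkL (Sym.L (M := New M)) (w + 1) ++
      [fc (Sym.L w), fc (Sym.R w)] ++ stkR Sym.R (w + 1) := fun v hv => e1 v (Els_reverse.1 hv)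
  have stkL_P : ∀ v ∈ stkL (Sym.L (M := New M)) (w + 1), P w 1 v := by
    intro v hv
    refine ⟨Or.inl (by rw [stk, List.mem_append]; exact Or.inl hv), ?_⟩
    obtain ⟨i, _, rfl⟩ := mem_stkL.1 hv
    exact Nat.zero_le _
  have stkR_P : ∀ v ∈ stkR (Sym.R (M := New M)) (w + 1), P w 1 v := by
    intro v hv
    refine ⟨Or.inl (by rw [stk, List.mem_append]; exact Or.inr hv), ?_⟩
    obtain ⟨i, _, rfl⟩ := mem_stkR.1 hv
    exact Nat.zero_le _
  have fc_P : ∀ s : Sym M, P w 1 (fc s) := fun s => ⟨Or.inr ⟨_, rfl⟩, le_refl _⟩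
  -- phase 1b
  have h2 : Hst (Sym.L (w + 1)) (Sym.R (w + 1))
      (stkL Sym.L (w + 1) ++ [fc (Sym.L w), fc (Sym.R w)] ++ stkR Sym.R (w + 1))
      (stkL Sym.L (w + 1) ++ (stk M w).map fc ++ stkR Sym.R (w + 1))
      (H.map (fun X => stkL Sym.L (w + 1) ++ X.map fc ++ stkR Sym.R (w + 1))).reverse := by
    refine Hst.symm ?_
    refine Hst.frame hg.hst fc _ _ (fun p q _ _ e => fc_inj e) ?_ ?_ ?_ ?_ ?_ _ _ ?_ ?_
    · exact stkL_nodup (by intro i _ j _ e; simpa using e)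
    · exact stkR_nodup (by intro i _ j _ e; simpa using e)
    · intro x hx hx'
      obtain ⟨i, _, rfl⟩ := mem_stkL.1 hx
      obtain ⟨j, _, e⟩ := mem_stkR.1 hx'
      simp at e
    · intro p _ hx
      obtain ⟨i, _, e⟩ := mem_stkL.1 hx
      simp [fc] at e
    · intro p _ hx
      obtain ⟨i, _, e⟩ := mem_stkR.1 hx
      simp [fc] at e
    · rw [List.head?_append, hLOh]; rfl
    · rw [List.getLast?_cons, hRQl]; rfl
  have e2 : ∀ v, Els (H.map (fun X => stkL (Sym.L (M := New M)) (w + 1) ++ X.map fc ++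
      stkR Sym.R (w + 1))).reverse v → P w 1 v := by
    intro v hv
    rcases Els_frame (Els_reverse.1 hv) with h | h | ⟨s, _, rfl⟩
    · exact stkL_P v h
    · exact stkR_P v h
    · exact fc_P s
  have h12 := h1.symm.trans h2 (fun v hv _ => P01 v hv)
  have e12 : ∀ v, Els (H1.reverse ++ (H.map (fun X => stkL (Sym.L (M := New M)) (w + 1) ++
      X.map fc ++ stkR Sym.R (w + 1))).reverse) v → P w 1 v := by
    intro v hv
    rcases Els_append.1 hv with h | h
    · have := P01 v h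
      simp only [List.mem_append, List.mem_cons, List.not_mem_nil, or_false] at this
      rcases this with (h3 | rfl | rfl) | h3
      · exact stkL_P v h3
      · exact fc_P _
      · exact fc_P _
      · exact stkR_P v h3
    · exact e2 v h
  -- phase 2
  have n3 : (stkL (Sym.L (M := New M)) (w + 1) ++ (CL M w ++ [fc (Sym.L 0)]) ++
      (G1 M w ++ G2 M w) ++ ((fc (Sym.R 0) :: CR M w) ++ stkR Sym.R (w + 1))).Nodup := by
    have : stkL (Sym.L (M := New M)) (w + 1) ++ (CL M w ++ [fc (Sym.L 0)]) ++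
      (G1 M w ++ G2 M w) ++ ((fc (Sym.R 0) :: CR M w) ++ stkR Sym.R (w + 1)) = J M w := by
      rw [J, LO_eq, RQ_eq]; simp only [List.append_assoc]
    rw [this]; exact hJn
  obtain ⟨H3, h3, e3⟩ := Hst.block _ _ _ n3
    (by rw [List.head?_append, hLOh]; rfl) (by rw [List.getLast?_append, hRQl]; rfl)
  have q2 : stkL (Sym.L (M := New M)) (w + 1) ++ (CL M w ++ [fc (Sym.L 0)]) ++
      ((fc (Sym.R 0) :: CR M w) ++ stkR Sym.R (w + 1)) =
      stkL Sym.L (w + 1) ++ (stk M w).map fc ++ stkR Sym.R (w + 1) := by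
    rw [fc_eq]; simp only [List.append_assoc]
  have q3 : stkL (Sym.L (M := New M)) (w + 1) ++ (CL M w ++ [fc (Sym.L 0)]) ++
      (G1 M w ++ G2 M w) ++ ((fc (Sym.R 0) :: CR M w) ++ stkR Sym.R (w + 1)) = J M w := by
    rw [J, LO_eq, RQ_eq]; simp only [List.append_assoc]
  rw [q2, q3] at h3
  rw [q3] at e3
  have g3 : ∀ v ∈ G M w, ¬ P w 1 v ∧ P w 2 v := by
    intro v hv
    obtain ⟨i, _, rfl⟩ := mem_G.1 hv
    exact ⟨fun h => absurd h.2 (by simp [lev]), ⟨Or.inr ⟨_, rfl⟩, le_refl _⟩⟩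
  obtain ⟨h123, e123⟩ := glue h12 e12 (P.mono (by omega : 1 ≤ 2)) h3.symm (by
    intro v hv
    have h4 := mem_J.1 (e3 v (Els_reverse.1 hv))
    rcases h4 with h4 | h4 | h4
    · left
      rw [stk, List.mem_append] at h4
      simp only [List.mem_append]
      rcases h4 with h4 | h4
      · exact Or.inl (Or.inl h4)
      · exact Or.inr h4
    · left
      simp only [List.mem_append]
      exact Or.inl (Or.inr h4)
    · exact Or.inr (g3 v h4))
  -- phase 3 start
  have q4 : J M w = LO M w ++ (Sym.L 0 :: CL M w) ++ (fc (Sym.L 0) :: (G1 M w ++ G2 M w) ++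
      (fc (Sym.R 0) :: CR M w) ++ (Sym.R 0 :: RQ M w)) := by
    rw [J]; simp only [List.append_assoc, List.cons_append, List.nil_append]
  obtain ⟨H4, h4, e4⟩ := Hst.block (a := Sym.L (w + 1)) (z := Sym.R (w + 1)) (LO M w)
    (Sym.L 0 :: CL M w) (fc (Sym.L 0) :: (G1 M w ++ G2 M w) ++
      (fc (Sym.R 0) :: CR M w) ++ (Sym.R 0 :: RQ M w)) (by rw [← q4]; exact hJn) hLO
    (by rw [List.getLast?_append, List.getLast?_cons, hRQ]; rfl)
  rw [← q4] at h4 e4
  have q5 : LO M w ++ (fc (Sym.L 0) :: (G1 M w ++ G2 M w) ++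
      (fc (Sym.R 0) :: CR M w) ++ (Sym.R 0 :: RQ M w)) =
      [] ++ (stk M w).map f3 ++ (G2 M w ++ (fc (Sym.R 0) :: CR M w) ++ (Sym.R 0 :: RQ M w)) := by
    rw [f3_eq]; simp only [List.append_assoc, List.cons_append, List.nil_append]
  rw [q5] at h4
  obtain ⟨h1234, e1234⟩ := glue h123 e123 (P.mono (le_refl 2)) h4 (fun v hv => Or.inl (e4 v hv))
  -- phase 3
  have B3 : ∀ v ∈ G2 M w ++ (fc (Sym.R 0) :: CR M w) ++ (Sym.R 0 :: RQ M w),
      (∃ i < w, v = Sym.new (New.g (w + i))) ∨ (∃ i, v = fc (Sym.R i)) ∨ (∃ i, v = Sym.R i) := by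
    intro v hv
    simp only [List.mem_append, List.mem_cons, mem_G2, mem_CR, mem_RQ] at hv
    rcases hv with (h | rfl | ⟨i, _, rfl⟩) | rfl | ⟨i, _, rfl⟩
    · exact Or.inl h
    · exact Or.inr (Or.inl ⟨_, rfl⟩)
    · exact Or.inr (Or.inl ⟨_, rfl⟩)
    · exact Or.inr (Or.inr ⟨_, rfl⟩)
    · exact Or.inr (Or.inr ⟨_, rfl⟩)
  have nB3 : (G2 M w ++ (fc (Sym.R 0) :: CR M w) ++ (Sym.R 0 :: RQ M w)).Nodup := by
    refine hJn.sublist ?_
    rw [J]
    simp only [List.append_assoc]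
    refine List.Sublist.trans ?_ (List.sublist_append_right _ _)
    refine List.Sublist.trans ?_ (List.sublist_append_right _ _)
    refine List.Sublist.trans ?_ (List.sublist_append_right _ _)
    refine List.Sublist.trans ?_ (List.sublist_append_right _ _)
    exact List.sublist_append_right _ _
  have h5 := hg.hst.frame f3 [] (G2 M w ++ (fc (Sym.R 0) :: CR M w) ++ (Sym.R 0 :: RQ M w))
    (fun p q _ _ e => inj3 p q e) List.nodup_nil nB3 (by simp) (by simp)
    (by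
      intro p hp hx
      rcases hels p hp with ⟨i, hi, rfl | rfl⟩ | ⟨m, rfl⟩
      · rcases B3 _ hx with ⟨j, _, e⟩ | ⟨j, e⟩ | ⟨j, e⟩ <;> simp [f3, fc] at e
      · cases i with
        | zero => rcases B3 _ hx with ⟨j, _, e⟩ | ⟨j, e⟩ | ⟨j, e⟩ <;> simp [f3, fc] at e
        | succ i =>
          rcases B3 _ hx with ⟨j, _, e⟩ | ⟨j, e⟩ | ⟨j, e⟩
          · simp only [f3, Sym.new.injEq, New.g.injEq] at e; omega
          · simp [f3, fc] at e
          · simp [f3] at e
      · rcases B3 _ hx with ⟨j, _, e⟩ | ⟨j, e⟩ | ⟨j, e⟩ <;> simp [f3, fc] at e)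
    (Sym.L (w + 1)) (Sym.R (w + 1)) rfl
    (by rw [List.getLast?_cons, List.getLast?_append, List.getLast?_cons, hRQ]; rfl)
  have B3P : ∀ v ∈ G2 M w ++ (fc (Sym.R 0) :: CR M w) ++ (Sym.R 0 :: RQ M w), v ∈
      [] ++ (stk M w).map f3 ++ (G2 M w ++ (fc (Sym.R 0) :: CR M w) ++ (Sym.R 0 :: RQ M w)) :=
    fun v hv => List.mem_append.2 (Or.inr hv)
  obtain ⟨h15, e15⟩ := glue h1234 e1234 (P.mono (by omega : 2 ≤ 3)) h5 (by
    intro v hv
    rcases Els_frame hv with h | h | ⟨s, hs, rfl⟩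
    · simp at h
    · exact Or.inl (B3P v h)
    · rcases hg.els s hs with h | ⟨m, rfl⟩
      · left
        exact List.mem_append.2 (Or.inl (List.mem_append.2 (Or.inr (List.mem_map.2 ⟨s, h, rfl⟩))))
      · right
        exact ⟨fun h => absurd h.2 (by simp [f3, lev]), ⟨Or.inr ⟨_, rfl⟩, le_refl _⟩⟩)
  -- phase 4 start
  have q6 : [] ++ [Sym.L w, Sym.R w].map (f3 (M := M)) ++
      (G2 M w ++ (fc (Sym.R 0) :: CR M w) ++ (Sym.R 0 :: RQ M w)) =
      ([Sym.L (w + 1), f3 (Sym.R w)] ++ G2 M w ++ [fc (Sym.R 0)]) ++ (CR M w ++ [Sym.R 0]) ++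
        RQ M w := by
    simp only [List.append_assoc, List.cons_append, List.nil_append, List.map_cons, List.map_nil, f3]
  have n6 : (([Sym.L (w + 1), f3 (Sym.R w)] ++ G2 M w ++ [fc (Sym.R 0)]) ++ (CR M w ++ [Sym.R 0]) ++
        RQ M w).Nodup := by
    rw [← q6]; exact h5.nodup _ h5.mem_lst
  obtain ⟨H6, h6, e6⟩ := Hst.block (a := Sym.L (w + 1)) (z := Sym.R (w + 1)) _ _ _ n6 rfl hRQ
  rw [← q6] at h6 e6
  have q7 : ([Sym.L (w + 1), f3 (Sym.R w)] ++ G2 M w ++ [fc (Sym.R 0)]) ++ RQ M w =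
      [Sym.L (w + 1), f3 (Sym.R w)] ++ (stk M w).map (f4 w) ++ [] := by
    rw [f4_eq]; simp only [List.append_assoc, List.append_nil]
  rw [q7] at h6
  obtain ⟨h16, e16⟩ := glue h15 e15 (P.mono (le_refl 3)) h6 (fun v hv => Or.inl (e6 v hv))
  -- phase 4
  have f3R : f3 (M := M) (Sym.R w) = Sym.new (New.g w0) := rfl
  have h7 := hg.hst.frame (f4 w) [Sym.L (w + 1), f3 (Sym.R w)] []
    (fun p q hp hq e => inj4 (by omega) (hels p hp) (hels q hq) e)
    (by simp [f3R]) List.nodup_nil (by simp)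
    (by
      intro p hp hx
      rw [f3R] at hx
      simp only [List.mem_cons, List.not_mem_nil, or_false] at hx
      rcases hels p hp with ⟨i, hi, rfl | rfl⟩ | ⟨m, rfl⟩
      · cases i with
        | zero => simp [f4] at hx
        | succ i =>
          simp only [f4, reduceCtorEq, Sym.new.injEq, New.g.injEq, false_or] at hx
          omega
      · simp only [f4, reduceCtorEq, or_false] at hx
      · simp [f4] at hx)
    (by simp) (Sym.L (w + 1)) (Sym.R (w + 1)) rfl rfl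
  obtain ⟨h17, e17⟩ := glue h16 e16 (P.mono (by omega : 3 ≤ 4)) h7 (by
    intro v hv
    rcases Els_frame hv with h | h | ⟨s, hs, rfl⟩
    · exact Or.inl (List.mem_append.2 (Or.inl (List.mem_append.2 (Or.inl h))))
    · simp at h
    · rcases hg.els s hs with h | ⟨m, rfl⟩
      · left
        exact List.mem_append.2 (Or.inl (List.mem_append.2 (Or.inr (List.mem_map.2 ⟨s, h, rfl⟩))))
      · right
        exact ⟨fun h => absurd h.2 (by simp [f4, lev]), ⟨Or.inr ⟨_, rfl⟩, le_refl _⟩⟩)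
  -- phase 5
  have q8 : [Sym.L (w + 1), f3 (Sym.R w)] ++ [Sym.L w, Sym.R w].map (f4 (M := M) w) ++ [] =
      [Sym.L (w + 1)] ++ [f3 (Sym.R w)] ++ [f4 w (Sym.L w), Sym.R (w + 1)] := rfl
  have n8 : ([Sym.L (w + 1)] ++ [f3 (Sym.R w)] ++ [f4 (M := M) w (Sym.L w), Sym.R (w + 1)]).Nodup := by
    rw [← q8]; exact h7.nodup _ h7.mem_lst
  obtain ⟨H8, h8, e8⟩ := Hst.block (a := Sym.L (w + 1)) (z := Sym.R (w + 1)) _ _ _ n8 rfl rfl
  rw [← q8] at h8 e8
  obtain ⟨h18, e18⟩ := glue h17 e17 (P.mono (le_refl 4)) h8 (fun v hv => Or.inl (e8 v hv))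
  have n9 : ([Sym.L (w + 1)] ++ [f4 (M := M) w (Sym.L w)] ++ [Sym.R (w + 1)]).Nodup :=
    h8.nodup _ h8.mem_lst
  obtain ⟨H9, h9, e9⟩ := Hst.block (a := Sym.L (w + 1)) (z := Sym.R (w + 1)) _ _ _ n9 rfl rfl
  obtain ⟨h19, e19⟩ := glue h18 e18 (P.mono (le_refl 4)) h9 (fun v hv => Or.inl (e9 v hv))
  refine ⟨_, ⟨by omega, ?_, fun v hv => (e19 v hv).1⟩, ?_, ?_, ?_, ?_, ?_⟩
  · have : stkL Sym.L (w + 1) ++ stkR Sym.R (w + 1) = stk (New M) (w + 1) := rfl
    rw [this] at h19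
    exact h19
  · exact List.mem_append.2 (Or.inl (List.mem_append.2 (Or.inl (List.mem_append.2 (Or.inl
      (List.mem_append.2 (Or.inl (List.mem_append.2 (Or.inl (List.mem_append.2 (Or.inl h123.mem_lst)))))))))))
  · intro X hX
    refine List.mem_append.2 (Or.inl (List.mem_append.2 (Or.inl (List.mem_append.2 (Or.inl
      (List.mem_append.2 (Or.inl (List.mem_append.2 (Or.inl (List.mem_append.2 (Or.inl
      (List.mem_append.2 (Or.inl (List.mem_append.2 (Or.inr ?_)))))))))))))))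
    exact List.mem_reverse.2 (List.mem_map.2 ⟨X, hX, rfl⟩)
  · intro X hX
    refine List.mem_append.2 (Or.inl (List.mem_append.2 (Or.inl (List.mem_append.2 (Or.inl
      (List.mem_append.2 (Or.inl (List.mem_append.2 (Or.inr ?_)))))))))
    exact List.mem_map.2 ⟨X, hX, rfl⟩
  · intro X hX
    refine List.mem_append.2 (Or.inl (List.mem_append.2 (Or.inl (List.mem_append.2 (Or.inr ?_)))))
    exact List.mem_map.2 ⟨X, hX, rfl⟩
  · exact h18.mem_lst |> fun h => List.mem_append.2 (Or.inl h)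

theorem els_cases {w : ℕ} {M : Type} {H : List (List (Sym M))} (hg : Gad w M H) {s : Sym M}
    (hs : Els H s) : (∃ i ≤ w, s = Sym.L i ∨ s = Sym.R i) ∨ ∃ m, s = Sym.new m := by
  rcases hg.els s hs with h | h
  · exact Or.inl (mem_stk.1 h)
  · exact Or.inr h

theorem ed_of {V V' : Type} {H : List (List V)} {H' : List (List V')} {f : V → V'} {A B : List V'}
    (h : ∀ X ∈ H, A ++ X.map f ++ B ∈ H') {p q : V} (he : Ed H p q) : Ed H' (f p) (f q) := by
  obtain ⟨X, hX, s, t, rfl⟩ := he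
  exact ⟨_, h _ hX, A ++ s.map f, t.map f ++ B, by simp⟩

theorem el_of {V V' : Type} {H : List (List V)} {H' : List (List V')} {f : V → V'} {A B : List V'}
    (h : ∀ X ∈ H, A ++ X.map f ++ B ∈ H') {p : V} (he : Els H p) : Els H' (f p) := by
  obtain ⟨X, hX, hp⟩ := he
  exact ⟨_, h _ hX, by
    simp only [List.mem_append, List.mem_map]
    exact Or.inl (Or.inr ⟨p, hp, rfl⟩)⟩

theorem gad_bounds {w : ℕ} {M : Type} {H : List (List (Sym M))} (hg : Gad w M H) {K : ℕ}
    {ord : Sym M → ℕ} (hG : Good K H ord) {s : Sym M} (hs : Els H s) :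
    ord (Sym.L w) ≤ ord s ∧ ord s ≤ ord (Sym.R w) := by
  obtain ⟨X, hX, hsX⟩ := hs
  have h1 := hg.hst.fst X hX
  have h2 := hg.hst.lst X hX
  have h3 := hG.sorted hX
  constructor
  · obtain ⟨t, rfl⟩ : ∃ t, X = Sym.L w :: t := by
      cases X with
      | nil => simp at h1
      | cons y t =>
        simp only [List.head?_cons, Option.some.injEq] at h1
        exact ⟨t, by rw [h1]⟩
    rcases List.mem_cons.1 hsX with rfl | h
    · exact le_refl _
    · exact ((List.pairwise_cons.1 h3).1 s h).le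
  · obtain ⟨t, rfl⟩ : ∃ t, X = t ++ [Sym.R w] := by
      rcases List.eq_nil_or_concat X with h4 | ⟨t, y, h4⟩
      · rw [h4] at h2; simp at h2
      · rw [h4] at h2
        simp only [List.concat_eq_append, List.getLast?_append, List.getLast?_singleton,
          Option.some_or, Option.some.injEq] at h2
        exact ⟨t, by rw [h4, h2]; simp⟩
    rcases List.mem_append.1 hsX with h | h
    · exact ((List.pairwise_append.1 h3).2.2 s h _ (by simp)).le
    · rw [List.mem_singleton.1 h]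

theorem tw_cons {V : Type} {E : V → V → Prop} {ord : V → ℕ} {T : List (V × V)} (h : Tw E ord T)
    {a b : V} (hab : E a b) (h0 : ord a < ord b)
    (h1 : ∀ e ∈ T, ord a < ord e.1 ∧ ord b < ord e.2 ∧ ord e.1 < ord b ∧ ord a < ord e.2) :
    Tw E ord ((a, b) :: T) := by
  refine ⟨List.pairwise_cons.2 ⟨fun e he => ⟨(h1 e he).1, (h1 e he).2.1⟩, h.1⟩, ?_, ?_⟩
  · intro e he
    rcases List.mem_cons.1 he with rfl | he
    · exact hab
    · exact h.2.1 e he
  · intro e he f hf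
    rcases List.mem_cons.1 he with rfl | he
    · rcases List.mem_cons.1 hf with rfl | hf
      · exact h0
      · exact (h1 f hf).2.2.2
    · rcases List.mem_cons.1 hf with rfl | hf
      · exact (h1 e he).2.2.1
      · exact h.2.2 e he f hf

theorem tw_concat {V : Type} {E : V → V → Prop} {ord : V → ℕ} {T : List (V × V)} (h : Tw E ord T)
    {a b : V} (hab : E a b) (h0 : ord a < ord b)
    (h1 : ∀ e ∈ T, ord e.1 < ord a ∧ ord e.2 < ord b ∧ ord e.1 < ord b ∧ ord a < ord e.2) :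
    Tw E ord (T ++ [(a, b)]) := by
  refine ⟨List.pairwise_append.2 ⟨h.1, List.pairwise_singleton _ _, ?_⟩, ?_, ?_⟩
  · intro e he f hf
    rw [List.mem_singleton.1 hf]
    exact ⟨(h1 e he).1, (h1 e he).2.1⟩
  · intro e he
    rcases List.mem_append.1 he with he | he
    · exact h.2.1 e he
    · rw [List.mem_singleton.1 he]; exact hab
  · intro e he f hf
    rcases List.mem_append.1 he with he | he
    · rcases List.mem_append.1 hf with hf | hf
      · exact h.2.2 e he f hf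
      · rw [List.mem_singleton.1 hf]; exact (h1 e he).2.2.1
    · rw [List.mem_singleton.1 he]
      rcases List.mem_append.1 hf with hf | hf
      · exact (h1 f hf).2.2.2
      · rw [List.mem_singleton.1 hf]; exact h0

end Pool.Agent.PageUnb.S39

namespace Pool.Agent.PageUnb

open S39 in
theorem fstar_of_strong39 {K k : ℕ} (h : Strong K k) : Fstar K (k + 1) := by
  obtain ⟨w, M, H, hg, hs⟩ := h
  obtain ⟨H', hg', hJ, h1, h3, h4, hE⟩ := S39.hist hg
  refine ⟨w + 1, New M, H', hg', ?_⟩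
  intro ord hG x hx1 hx2
  have hw := hg.pos
  have gd1 : Good K H (fun v => ord (fc v)) := hG.pull fc (fun p q => ed_of h1) (fun p => el_of h1)
    (fun p q _ _ e => fc_inj e)
  have gd3 : Good K H (fun v => ord (f3 v)) := hG.pull f3 (fun p q => ed_of h3) (fun p => el_of h3)
    (fun p q _ _ e => inj3 p q e)
  have gd4 : Good K H (fun v => ord (f4 w v)) := hG.pull (f4 w) (fun p q => ed_of h4)
    (fun p => el_of h4) (fun p q hp hq e => inj4 hw (els_cases hg hp) (els_cases hg hq) e)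
  obtain ⟨T1, t1, l1, b1⟩ := hs _ gd1
  obtain ⟨T3, t3, l3, b3⟩ := hs _ gd3
  obtain ⟨T4, t4, l4, b4⟩ := hs _ gd4
  have sJ := hG.sorted hJ
  rw [J, List.pairwise_append, List.pairwise_append] at sJ
  obtain ⟨⟨pA, pM, hAM⟩, pR, hMR⟩ := sJ
  rw [List.pairwise_append, List.pairwise_append] at pM
  obtain ⟨⟨-, -, hCG⟩, -, hGC⟩ := pM
  have hpA := (List.pairwise_append.1 pA).2.2
  have hpR := (List.pairwise_cons.1 pR).1
  obtain ⟨w0, hw0⟩ : ∃ w0, w = w0 + 1 := ⟨w - 1, by omega⟩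
  have efg : f4 (M := M) w (Sym.L w) = Sym.new (New.g w) := by
    subst hw0
    simp only [f4]
    congr 2
    omega
  have ef3 : f3 (M := M) (Sym.R w) = Sym.new (New.g w0) := by
    subst hw0; rfl
  have mg : Sym.new (New.g w) ∈ G1 M w ++ G2 M w := by
    rw [List.mem_append, mem_G2]
    exact Or.inr ⟨0, by omega, by simp⟩
  have mg0 : Sym.new (New.g w0) ∈ G1 M w ++ G2 M w := by
    rw [List.mem_append, mem_G1]
    exact Or.inl ⟨w0, by omega, rfl⟩
  have F1 : ord (Sym.L 1) < ord (Sym.L 0) :=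
    hpA _ (mem_LO.2 ⟨0, by omega, rfl⟩) _ (by simp)
  have F2 : ord (Sym.L (w + 1)) < ord (Sym.L 0) :=
    hpA _ (mem_LO.2 ⟨w, le_refl _, rfl⟩) _ (by simp)
  have F3 : ord (Sym.L 0) < ord (fc (Sym.L 0)) := by
    refine hAM _ (by simp) _ ?_
    simp
  have F4 : ord (fc (Sym.L 0)) < ord (Sym.new (New.g w)) :=
    hCG _ (by simp) _ mg
  have F5 : ord (Sym.new (New.g w)) < ord (fc (Sym.R 0)) :=
    hGC _ (List.mem_append.2 (Or.inr mg)) _ (by simp)
  have F6 : ord (fc (Sym.R 0)) < ord (Sym.R 0) := by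
    refine hMR _ ?_ _ (by simp)
    simp
  have F7 : ord (Sym.R 0) < ord (Sym.R 1) := hpR _ (mem_RQ.2 ⟨0, by omega, rfl⟩)
  have F8 : ord (Sym.R 0) < ord (Sym.R (w + 1)) := hpR _ (mem_RQ.2 ⟨w, le_refl _, rfl⟩)
  have F9 : ord (Sym.new (New.g w0)) < ord (Sym.R 0) := by
    refine hMR _ ?_ _ (by simp)
    exact List.mem_append.2 (Or.inr (List.mem_append.2 (Or.inl (List.mem_append.2 (Or.inr mg0)))))
  have F10 : ∀ s, Els H s → ord (Sym.L 0) < ord (fc s) ∧ ord (fc s) < ord (Sym.R 0) := by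
    rintro s ⟨X, hX, hsX⟩
    have h5 := hG.sorted (h1 X hX)
    have h6 := (List.pairwise_append.1 h5).2.2
    have h7 := (List.pairwise_append.1 (List.pairwise_append.1 h5).1).2.2
    exact ⟨h7 _ (mem_stkL.2 ⟨0, by omega, rfl⟩) _ (List.mem_map.2 ⟨s, hsX, rfl⟩),
      h6 _ (List.mem_append.2 (Or.inr (List.mem_map.2 ⟨s, hsX, rfl⟩))) _
        (mem_stkR.2 ⟨0, by omega, rfl⟩)⟩
  have E0 : Ed H' (Sym.L 0) (Sym.R 0) := by
    refine ⟨stk (New M) (w + 1), hg'.hst.mem_fst, LO M w, RQ M w, ?_⟩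
    rw [stk_eq]; simp
  have E1 : Ed H' (Sym.L (w + 1)) (Sym.new (New.g w)) := by
    refine ⟨_, hE, [], [Sym.R (w + 1)], ?_⟩
    rw [efg]; rfl
  have E2 : Ed H' (Sym.new (New.g w)) (Sym.R (w + 1)) := by
    refine ⟨_, hE, [Sym.L (w + 1)], [], ?_⟩
    rw [efg]; rfl
  have tt1 : Tw (Ed H') ord (T1.map (fun e => (fc e.1, fc e.2))) :=
    Tw.map fc (fun p q => ed_of h1) t1
  have tt3 : Tw (Ed H') ord (T3.map (fun e => (f3 e.1, f3 e.2))) :=
    Tw.map f3 (fun p q => ed_of h3) t3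
  have tt4 : Tw (Ed H') ord (T4.map (fun e => (f4 w e.1, f4 w e.2))) :=
    Tw.map (f4 w) (fun p q => ed_of h4) t4
  have c1 : ∀ e ∈ T1.map (fun e => (fc e.1, fc e.2)), ord e.1 < ord (fc (Sym.L 0)) ∧
      ord (fc (Sym.R 0)) < ord e.2 ∧ ord (Sym.L 0) < ord e.1 ∧ ord e.2 < ord (Sym.R 0) := by
    intro e he
    obtain ⟨e0, he0, rfl⟩ := List.mem_map.1 he
    exact ⟨(b1 e0 he0).1, (b1 e0 he0).2, (F10 _ (t1.2.1 e0 he0).fst).1,
      (F10 _ (t1.2.1 e0 he0).snd).2⟩
  have c3 : ∀ e ∈ T3.map (fun e => (f3 e.1, f3 e.2)), ord e.1 < ord (Sym.L 1) ∧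
      ord (fc (Sym.L 0)) < ord e.2 ∧ ord e.2 ≤ ord (Sym.new (New.g w0)) := by
    intro e he
    obtain ⟨e0, he0, rfl⟩ := List.mem_map.1 he
    have h6 := (gad_bounds hg gd3 (t3.2.1 e0 he0).snd).2
    rw [ef3] at h6
    exact ⟨(b3 e0 he0).1, (b3 e0 he0).2, h6⟩
  have c4 : ∀ e ∈ T4.map (fun e => (f4 w e.1, f4 w e.2)), ord e.1 < ord (fc (Sym.R 0)) ∧
      ord (Sym.R 1) < ord e.2 ∧ ord (Sym.new (New.g w)) ≤ ord e.1 := by
    intro e he
    obtain ⟨e0, he0, rfl⟩ := List.mem_map.1 he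
    have h6 := (gad_bounds hg gd4 (t4.2.1 e0 he0).fst).1
    rw [efg] at h6
    exact ⟨(b4 e0 he0).1, (b4 e0 he0).2, h6⟩
  rcases le_or_gt x (ord (fc (Sym.L 0))) with hc | hc
  · refine ⟨_, tw_concat tt3 E0 (by omega) ?_, by simp [l3], ?_⟩
    · intro e he
      have := c3 e he
      omega
    · intro e he
      rcases List.mem_append.1 he with he | he
      · have := c3 e he
        omega
      · rw [List.mem_singleton.1 he]
        exact ⟨hx1, by dsimp only; omega⟩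
  rcases lt_or_ge x (ord (Sym.new (New.g w))) with hc2 | hc2
  · refine ⟨_, tw_cons tt1 E1 (by omega) ?_, by simp [l1], ?_⟩
    · intro e he
      have := c1 e he
      omega
    · intro e he
      rcases List.mem_cons.1 he with rfl | he
      · exact ⟨by dsimp only; omega, hc2⟩
      · have := c1 e he
        omega
  rcases le_or_gt x (ord (fc (Sym.R 0))) with hc3 | hc3
  · refine ⟨_, tw_concat tt1 E2 (by omega) ?_, by simp [l1], ?_⟩
    · intro e he
      have := c1 e he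
      omega
    · intro e he
      rcases List.mem_append.1 he with he | he
      · have := c1 e he
        omega
      · rw [List.mem_singleton.1 he]
        exact ⟨hc2, by dsimp only; omega⟩
  · refine ⟨_, tw_cons tt4 E0 (by omega) ?_, by simp [l4], ?_⟩
    · intro e he
      have := c4 e he
      omega
    · intro e he
      rcases List.mem_cons.1 he with rfl | he
      · exact ⟨hx1, hx2⟩
      · have := c4 e he
        omega

end Pool.Agent.PageUnb
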